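import Pool.Agent.HGR.Targets

set_option autoImplicit false

namespace Pool.Agent.HGR

open Finset
open scoped BigOperators

namespace BEZ_

open Polynomial

/-- Sylvester matrix -/
def S (e : ℕ) (F G : Fin (e + 1 + 1) → ℤ) : Matrix (Fin (2 * e + 1 + 1)) (Fin (2 * e + 1 + 1)) ℤ :=
  fun r k => if (r : ℕ) < e + 1 then
      (if (r : ℕ) ≤ (k : ℕ) then co F ((k : ℕ) - (r : ℕ)) else 0)
    else
      (if (r : ℕ) - (e + 1) ≤ (k : ℕ) then co G ((k : ℕ) - ((r : ℕ) - (e + 1))) else 0)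

theorem co_bd {n : ℕ} (c : Fin n → ℤ) (H : ℕ) (hc : ∀ i, |c i| ≤ (H : ℤ)) (j : ℕ) :
    |co c j| ≤ (H : ℤ) := by
  unfold co
  split_ifs with h
  · exact hc _
  · simp

theorem S_bd (e H : ℕ) (F G : Fin (e + 1 + 1) → ℤ) (hF : ∀ i, |F i| ≤ (H : ℤ))
    (hG : ∀ i, |G i| ≤ (H : ℤ)) (r k) : |S e F G r k| ≤ (H : ℤ) := by
  unfold S
  split_ifs with h1 h2 h3
  · exact co_bd F H hF _
  · simp
  · exact co_bd G H hG _
  · simp

theorem adj_bd (e H : ℕ) (F G : Fin (e + 1 + 1) → ℤ) (hF : ∀ i, |F i| ≤ (H : ℤ))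
    (hG : ∀ i, |G i| ≤ (H : ℤ)) (i j) :
    |(S e F G).adjugate i j| ≤ ((2 * e + 1).factorial : ℤ) * (H : ℤ) ^ (2 * e + 1) := by
  rw [Matrix.adjugate_fin_succ_eq_det_submatrix, abs_mul, abs_pow, abs_neg, abs_one, one_pow,
    one_mul]
  have := Matrix.det_le (A := (S e F G).submatrix j.succAbove i.succAbove)
    (abv := AbsoluteValue.abs) (x := (H : ℤ)) (fun a b => by
      simpa using S_bd e H F G hF hG _ _)
  simpa [AbsoluteValue.abs_apply, nsmul_eq_mul] using this

/-- evaluation of a shifted coefficient sequence -/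
theorem shift {R : Type} [CommRing R] (e i : ℕ) (hi : i < e + 1) (F : Fin (e + 1 + 1) → ℤ) (x y : R) :
    ∑ k : Fin (2 * e + 1 + 1), (((if i ≤ (k : ℕ) then co F ((k : ℕ) - i) else 0 : ℤ)) : R) *
      x ^ (k : ℕ) * y ^ (2 * e + 1 - (k : ℕ)) = x ^ i * y ^ (e - i) * val F x y := by
  rw [Fin.sum_univ_eq_sum_range (fun k => (((if i ≤ k then co F (k - i) else 0 : ℤ)) : R) *
      x ^ k * y ^ (2 * e + 1 - k)) (2 * e + 1 + 1)]
  have h1 : 2 * e + 1 + 1 = i + ((e + 1 + 1) + (e - i)) := by omega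
  rw [h1, Finset.sum_range_add, Finset.sum_range_add]
  have h2 : ∑ k ∈ range i, (((if i ≤ k then co F (k - i) else 0 : ℤ)) : R) *
      x ^ k * y ^ (2 * e + 1 - k) = 0 := by
    apply Finset.sum_eq_zero
    intro k hk
    have : ¬ i ≤ k := by simpa using hk
    simp [this]
  have h3 : ∑ k ∈ range (e - i), (((if i ≤ i + (e + 1 + 1 + k) then
      co F (i + (e + 1 + 1 + k) - i) else 0 : ℤ)) : R) *
      x ^ (i + (e + 1 + 1 + k)) * y ^ (2 * e + 1 - (i + (e + 1 + 1 + k))) = 0 := by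
    apply Finset.sum_eq_zero
    intro k hk
    have : co F (i + (e + 1 + 1 + k) - i) = 0 := by
      unfold co
      rw [dif_neg]
      omega
    rw [if_pos (by omega), this]
    simp
  rw [h2, h3, zero_add, add_zero]
  unfold val
  rw [Finset.mul_sum, ← Fin.sum_univ_eq_sum_range (fun k => (((if i ≤ i + k then
    co F (i + k - i) else 0 : ℤ)) : R) * x ^ (i + k) * y ^ (2 * e + 1 - (i + k))) (e + 1 + 1)]
  apply Finset.sum_congr rfl
  intro k _
  have h4 : co F (i + (k : ℕ) - i) = F k := by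
    unfold co
    have : i + (k : ℕ) - i = k := by omega
    rw [dif_pos (by rw [this]; exact k.2)]
    congr 1
    ext
    simp
  have h5 : 2 * e + 1 - (i + (k : ℕ)) = (e - i) + (e + 1 + 1 - 1 - (k : ℕ)) := by
    have := k.2
    omega
  rw [if_pos (by omega), h4, h5, pow_add, pow_add]
  ring

/-- first and second half of a vector -/
def hU {e : ℕ} (v : Fin (2 * e + 1 + 1) → ℤ) : Fin (e + 1) → ℤ := fun i => v ⟨i, by omega⟩
def hV {e : ℕ} (v : Fin (2 * e + 1 + 1) → ℤ) : Fin (e + 1) → ℤ := fun i => v ⟨e + 1 + i, by omega⟩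

theorem comb {R : Type} [CommRing R] (e : ℕ) (F G : Fin (e + 1 + 1) → ℤ)
    (v : Fin (2 * e + 1 + 1) → ℤ) (x y : R) :
    ∑ k : Fin (2 * e + 1 + 1), ((Matrix.vecMul v (S e F G) k : ℤ) : R) * x ^ (k : ℕ) *
      y ^ (2 * e + 1 - (k : ℕ)) =
    val (hU v) x y * val F x y + val (hV v) x y * val G x y := by
  have h1 : ∀ k, ((Matrix.vecMul v (S e F G) k : ℤ) : R) =
      ∑ r, (v r : R) * (S e F G r k : R) := by
    intro k
    simp [Matrix.vecMul, dotProduct]
  have h2 : ∑ k : Fin (2 * e + 1 + 1), ((Matrix.vecMul v (S e F G) k : ℤ) : R) * x ^ (k : ℕ) *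
      y ^ (2 * e + 1 - (k : ℕ)) = ∑ r, (v r : R) * ∑ k, (S e F G r k : R) * x ^ (k : ℕ) *
      y ^ (2 * e + 1 - (k : ℕ)) := by
    simp_rw [h1, Finset.sum_mul, Finset.mul_sum]
    rw [Finset.sum_comm]
    apply Finset.sum_congr rfl; intro r _
    apply Finset.sum_congr rfl; intro k _
    ring
  rw [h2]
  have h3 : ∀ r : Fin (2 * e + 1 + 1), ∑ k, (S e F G r k : R) * x ^ (k : ℕ) *
      y ^ (2 * e + 1 - (k : ℕ)) = if (r : ℕ) < e + 1 then x ^ (r : ℕ) * y ^ (e - (r : ℕ)) * val F x y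
      else x ^ ((r : ℕ) - (e + 1)) * y ^ (e - ((r : ℕ) - (e + 1))) * val G x y := by
    intro r
    by_cases hr : (r : ℕ) < e + 1
    · rw [if_pos hr, ← shift e r hr F x y]
      apply Finset.sum_congr rfl; intro k _
      simp only [S, if_pos hr]
    · rw [if_neg hr, ← shift e ((r : ℕ) - (e + 1)) (by omega) G x y]
      apply Finset.sum_congr rfl; intro k _
      simp only [S, if_neg hr]
  simp_rw [h3]
  rw [Finset.sum_congr rfl (g := fun r : Fin (2 * e + 1 + 1) => (fun r : ℕ => (if h : r < 2 * e + 1 + 1 then (v ⟨r, h⟩ : R) else 0) *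
    (if r < e + 1 then x ^ r * y ^ (e - r) * val F x y
      else x ^ (r - (e + 1)) * y ^ (e - (r - (e + 1))) * val G x y)) (r : ℕ))
    (fun r _ => by
      have hr := r.2
      simp only [dif_pos hr])]
  rw [Fin.sum_univ_eq_sum_range (fun r : ℕ => (if h : r < 2 * e + 1 + 1 then (v ⟨r, h⟩ : R) else 0) *
    (if r < e + 1 then x ^ r * y ^ (e - r) * val F x y
      else x ^ (r - (e + 1)) * y ^ (e - (r - (e + 1))) * val G x y)) (2 * e + 1 + 1)]
  have h4 : 2 * e + 1 + 1 = (e + 1) + (e + 1) := by ring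
  have h5 : range (2 * e + 1 + 1) = range ((e + 1) + (e + 1)) := by rw [h4]
  rw [h5, Finset.sum_range_add]
  congr 1
  · unfold val
    rw [Finset.sum_mul, ← Fin.sum_univ_eq_sum_range]
    apply Finset.sum_congr rfl; intro i _
    have h6 : (i : ℕ) < 2 * e + 1 + 1 := by omega
    rw [dif_pos h6, if_pos i.2]
    simp only [hU, Nat.add_sub_cancel]
    ring
  · unfold val
    rw [Finset.sum_mul, ← Fin.sum_univ_eq_sum_range (fun k => (if h : e + 1 + k < 2 * e + 1 + 1
      then (v ⟨e + 1 + k, h⟩ : R) else 0) *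
      (if e + 1 + k < e + 1 then x ^ (e + 1 + k) * y ^ (e - (e + 1 + k)) *
        ∑ i : Fin (e + 1 + 1), (F i : R) * x ^ (i : ℕ) * y ^ (e + 1 + 1 - 1 - (i : ℕ))
      else x ^ (e + 1 + k - (e + 1)) * y ^ (e - (e + 1 + k - (e + 1))) *
        ∑ i : Fin (e + 1 + 1), (G i : R) * x ^ (i : ℕ) * y ^ (e + 1 + 1 - 1 - (i : ℕ)))) (e + 1)]
    apply Finset.sum_congr rfl; intro i _
    have h6 : e + 1 + (i : ℕ) < 2 * e + 1 + 1 := by omega
    rw [dif_pos h6, if_neg (by omega)]
    have h7 : e + 1 + (i : ℕ) - (e + 1) = i := by omega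
    simp only [hV, Nat.add_sub_cancel, h7]
    ring

/-- the polynomial of a form -/
noncomputable def P {n : ℕ} (c : Fin n → ℤ) : ℂ[X] := ∑ i : Fin n, C ((c i : ℤ) : ℂ) * X ^ (i : ℕ)

theorem P_eval {n : ℕ} (c : Fin n → ℤ) (t : ℂ) : (P c).eval t = val c t 1 := by
  simp [P, val, eval_finsetSum]

theorem P_coeff {n : ℕ} (c : Fin n → ℤ) (i : Fin n) : (P c).coeff i = (c i : ℂ) := by
  unfold P
  rw [finsetSum_coeff, Finset.sum_eq_single i]
  · simp
  · intro b _ hb
    simp only [coeff_C_mul, coeff_X_pow]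
    rw [if_neg]
    · simp
    · intro h
      exact hb (Fin.ext h.symm)
  · simp

theorem P_deg {n : ℕ} (c : Fin n → ℤ) : (P c).degree < n := by
  unfold P
  rw [degree_lt_iff_coeff_zero]
  intro m hm
  rw [finsetSum_coeff]
  apply Finset.sum_eq_zero
  intro i _
  simp only [coeff_C_mul, coeff_X_pow]
  rw [if_neg (by omega)]
  simp

theorem P_zero {n : ℕ} (c : Fin n → ℤ) (h : P c = 0) : c = 0 := by
  funext i
  have := P_coeff c i
  rw [h] at this
  simpa using this.symm

theorem key (e : ℕ) (F G : Fin (e + 1 + 1) → ℤ) (U V : Fin (e + 1) → ℤ)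
    (hc : ∀ x y : ℂ, val F x y = 0 → val G x y = 0 → x = 0 ∧ y = 0)
    (hF : F (Fin.last _) ≠ 0)
    (h : ∀ x y : ℂ, val U x y * val F x y + val V x y * val G x y = 0) : U = 0 ∧ V = 0 := by
  have h1 : P U * P F + P V * P G = 0 := by
    apply Polynomial.funext
    intro t
    simpa [P_eval] using h t 1
  have hcop : IsCoprime (P F) (P G) := by
    rw [Polynomial.isCoprime_iff_aeval_ne_zero_of_isAlgClosed ℂ ℂ]
    intro a
    by_contra hcon
    push Not at hcon
    obtain ⟨ha, hb⟩ := hcon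
    rw [Polynomial.coe_aeval_eq_eval, P_eval] at ha hb
    exact one_ne_zero (hc a 1 ha hb).2
  have hdeg : (P F).degree = (e + 1 : ℕ) := by
    apply le_antisymm
    · have := P_deg F
      rw [Polynomial.degree_lt_iff_coeff_zero] at this
      rw [Polynomial.degree_le_iff_coeff_zero]
      intro m hm
      apply this
      have : e + 1 < m := by exact_mod_cast hm
      omega
    · apply Polynomial.le_degree_of_ne_zero
      have := P_coeff F (Fin.last _)
      simp only [Fin.val_last] at this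
      rw [this]
      exact_mod_cast hF
  have hdvd : P F ∣ P V * P G := by
    refine ⟨- P U, ?_⟩
    linear_combination h1
  have hdvd2 : P F ∣ P V := hcop.dvd_of_dvd_mul_right hdvd
  have hV0 : P V = 0 := by
    apply Polynomial.eq_zero_of_dvd_of_degree_lt hdvd2
    rw [hdeg]
    exact P_deg V
  have hF0 : P F ≠ 0 := by
    intro h0
    rw [h0, Polynomial.degree_zero] at hdeg
    exact absurd hdeg (by exact WithBot.bot_ne_coe)
  rw [hV0, zero_mul, add_zero] at h1
  have hU0 : P U = 0 := by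
    rcases mul_eq_zero.1 h1 with h2 | h2
    · exact h2
    · exact absurd h2 hF0
  exact ⟨P_zero U hU0, P_zero V hV0⟩

theorem val10 {n : ℕ} (F : Fin (n + 1) → ℤ) : val F (1 : ℂ) 0 = F (Fin.last n) := by
  unfold val
  rw [Finset.sum_eq_single (Fin.last n)]
  · simp
  · intro b _ hb
    have : (b : ℕ) < n := by
      have h1 := b.2
      have h2 : (b : ℕ) ≠ n := fun h => hb (Fin.ext h)
      omega
    have h3 : n + 1 - 1 - (b : ℕ) ≠ 0 := by omega
    rw [zero_pow h3, mul_zero]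
  · simp

theorem det_ne (e : ℕ) (F G : Fin (e + 1 + 1) → ℤ)
    (hc : ∀ x y : ℂ, val F x y = 0 → val G x y = 0 → x = 0 ∧ y = 0) : (S e F G).det ≠ 0 := by
  intro hdet
  obtain ⟨v, hv0, hv⟩ := Matrix.exists_vecMul_eq_zero_iff.2 hdet
  have h : ∀ x y : ℂ, val (hU v) x y * val F x y + val (hV v) x y * val G x y = 0 := by
    intro x y
    rw [← comb e F G v x y]
    apply Finset.sum_eq_zero
    intro k _
    rw [hv]
    simp
  have h2 : hU v = 0 ∧ hV v = 0 := by
    by_cases hF : F (Fin.last _) = 0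
    · by_cases hG : G (Fin.last _) = 0
      · exfalso
        have := hc 1 0 (by rw [val10]; exact_mod_cast hF) (by rw [val10]; exact_mod_cast hG)
        exact one_ne_zero this.1
      · have := key e G F (hV v) (hU v) (fun x y a b => hc x y b a) hG
          (fun x y => by rw [add_comm]; exact h x y)
        exact ⟨this.2, this.1⟩
    · exact key e F G (hU v) (hV v) hc hF h
  apply hv0
  funext i
  by_cases hi : (i : ℕ) < e + 1
  · have := congrFun h2.1 ⟨i, hi⟩
    simpa [hU] using this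
  · have := congrFun h2.2 ⟨i - (e + 1), by omega⟩
    simp only [hV] at this
    have h3 : (⟨e + 1 + ((i : ℕ) - (e + 1)), by omega⟩ : Fin (2 * e + 1 + 1)) = i := by
      ext
      simp only
      omega
    rw [h3] at this
    simpa using this

theorem row (e : ℕ) (F G : Fin (e + 1 + 1) → ℤ) (k0 : Fin (2 * e + 1 + 1)) {R : Type} [CommRing R]
    (x y : R) : ((S e F G).det : R) * x ^ (k0 : ℕ) * y ^ (2 * e + 1 - (k0 : ℕ)) =
      val (hU ((S e F G).adjugate k0)) x y * val F x y +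
      val (hV ((S e F G).adjugate k0)) x y * val G x y := by
  rw [← comb]
  have h1 : ∀ k, Matrix.vecMul ((S e F G).adjugate k0) (S e F G) k =
      if k0 = k then (S e F G).det else 0 := by
    intro k
    have := congrFun (congrFun (Matrix.adjugate_mul (S e F G)) k0) k
    rw [Matrix.mul_apply] at this
    simp only [Matrix.smul_apply, Matrix.one_apply, smul_eq_mul, mul_ite, mul_one, mul_zero] at this
    rw [← this]
    rfl
  simp_rw [h1]
  rw [Finset.sum_eq_single k0]
  · simp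
  · intro b _ hb
    rw [if_neg (Ne.symm hb)]
    simp
  · simp

end BEZ_

open BEZ_ in
theorem p_BEZ : T_BEZ := by
  intro d hd
  obtain ⟨e, rfl⟩ : ∃ e, d = e + 1 := ⟨d - 1, by omega⟩
  refine ⟨(2 * e + 1).factorial, ?_⟩
  intro H hH f hf
  obtain ⟨hF, hG, hc⟩ := hf
  have hexp : 2 * (e + 1) - 1 = 2 * e + 1 := by omega
  rw [hexp]
  have hb := adj_bd e H f.1 f.2 hF hG
  refine ⟨(S e f.1 f.2).det, det_ne e f.1 f.2 hc, hU ((S e f.1 f.2).adjugate (Fin.last _)),
    hV ((S e f.1 f.2).adjugate (Fin.last _)), hU ((S e f.1 f.2).adjugate 0),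
    hV ((S e f.1 f.2).adjugate 0), fun i => hb _ _, fun i => hb _ _, fun i => hb _ _,
    fun i => hb _ _, ?_⟩
  intro x y
  have r1 := row e f.1 f.2 (Fin.last _) x y
  have r2 := row e f.1 f.2 0 x y
  simp only [Fin.val_last, Nat.sub_self, pow_zero, mul_one, Fin.val_zero, Nat.sub_zero] at r1 r2
  exact ⟨by simpa using r1, by simpa using r2⟩

end Pool.Agent.HGR
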