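import Pool.Agent.HGR.Targets

set_option autoImplicit false

/-!
# HGR, job CASE1: sum over the witnesses of small image height (MP_c076ed_nt)
-/

namespace Pool.Agent.HGR

open Finset
open scoped BigOperators

namespace CASE1_

/-- the maps with a witness with the given points -/
def WS (d H C : ℕ) (a b r s : ℤ) : Set ((Fin (d + 1) → ℤ) × (Fin (d + 1) → ℤ)) :=
  {f | ∃ Ψ, Wit d H C f.1 f.2 a b r s Ψ}

/-- the nonzero points of a square -/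
noncomputable def sq (N : ℕ) : Finset (ℤ × ℤ) :=
  (Icc (-(N : ℤ)) N ×ˢ Icc (-(N : ℤ)) N).filter (fun p => p ≠ 0)

theorem mem_sq {N : ℕ} {p : ℤ × ℤ} : p ∈ sq N ↔ 1 ≤ mx p.1 p.2 ∧ mx p.1 p.2 ≤ N := by
  obtain ⟨a, b⟩ := p
  unfold sq mx
  rw [mem_filter, mem_product, mem_Icc, mem_Icc, ne_eq, Prod.mk_eq_zero]
  simp only
  omega

theorem mx_pos {a b : ℤ} (h : IsCoprime a b) : 1 ≤ mx a b := by
  by_contra h1
  have h2 : a = 0 ∧ b = 0 := by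
    unfold mx at h1
    omega
  obtain ⟨rfl, rfl⟩ := h2
  exact not_isCoprime_zero_zero h

theorem sub (d H C : ℕ) : Bad1 d H C ⊆ ⋃ p ∈ sq (4 * d * H ^ 2),
    ⋃ q ∈ sq (min (mx p.1 p.2) (2 * H)), WS d H C p.1 p.2 q.1 q.2 := by
  rintro f ⟨a, b, r, s, Ψ, hW, hY⟩
  have hX : mx a b ≤ 4 * d * H ^ 2 := by
    obtain ⟨j, hj⟩ := Function.ne_iff.1 hW.nz
    have h1 : 1 ≤ |Ψ j| := Int.one_le_abs hj
    have h2 := hW.size j
    have h3 : (mx a b : ℤ) ≤ mx a b * |Ψ j| := le_mul_of_one_le_right (by positivity) h1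
    have h4 : (mx r s : ℤ) ≤ 2 * H := by exact_mod_cast hY
    have h5 : (2 * d * H * mx r s : ℤ) ≤ 2 * d * H * (2 * H) :=
      mul_le_mul_of_nonneg_left h4 (by positivity)
    have h6 : (mx a b : ℤ) ≤ 4 * d * H ^ 2 := by
      calc (mx a b : ℤ) ≤ 2 * d * H * (2 * H) := (h3.trans h2).trans h5
        _ = _ := by ring
    exact_mod_cast h6
  simp only [Set.mem_iUnion]
  refine ⟨(a, b), mem_sq.2 ⟨mx_pos hW.ab, hX⟩, (r, s), mem_sq.2 ⟨mx_pos hW.rs, ?_⟩, Ψ, hW⟩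
  exact le_min hW.le hY

theorem sum_sq (N : ℕ) : ∑ x ∈ Icc 1 N, ((x : ℝ) ^ 2)⁻¹ ≤ 2 - (N : ℝ)⁻¹ := by
  induction N with
  | zero => simp
  | succ N ih =>
    rw [← Finset.insert_Icc_right_eq_Icc_add_one (by omega), Finset.sum_insert (by simp)]
    rcases Nat.eq_zero_or_pos N with rfl | hN
    · norm_num
    · have h1 : (0 : ℝ) < N := by exact_mod_cast hN
      have h2 : (((N + 1 : ℕ) : ℝ) ^ 2)⁻¹ ≤ (N : ℝ)⁻¹ - ((N + 1 : ℕ) : ℝ)⁻¹ := by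
        push_cast
        rw [inv_sub_inv h1.ne' (by positivity), ← one_div, div_le_div_iff₀ (by positivity)
          (by positivity)]
        nlinarith
      linarith

theorem sum_inv (N : ℕ) : ∑ x ∈ Icc 1 N, ((x : ℝ))⁻¹ ≤ 1 + Real.log N := by
  have h1 := harmonic_le_one_add_log N
  rw [harmonic_eq_sum_Icc] at h1
  push_cast at h1
  exact h1

theorem bnd (h1 : T_N1) (h2 : T_SH) (d H C : ℕ) (hH : 1 ≤ H) :
    (Bad1 d H C).Finite ∧ ((Bad1 d H C).ncard : ℝ) ≤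
      64 * ((6 * d : ℝ) ^ d * 4 ^ (d + 1) * (H : ℝ) ^ (2 * d + 1)) *
        ∑ x ∈ Icc (1 : ℕ) (4 * d * H ^ 2), (x : ℝ) ^ 2 * ((x : ℝ) ^ d)⁻¹ := by
  have hfin : ∀ p ∈ sq (4 * d * H ^ 2), ∀ q ∈ sq (min (mx p.1 p.2) (2 * H)),
      (WS d H C p.1 p.2 q.1 q.2).Finite := by
    intro p hp q hq
    obtain ⟨h3, h4⟩ := mem_sq.1 hq
    exact (h1 d H C hH p.1 p.2 q.1 q.2 h3 (h4.trans (min_le_right _ _))).1
  have hfin2 : ∀ p ∈ sq (4 * d * H ^ 2),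
      (⋃ q ∈ sq (min (mx p.1 p.2) (2 * H)), WS d H C p.1 p.2 q.1 q.2).Finite := fun p hp =>
    Set.Finite.biUnion (Finset.finite_toSet _) (hfin p hp)
  have hfin3 := Set.Finite.biUnion (Finset.finite_toSet (sq (4 * d * H ^ 2))) hfin2
  refine ⟨hfin3.subset (sub d H C), ?_⟩
  have h3 : (Bad1 d H C).ncard ≤ ∑ p ∈ sq (4 * d * H ^ 2),
      ∑ q ∈ sq (min (mx p.1 p.2) (2 * H)), (WS d H C p.1 p.2 q.1 q.2).ncard :=
    (Set.ncard_le_ncard (sub d H C) hfin3).trans ((Finset.set_ncard_biUnion_le _ _).trans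
      (Finset.sum_le_sum fun p _ => Finset.set_ncard_biUnion_le _ _))
  have h4 : ((Bad1 d H C).ncard : ℝ) ≤ ∑ p ∈ sq (4 * d * H ^ 2),
      ∑ q ∈ sq (min (mx p.1 p.2) (2 * H)), ((WS d H C p.1 p.2 q.1 q.2).ncard : ℝ) := by
    exact_mod_cast h3
  refine h4.trans ?_
  have hH0 : (0 : ℝ) < H := by exact_mod_cast hH
  set c : ℝ := (6 * d : ℝ) ^ d * 4 ^ (d + 1) * (H : ℝ) ^ (2 * d + 1) with hc
  have hc0 : 0 ≤ c := by positivity
  have h5 : ∀ p ∈ sq (4 * d * H ^ 2),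
      ∑ q ∈ sq (min (mx p.1 p.2) (2 * H)), ((WS d H C p.1 p.2 q.1 q.2).ncard : ℝ) ≤
        (fun x : ℕ => 8 * c * ((x : ℝ) ^ d)⁻¹ * x) (mx p.1 p.2) := by
    intro p hp
    obtain ⟨hp1, _⟩ := mem_sq.1 hp
    have hX : (0 : ℝ) < mx p.1 p.2 := by exact_mod_cast hp1
    have h6 : ∀ q ∈ sq (min (mx p.1 p.2) (2 * H)), ((WS d H C p.1 p.2 q.1 q.2).ncard : ℝ) ≤
        (fun y : ℕ => c * ((mx p.1 p.2 : ℝ) ^ d)⁻¹ * (y : ℝ)⁻¹) (mx q.1 q.2) := by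
      intro q hq
      obtain ⟨h7, h8⟩ := mem_sq.1 hq
      have hY : (0 : ℝ) < mx q.1 q.2 := by exact_mod_cast h7
      refine (h1 d H C hH p.1 p.2 q.1 q.2 h7 (h8.trans (min_le_right _ _))).2.trans (le_of_eq ?_)
      simp only [hc, div_pow, mul_pow]
      field_simp
      ring
    refine (Finset.sum_le_sum h6).trans ?_
    have h7 := h2 (fun y : ℕ => c * ((mx p.1 p.2 : ℝ) ^ d)⁻¹ * (y : ℝ)⁻¹)
      (min (mx p.1 p.2) (2 * H))
    unfold sq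
    rw [h7]
    have h8 : ∀ x ∈ Icc 1 (min (mx p.1 p.2) (2 * H)),
        8 * (x : ℝ) * (c * ((mx p.1 p.2 : ℝ) ^ d)⁻¹ * (x : ℝ)⁻¹) =
          8 * c * ((mx p.1 p.2 : ℝ) ^ d)⁻¹ := by
      intro x hx
      have hx0 : (0 : ℝ) < x := by exact_mod_cast (mem_Icc.1 hx).1
      field_simp
    rw [Finset.sum_congr rfl h8, Finset.sum_const, Nat.card_Icc, nsmul_eq_mul, mul_comm]
    refine mul_le_mul_of_nonneg_left ?_ (by positivity)
    exact_mod_cast (show min (mx p.1 p.2) (2 * H) + 1 - 1 ≤ mx p.1 p.2 by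
      have := min_le_left (mx p.1 p.2) (2 * H)
      omega)
  refine (Finset.sum_le_sum h5).trans ?_
  have h6 := h2 (fun x : ℕ => 8 * c * ((x : ℝ) ^ d)⁻¹ * x) (4 * d * H ^ 2)
  unfold sq
  rw [h6, Finset.mul_sum]
  refine le_of_eq (Finset.sum_congr rfl fun x _ => ?_)
  ring

end CASE1_

open CASE1_ in
/-- CASE1 -/
theorem p_CASE1 (h1 : T_N1) (h2 : T_SH) : T_CASE1 := by
  intro d C hd
  refine ⟨64 * ((6 * d : ℝ) ^ d * 4 ^ (d + 1)) * 4, fun H hH => ?_⟩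
  obtain ⟨h3, h4⟩ := bnd h1 h2 d H C hH
  refine ⟨h3, h4.trans ?_⟩
  have hH0 : (1 : ℝ) ≤ H := by exact_mod_cast hH
  have h5 : ∑ x ∈ Icc (1 : ℕ) (4 * d * H ^ 2), (x : ℝ) ^ 2 * ((x : ℝ) ^ d)⁻¹ ≤
      4 * (if d = 3 then 1 + Real.log H else 1) := by
    by_cases h6 : d = 3
    · subst h6
      rw [if_pos rfl]
      have h7 : ∑ x ∈ Icc (1 : ℕ) (4 * 3 * H ^ 2), (x : ℝ) ^ 2 * ((x : ℝ) ^ 3)⁻¹ =
          ∑ x ∈ Icc (1 : ℕ) (4 * 3 * H ^ 2), ((x : ℝ))⁻¹ := by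
        refine Finset.sum_congr rfl fun x hx => ?_
        have hx0 : (0 : ℝ) < x := by exact_mod_cast (mem_Icc.1 hx).1
        field_simp
      rw [h7]
      refine (sum_inv _).trans ?_
      push_cast
      rw [Real.log_mul (by norm_num) (by positivity), Real.log_pow]
      have h8 : Real.log 12 ≤ 3 := by
        rw [Real.log_le_iff_le_exp (by norm_num)]
        have h9 := Real.exp_one_gt_d9
        have h10 : Real.exp 3 = Real.exp 1 ^ 3 := by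
          rw [← Real.exp_nat_mul]
          norm_num
        rw [h10]
        have h11 : (2.7 : ℝ) ≤ Real.exp 1 := by linarith
        calc (12 : ℝ) ≤ 2.7 ^ 3 := by norm_num
          _ ≤ _ := pow_le_pow_left₀ (by norm_num) h11 3
      have h9 : 0 ≤ Real.log H := Real.log_nonneg hH0
      push_cast
      linarith
    · rw [if_neg h6]
      have h7 : ∑ x ∈ Icc (1 : ℕ) (4 * d * H ^ 2), (x : ℝ) ^ 2 * ((x : ℝ) ^ d)⁻¹ ≤
          ∑ x ∈ Icc (1 : ℕ) (4 * d * H ^ 2), ((x : ℝ) ^ 2)⁻¹ := by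
        refine Finset.sum_le_sum fun x hx => ?_
        have hx1 : (1 : ℝ) ≤ x := by exact_mod_cast (mem_Icc.1 hx).1
        have hx0 : (0 : ℝ) < x := by linarith
        rw [← div_eq_mul_inv, ← one_div, div_le_div_iff₀ (by positivity) (by positivity), one_mul,
          ← pow_add]
        exact pow_le_pow_right₀ hx1 (by omega)
      refine (h7.trans (sum_sq _)).trans ?_
      have : (0 : ℝ) ≤ ((4 * d * H ^ 2 : ℕ) : ℝ)⁻¹ := by positivity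
      linarith
  calc 64 * ((6 * d : ℝ) ^ d * 4 ^ (d + 1) * (H : ℝ) ^ (2 * d + 1)) *
        ∑ x ∈ Icc (1 : ℕ) (4 * d * H ^ 2), (x : ℝ) ^ 2 * ((x : ℝ) ^ d)⁻¹ ≤
      64 * ((6 * d : ℝ) ^ d * 4 ^ (d + 1) * (H : ℝ) ^ (2 * d + 1)) *
        (4 * (if d = 3 then 1 + Real.log H else 1)) :=
        mul_le_mul_of_nonneg_left h5 (by positivity)
    _ = _ := by ring

end Pool.Agent.HGR
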