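import Pool.Agent.HGR.Targets

set_option autoImplicit false

/-! HGR-CASE2: assembly of the case of large image height, degree at least four. -/

namespace Pool.Agent.HGR

open Finset
open scoped BigOperators

namespace CASE2_

lemma CC_zero (d m H : ℕ) : CC d m H 0 = ∅ := by
  ext t
  simp only [CC, Set.mem_ofPred_eq, Set.mem_empty_iff_false, iff_false]
  rintro ⟨-, -, h, h0, -⟩
  apply h0
  funext j
  have := h j
  simp only [Nat.cast_zero, abs_nonpos_iff] at this
  exact this

end CASE2_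

open CASE2_

theorem p_CASE2 (h1 : T_NU) (h2 : T_CC) (h3 : T_INJ) (h4 : T_SUMM) : T_CASE2 := by
  intro d C hd
  obtain ⟨K, hK, hNU⟩ := h1
  obtain ⟨K', hK'⟩ := h4 d C K hd hK
  refine ⟨K', fun H hH => ?_⟩
  obtain ⟨I, hI, hsum⟩ := hK' H hH
  have hfin : ∀ m z : ℕ, (CC d m H z).Finite := by
    intro m z
    rcases Nat.eq_zero_or_pos z with rfl | hz
    · rw [CC_zero]; exact Set.finite_empty
    · exact (h2 d m H z hd hz).1
  obtain ⟨hf, hb⟩ := h3 d H C I (by omega) hH hI hfin
  refine ⟨hf, hb.trans ?_⟩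
  refine hsum (fun m z => ∑ A ∈ range m, ((nuS m H z (A : ℤ)).card : ℝ) ^ 2)
    (fun m z => ((CC d m H z).ncard : ℝ)) ?_ ?_ ?_
  · intro m
    simp only [CC_zero, Set.ncard_empty, Nat.cast_zero]
  · intro m z hz hm
    exact ⟨Finset.sum_nonneg fun A _ => by positivity, hNU m H z hH hz hm⟩
  · intro m z hz
    exact ⟨by positivity, (h2 d m H z hd hz).2⟩

end Pool.Agent.HGR
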