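import Pool.Agent.HGR.Targets

set_option autoImplicit false

/-!
# CASE3: maps of degree three with a witness of large image height, the dyadic sum
-/

namespace Pool.Agent.HGR

namespace CASE3_

/-- union bound -/
theorem ncard_biUnion_le {α β : Type*} {I : Set α} (hI : I.Finite) {A : α → Set β} {c : ℝ}
    (hA : ∀ i ∈ I, (A i).Finite) (hc : ∀ i ∈ I, ((A i).ncard : ℝ) ≤ c) {S : Set β}
    (hS : ∀ s ∈ S, ∃ i ∈ I, s ∈ A i) :
    S.Finite ∧ (S.ncard : ℝ) ≤ I.ncard * c := by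
  classical
  have hfin : (⋃ i ∈ I, A i).Finite := hI.biUnion hA
  have hsub : S ⊆ ⋃ i ∈ I, A i := fun s hs => by
    obtain ⟨i, hi, hsi⟩ := hS s hs
    exact Set.mem_biUnion hi hsi
  refine ⟨hfin.subset hsub, ?_⟩
  have h1 : S.ncard ≤ (⋃ i ∈ I, A i).ncard := Set.ncard_le_ncard hsub hfin
  have h2 : (⋃ i ∈ I, A i).ncard ≤ ∑ i ∈ hI.toFinset, (A i).ncard := by
    have e : (⋃ i ∈ I, A i) = ((hI.toFinset.biUnion fun i =>
        if h : i ∈ I then (hA i h).toFinset else ∅ : Finset β) : Set β) := by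
      ext s
      simp only [Set.mem_iUnion, Finset.coe_biUnion, Set.Finite.coe_toFinset, exists_prop]
      constructor
      · rintro ⟨i, hi, hs⟩
        exact ⟨i, hi, by simp [hi, hs]⟩
      · rintro ⟨i, hi, hs⟩
        refine ⟨i, hi, ?_⟩
        simpa [hi] using hs
    rw [e, Set.ncard_coe_finset]
    refine Finset.card_biUnion_le.trans (Finset.sum_le_sum fun i hi => ?_)
    have hi' : i ∈ I := hI.mem_toFinset.1 hi
    rw [dif_pos hi']
    exact (Set.ncard_eq_toFinset_card (A i) (hA i hi')).ge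
  have h3 : ((∑ i ∈ hI.toFinset, (A i).ncard : ℕ) : ℝ) ≤ ∑ _i ∈ hI.toFinset, c := by
    push_cast
    exact Finset.sum_le_sum fun i hi => hc i (hI.mem_toFinset.1 hi)
  rw [Finset.sum_const, nsmul_eq_mul, ← Set.ncard_eq_toFinset_card I hI] at h3
  calc (S.ncard : ℝ) ≤ ((∑ i ∈ hI.toFinset, (A i).ncard : ℕ) : ℝ) := by
        exact_mod_cast h1.trans h2
    _ ≤ _ := h3

/-- the arithmetic of one dyadic block -/
theorem block_ineq {x z A N B KA KB c : ℝ} (hx : 0 < x) (hz : 1 ≤ z) (hzx : z ≤ 2 * x)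
    (hN0 : 0 ≤ N) (hB1 : 1 ≤ B) (hKA : 0 < KA) (hKB : 0 < KB) (hc : 0 ≤ c)
    (hA1 : A ≤ KA * (B ^ 4 + B * z ^ 8)) (hA2 : A ≤ KB * (B * z ^ 9 + B ^ 2 * z ^ 4))
    (hN1 : N * B ≤ 24 * x ^ 4 * z ^ 8) (hN2 : N ≤ c * x ^ 10) :
    A * N ^ 2 ≤ (KB * 73728 + KA * (36864 + 24 * c)) * (x ^ 14 * z ^ 16) := by
  have hz0 : 0 < z := by linarith
  have hB0 : 0 < B := by linarith
  have hNB : B ^ 2 * N ^ 2 ≤ 576 * x ^ 8 * z ^ 16 := by
    have h1 : (N * B) ^ 2 ≤ (24 * x ^ 4 * z ^ 8) ^ 2 :=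
      pow_le_pow_left₀ (by positivity) hN1 2
    calc B ^ 2 * N ^ 2 = (N * B) ^ 2 := by ring
      _ ≤ (24 * x ^ 4 * z ^ 8) ^ 2 := h1
      _ = 576 * x ^ 8 * z ^ 16 := by ring
  have hz6 : z ^ 6 ≤ 64 * x ^ 6 := by
    calc z ^ 6 ≤ (2 * x) ^ 6 := pow_le_pow_left₀ hz0.le hzx 6
      _ = 64 * x ^ 6 := by ring
  have hmain : z ^ 6 * (B ^ 2 * N ^ 2) ≤ 36864 * (x ^ 14 * z ^ 16) := by
    calc z ^ 6 * (B ^ 2 * N ^ 2) ≤ (64 * x ^ 6) * (576 * x ^ 8 * z ^ 16) :=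
          mul_le_mul hz6 hNB (by positivity) (by positivity)
      _ = 36864 * (x ^ 14 * z ^ 16) := by ring
  have hpos : 0 ≤ x ^ 14 * z ^ 16 := by positivity
  rcases le_or_gt (z ^ 3) B with hcase | hcase
  · have h1 : B * z ^ 9 + B ^ 2 * z ^ 4 ≤ 2 * (B ^ 2 * z ^ 6) := by
      have e1 : B * z ^ 9 ≤ B ^ 2 * z ^ 6 := by
        calc B * z ^ 9 = (B * z ^ 6) * z ^ 3 := by ring
          _ ≤ (B * z ^ 6) * B := mul_le_mul_of_nonneg_left hcase (by positivity)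
          _ = B ^ 2 * z ^ 6 := by ring
      have e2 : B ^ 2 * z ^ 4 ≤ B ^ 2 * z ^ 6 :=
        mul_le_mul_of_nonneg_left (pow_le_pow_right₀ hz (by norm_num)) (by positivity)
      linarith
    have h2 : A * N ^ 2 ≤ KB * 73728 * (x ^ 14 * z ^ 16) := by
      calc A * N ^ 2 ≤ (KB * (2 * (B ^ 2 * z ^ 6))) * N ^ 2 := by
            refine mul_le_mul_of_nonneg_right (hA2.trans ?_) (by positivity)
            exact mul_le_mul_of_nonneg_left h1 hKB.le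
        _ = KB * 2 * (z ^ 6 * (B ^ 2 * N ^ 2)) := by ring
        _ ≤ KB * 2 * (36864 * (x ^ 14 * z ^ 16)) :=
            mul_le_mul_of_nonneg_left hmain (by positivity)
        _ = KB * 73728 * (x ^ 14 * z ^ 16) := by ring
    have h3 : 0 ≤ KA * (36864 + 24 * c) * (x ^ 14 * z ^ 16) := by positivity
    calc A * N ^ 2 ≤ KB * 73728 * (x ^ 14 * z ^ 16) := h2
      _ ≤ KB * 73728 * (x ^ 14 * z ^ 16) + KA * (36864 + 24 * c) * (x ^ 14 * z ^ 16) := by linarith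
      _ = _ := by ring
  · have hB2 : B ^ 2 ≤ z ^ 6 := by
      calc B ^ 2 ≤ (z ^ 3) ^ 2 := pow_le_pow_left₀ hB0.le hcase.le 2
        _ = z ^ 6 := by ring
    have h1 : B ^ 4 * N ^ 2 ≤ 36864 * (x ^ 14 * z ^ 16) := by
      calc B ^ 4 * N ^ 2 = B ^ 2 * (B ^ 2 * N ^ 2) := by ring
        _ ≤ z ^ 6 * (B ^ 2 * N ^ 2) := mul_le_mul_of_nonneg_right hB2 (by positivity)
        _ ≤ _ := hmain
    have h2 : B * z ^ 8 * N ^ 2 ≤ 24 * c * (x ^ 14 * z ^ 16) := by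
      calc B * z ^ 8 * N ^ 2 = z ^ 8 * (N * (N * B)) := by ring
        _ ≤ z ^ 8 * ((c * x ^ 10) * (24 * x ^ 4 * z ^ 8)) := by
            refine mul_le_mul_of_nonneg_left ?_ (by positivity)
            exact mul_le_mul hN2 hN1 (by positivity) (by positivity)
        _ = 24 * c * (x ^ 14 * z ^ 16) := by ring
    have h3 : A * N ^ 2 ≤ KA * (36864 + 24 * c) * (x ^ 14 * z ^ 16) := by
      calc A * N ^ 2 ≤ (KA * (B ^ 4 + B * z ^ 8)) * N ^ 2 :=
            mul_le_mul_of_nonneg_right hA1 (by positivity)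
        _ = KA * (B ^ 4 * N ^ 2 + B * z ^ 8 * N ^ 2) := by ring
        _ ≤ KA * (36864 * (x ^ 14 * z ^ 16) + 24 * c * (x ^ 14 * z ^ 16)) :=
            mul_le_mul_of_nonneg_left (add_le_add h1 h2) hKA.le
        _ = _ := by ring
    have h4 : 0 ≤ KB * 73728 * (x ^ 14 * z ^ 16) := by positivity
    calc A * N ^ 2 ≤ KA * (36864 + 24 * c) * (x ^ 14 * z ^ 16) := h3
      _ ≤ KB * 73728 * (x ^ 14 * z ^ 16) + KA * (36864 + 24 * c) * (x ^ 14 * z ^ 16) := by linarith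
      _ = _ := by ring

/-- the nonzero pairs of norm at most `N` -/
def Rs (N : ℕ) : Set (ℤ × ℤ) := {q | 1 ≤ mx q.1 q.2 ∧ mx q.1 q.2 ≤ N}

theorem Rs_ncard (N : ℕ) : (Rs N).Finite ∧ ((Rs N).ncard : ℝ) ≤ 9 * (N : ℝ) ^ 2 := by
  have hsub : Rs N ⊆ ((Finset.Icc (-(N : ℤ)) N ×ˢ Finset.Icc (-(N : ℤ)) N : Finset (ℤ × ℤ)) :
      Set (ℤ × ℤ)) := by
    rintro ⟨r, s⟩ ⟨-, h⟩
    have h1 : r.natAbs ≤ N := (le_max_left _ _).trans h
    have h2 : s.natAbs ≤ N := (le_max_right _ _).trans h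
    rw [Finset.mem_coe, Finset.mem_product, Finset.mem_Icc, Finset.mem_Icc]
    constructor <;> constructor <;> simp only <;> omega
  have hfin := (Finset.finite_toSet
    (Finset.Icc (-(N : ℤ)) N ×ˢ Finset.Icc (-(N : ℤ)) N)).subset hsub
  refine ⟨hfin, ?_⟩
  rcases Nat.eq_zero_or_pos N with h0 | h0
  · have : Rs N = ∅ := by
      ext ⟨r, s⟩
      simp only [Rs, Set.mem_ofPred_eq, Set.mem_empty_iff_false, iff_false, not_and]
      omega
    rw [this, Set.ncard_empty, h0]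
    simp
  · have h1 := Set.ncard_le_ncard hsub (Finset.finite_toSet _)
    rw [Set.ncard_coe_finset, Finset.card_product, Int.card_Icc] at h1
    have h2 : ((N : ℤ) + 1 - -(N : ℤ)).toNat = 2 * N + 1 := by omega
    rw [h2] at h1
    have h3 : (2 * N + 1) * (2 * N + 1) ≤ 9 * N ^ 2 := by nlinarith
    exact_mod_cast h1.trans h3

/-- the forms with given minors -/
def Fs (H : ℕ) (p : Fin 3 → ℤ) (w : Fin 4 → ℤ) : Set (Fin 4 → ℤ) :=
  {F : Fin 4 → ℤ | (∀ i, |F i| ≤ (H : ℤ)) ∧ WW p F = w}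

/-- the block of the maps with given dyadic sizes -/
def Blk (H N Z B : ℕ) : Set ((Fin 4 → ℤ) × (Fin 4 → ℤ)) :=
  {f | ∃ t : (Fin 3 → ℤ) × (Fin 4 → ℤ), ∃ q : ℤ × ℤ, t ∈ PP Z B ∧ nrm t.1 ≤ 6 * H ∧
    q ∈ Rs N ∧ f.1 ∈ Fs H t.1 (q.1 • t.2) ∧ f.2 ∈ Fs H t.1 (q.2 • t.2)}

theorem blk_ncard (h2 : T_FC) {H N Z B : ℕ} (hH : 1 ≤ H) (hZ : 1 ≤ Z)
    (hPP : (PP Z B).Finite) :
    (Blk H N Z B).Finite ∧ ((Blk H N Z B).ncard : ℝ) ≤
      ((PP Z B).ncard * (9 * (N : ℝ) ^ 2)) * (18 * H / Z : ℝ) ^ 4 := by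
  set P' : Set ((Fin 3 → ℤ) × (Fin 4 → ℤ)) := {t | t ∈ PP Z B ∧ nrm t.1 ≤ 6 * H} with hP'
  have hsub : P' ⊆ PP Z B := fun t ht => ht.1
  have hP'fin : P'.Finite := hPP.subset hsub
  have hRs := Rs_ncard N
  have hI : (P' ×ˢ Rs N).Finite := hP'fin.prod hRs.1
  have hZR : (0 : ℝ) < Z := by exact_mod_cast hZ
  have key := ncard_biUnion_le hI (A := fun i : ((Fin 3 → ℤ) × (Fin 4 → ℤ)) × (ℤ × ℤ) =>
      (Fs H i.1.1 (i.2.1 • i.1.2)) ×ˢ (Fs H i.1.1 (i.2.2 • i.1.2)))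
      (c := (18 * H / Z : ℝ) ^ 4) (S := Blk H N Z B) ?_ ?_ ?_
  · refine ⟨key.1, key.2.trans ?_⟩
    refine mul_le_mul_of_nonneg_right ?_ (by positivity)
    rw [Set.ncard_prod]
    push_cast
    refine mul_le_mul ?_ hRs.2 (by positivity) (by positivity)
    exact_mod_cast Set.ncard_le_ncard hsub hPP
  · rintro ⟨t, q⟩ ⟨⟨ht, ht6⟩, hq⟩
    have h1 : 1 ≤ nrm t.1 := hZ.trans ht.2.2.2.1
    exact (h2 H t.1 _ hH ht.1 h1 ht6).1.prod (h2 H t.1 _ hH ht.1 h1 ht6).1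
  · rintro ⟨t, q⟩ ⟨⟨ht, ht6⟩, hq⟩
    have h1 : 1 ≤ nrm t.1 := hZ.trans ht.2.2.2.1
    have e1 := (h2 H t.1 (q.1 • t.2) hH ht.1 h1 ht6).2
    have e2 := (h2 H t.1 (q.2 • t.2) hH ht.1 h1 ht6).2
    have e3 : (18 * H / nrm t.1 : ℝ) ^ 2 ≤ (18 * H / Z : ℝ) ^ 2 := by
      refine pow_le_pow_left₀ (by positivity) ?_ 2
      refine div_le_div_of_nonneg_left (by positivity) hZR ?_
      exact_mod_cast ht.2.2.2.1
    show ((Fs H t.1 (q.1 • t.2) ×ˢ Fs H t.1 (q.2 • t.2)).ncard : ℝ) ≤ _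
    rw [Set.ncard_prod]
    push_cast
    calc ((Fs H t.1 (q.1 • t.2)).ncard : ℝ) * (Fs H t.1 (q.2 • t.2)).ncard
        ≤ (18 * H / Z : ℝ) ^ 2 * (18 * H / Z : ℝ) ^ 2 :=
          mul_le_mul (e1.trans e3) (e2.trans e3) (by positivity) (by positivity)
      _ = (18 * H / Z : ℝ) ^ 4 := by ring
  · rintro f ⟨t, q, ht, ht6, hq, hf1, hf2⟩
    exact ⟨(t, q), ⟨⟨ht, ht6⟩, hq⟩, hf1, hf2⟩

theorem log_bound {n : ℕ} (hn : 1 ≤ n) : (Nat.log 2 n : ℝ) ≤ 2 * Real.log n := by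
  have h1 : 2 ^ Nat.log 2 n ≤ n := Nat.pow_log_le_self 2 (by omega)
  have h2 : ((2 : ℝ) ^ Nat.log 2 n) ≤ n := by exact_mod_cast h1
  have h3 := Real.log_le_log (by positivity) h2
  rw [Real.log_pow] at h3
  have h4 : (1 : ℝ) / 2 ≤ Real.log 2 := by
    have := Real.log_two_gt_d9
    linarith
  have h5 : (0 : ℝ) ≤ Nat.log 2 n := Nat.cast_nonneg _
  nlinarith

end CASE3_

open CASE3_ in
theorem p_CASE3 (h1 : T_MIN) (h2 : T_FC) (h3 : T_PA) (h4 : T_PB) : T_CASE3 := by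
  intro C
  obtain ⟨KA, hKA, hPA⟩ := h3
  obtain ⟨KB, hKB, hPB⟩ := h4
  set c : ℝ := Real.sqrt C with hc
  have hc0 : 0 ≤ c := Real.sqrt_nonneg _
  set K1 : ℝ := KB * 73728 + KA * (36864 + 24 * c) with hK1
  have hK10 : 0 < K1 := by positivity
  refine ⟨191565 * (9 * 18 ^ 4 * K1), fun H hH => ?_⟩
  have hHR : (1 : ℝ) ≤ H := by exact_mod_cast hH
  have hHR0 : (0 : ℝ) < H := by linarith
  -- fourth root of `H`
  set x : ℝ := (H : ℝ) ^ ((1 : ℝ) / 4) with hx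
  have hx0 : 0 < x := Real.rpow_pos_of_pos hHR0 _
  have hx1 : 1 ≤ x := Real.one_le_rpow hHR (by norm_num)
  have hx4 : x ^ 4 = H := by
    rw [hx, ← Real.rpow_natCast, ← Real.rpow_mul hHR0.le]
    norm_num
  have hx31 : (H : ℝ) ^ ((31 : ℝ) / 4) = x ^ 31 := by
    rw [hx, ← Real.rpow_natCast, ← Real.rpow_mul hHR0.le]
    norm_num
  set N : ℕ → ℕ → ℕ := fun Z B => min (24 * H * Z ^ 2 / B) (Nat.sqrt (C * H ^ 5)) with hN
  set I : Set (ℕ × ℕ) := ((Finset.range (Nat.log 2 (6 * H) + 1) ×ˢ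
    Finset.range (Nat.log 2 (108 * H ^ 2) + 1) : Finset (ℕ × ℕ)) : Set (ℕ × ℕ)) with hI
  have hblk : ∀ i ∈ I, (Blk H (N (2 ^ i.1) (2 ^ i.2)) (2 ^ i.1) (2 ^ i.2)).Finite ∧
      ((Blk H (N (2 ^ i.1) (2 ^ i.2)) (2 ^ i.1) (2 ^ i.2)).ncard : ℝ) ≤
        9 * 18 ^ 4 * K1 * x ^ 30 := by
    rintro ⟨k, l⟩ hkl
    rw [hI, Finset.mem_coe, Finset.mem_product, Finset.mem_range, Finset.mem_range] at hkl
    simp only at hkl ⊢
    obtain ⟨Z, hZdef⟩ : ∃ Z, Z = 2 ^ k := ⟨_, rfl⟩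
    obtain ⟨B, hBdef⟩ : ∃ B, B = 2 ^ l := ⟨_, rfl⟩
    rw [← hZdef, ← hBdef]
    have hZ1 : 1 ≤ Z := by rw [hZdef]; exact Nat.one_le_two_pow
    have hB1 : 1 ≤ B := by rw [hBdef]; exact Nat.one_le_two_pow
    have hZ6 : Z ≤ 6 * H := by
      rw [hZdef]
      exact Nat.pow_le_of_le_log (by omega) (by omega)
    have hPP := (hPA Z B hZ1 hB1).1
    obtain ⟨b1, b2⟩ := blk_ncard h2 (N := N Z B) hH hZ1 hPP
    refine ⟨b1, b2.trans ?_⟩
    have hZR : (1 : ℝ) ≤ Z := by exact_mod_cast hZ1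
    have hZR0 : (0 : ℝ) < Z := by linarith
    have hBR : (1 : ℝ) ≤ B := by exact_mod_cast hB1
    set z : ℝ := (Z : ℝ) ^ ((1 : ℝ) / 4) with hz
    have hz0 : 0 < z := Real.rpow_pos_of_pos hZR0 _
    have hz1 : 1 ≤ z := Real.one_le_rpow hZR (by norm_num)
    have hz4 : z ^ 4 = Z := by
      rw [hz, ← Real.rpow_natCast, ← Real.rpow_mul hZR0.le]
      norm_num
    have hz9 : (Z : ℝ) ^ ((9 : ℝ) / 4) = z ^ 9 := by
      rw [hz, ← Real.rpow_natCast, ← Real.rpow_mul hZR0.le]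
      norm_num
    have hzx : z ≤ 2 * x := by
      refine le_of_pow_le_pow_left₀ (n := 4) (by norm_num) (by positivity) ?_
      rw [hz4, mul_pow, hx4]
      have : (Z : ℝ) ≤ 6 * H := by exact_mod_cast hZ6
      linarith
    have hNB : (N Z B : ℝ) * B ≤ 24 * x ^ 4 * z ^ 8 := by
      have e1 : N Z B * B ≤ 24 * H * Z ^ 2 :=
        (Nat.mul_le_mul_right B (min_le_left _ _)).trans (Nat.div_mul_le_self _ _)
      have e2 : (N Z B : ℝ) * B ≤ 24 * H * (Z : ℝ) ^ 2 := by exact_mod_cast e1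
      rw [← hx4, ← hz4] at e2
      calc _ ≤ _ := e2
        _ = 24 * x ^ 4 * z ^ 8 := by ring
    have hNC : (N Z B : ℝ) ≤ c * x ^ 10 := by
      have e1 : N Z B ≤ Nat.sqrt (C * H ^ 5) := min_le_right _ _
      have e2 : N Z B ^ 2 ≤ C * H ^ 5 := Nat.le_sqrt'.1 e1
      have e3 : (N Z B : ℝ) ^ 2 ≤ C * (H : ℝ) ^ 5 := by exact_mod_cast e2
      refine le_of_pow_le_pow_left₀ (n := 2) (by norm_num) (by positivity) ?_
      calc (N Z B : ℝ) ^ 2 ≤ C * (H : ℝ) ^ 5 := e3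
        _ = (c * x ^ 10) ^ 2 := by
            rw [mul_pow, hc, Real.sq_sqrt (Nat.cast_nonneg C), ← hx4]
            ring
    have hA1 : ((PP Z B).ncard : ℝ) ≤ KA * ((B : ℝ) ^ 4 + B * z ^ 8) := by
      have := (hPA Z B hZ1 hB1).2
      rw [← hz4] at this
      calc _ ≤ _ := this
        _ = _ := by ring
    have hA2 : ((PP Z B).ncard : ℝ) ≤ KB * ((B : ℝ) * z ^ 9 + (B : ℝ) ^ 2 * z ^ 4) := by
      have := hPB Z B hZ1 hB1
      rw [hz9] at this
      rw [hz4]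
      exact this
    have key := block_ineq hx0 hz1 hzx (Nat.cast_nonneg (N Z B)) hBR hKA hKB hc0 hA1 hA2 hNB hNC
    have e4 : (18 * H / Z : ℝ) ^ 4 = 18 ^ 4 * x ^ 16 / z ^ 16 := by
      rw [← hx4, ← hz4, div_pow, mul_pow, ← pow_mul, ← pow_mul]
    rw [e4]
    calc ((PP Z B).ncard : ℝ) * (9 * (N Z B : ℝ) ^ 2) * (18 ^ 4 * x ^ 16 / z ^ 16)
        = (9 * 18 ^ 4 * x ^ 16 / z ^ 16) * ((PP Z B).ncard * (N Z B : ℝ) ^ 2) := by ring
      _ ≤ (9 * 18 ^ 4 * x ^ 16 / z ^ 16) * (K1 * (x ^ 14 * z ^ 16)) :=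
          mul_le_mul_of_nonneg_left key (by positivity)
      _ = 9 * 18 ^ 4 * K1 * x ^ 30 := by
          field_simp
  obtain ⟨f1, f2⟩ := ncard_biUnion_le (Finset.finite_toSet _) (I := I)
    (A := fun i => Blk H (N (2 ^ i.1) (2 ^ i.2)) (2 ^ i.1) (2 ^ i.2))
    (fun i hi => (hblk i hi).1) (fun i hi => (hblk i hi).2) (S := Bad3 H C) (by
      intro f hf
      obtain ⟨p, M, r, s, g1, g2, g3, g4, g5, g6, g7, g8, g9, g10⟩ := h1 H C hH f hf
      have hM1 : nrm M ≠ 0 := by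
        intro h0
        apply g3
        funext i
        have h5 : (M i).natAbs ≤ nrm M :=
          Finset.le_sup (f := fun i => (M i).natAbs) (Finset.mem_univ i)
        have : (M i).natAbs = 0 := by omega
        simpa using this
      have hZ1 := Nat.pow_log_le_self 2 (x := nrm p) (by omega)
      have hZ2 := Nat.lt_pow_succ_log_self (b := 2) (by norm_num) (nrm p)
      have hB1 := Nat.pow_log_le_self 2 hM1
      have hB2 := Nat.lt_pow_succ_log_self (b := 2) (by norm_num) (nrm M)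
      rw [pow_succ] at hZ2 hB2
      have hM108 : nrm M ≤ 108 * H ^ 2 := by
        have e1 : nrm M * (2 * H) ≤ 6 * H * nrm p ^ 2 :=
          (Nat.mul_le_mul_left _ g8.le).trans g10
        have e2 : nrm p ^ 2 ≤ (6 * H) ^ 2 := Nat.pow_le_pow_left g7 2
        have e3 : nrm M * (2 * H) ≤ (108 * H ^ 2) * (2 * H) := by
          calc nrm M * (2 * H) ≤ 6 * H * nrm p ^ 2 := e1
            _ ≤ 6 * H * (6 * H) ^ 2 := Nat.mul_le_mul_left _ e2
            _ = (108 * H ^ 2) * (2 * H) := by ring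
        exact Nat.le_of_mul_le_mul_right e3 (by omega)
      refine ⟨(Nat.log 2 (nrm p), Nat.log 2 (nrm M)), ?_, (p, M), (r, s), ?_, g7, ?_, ?_, ?_⟩
      · rw [hI, Finset.mem_coe, Finset.mem_product, Finset.mem_range, Finset.mem_range]
        constructor
        · exact Nat.lt_succ_of_le (Nat.log_mono_right (b := 2) g7)
        · exact Nat.lt_succ_of_le (Nat.log_mono_right (b := 2) hM108)
      · exact ⟨g1, g2, g3, hZ1, by simp only; omega, hB1, by simp only; omega⟩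
      · refine ⟨by simp only; omega, le_min ?_ (Nat.le_sqrt'.2 g9)⟩
        rw [Nat.le_div_iff_mul_le (by positivity)]
        simp only
        calc mx r s * 2 ^ Nat.log 2 (nrm M) ≤ mx r s * nrm M := Nat.mul_le_mul_left _ hB1
          _ = nrm M * mx r s := by ring
          _ ≤ 6 * H * nrm p ^ 2 := g10
          _ ≤ 6 * H * (2 * 2 ^ Nat.log 2 (nrm p)) ^ 2 := by
              refine Nat.mul_le_mul_left _ (Nat.pow_le_pow_left ?_ 2)
              omega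
          _ = 24 * H * (2 ^ Nat.log 2 (nrm p)) ^ 2 := by ring
      · exact ⟨hf.1.1, g4⟩
      · exact ⟨hf.1.2.1, g5⟩)
  refine ⟨f1, f2.trans ?_⟩
  -- the number of blocks
  have hcardI : (I.ncard : ℝ) ≤ 191565 * x := by
    rw [hI, Set.ncard_coe_finset, Finset.card_product, Finset.card_range, Finset.card_range]
    push_cast
    have hlog0 : 0 ≤ Real.log H := Real.log_nonneg hHR
    have l1 := log_bound (n := 6 * H) (by omega)
    have l2 := log_bound (n := 108 * H ^ 2) (Nat.one_le_iff_ne_zero.2 (by positivity))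
    have m1 : Real.log ((6 * H : ℕ) : ℝ) ≤ 5 + Real.log H := by
      push_cast
      rw [Real.log_mul (by norm_num) hHR0.ne']
      have := Real.log_le_sub_one_of_pos (x := 6) (by norm_num)
      linarith
    have m2 : Real.log ((108 * H ^ 2 : ℕ) : ℝ) ≤ 107 + 2 * Real.log H := by
      push_cast
      rw [Real.log_mul (by norm_num) (by positivity), Real.log_pow]
      have := Real.log_le_sub_one_of_pos (x := 108) (by norm_num)
      push_cast
      linarith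
    -- `1 + log H ≤ 9 H^(1/8)`
    set y : ℝ := (H : ℝ) ^ ((1 : ℝ) / 8) with hy
    have hy1 : 1 ≤ y := Real.one_le_rpow hHR (by norm_num)
    have hy2 : y ^ 2 = x := by
      rw [hy, hx, ← Real.rpow_natCast, ← Real.rpow_mul hHR0.le]
      norm_num
    have hylog : 1 + Real.log H ≤ 9 * y := by
      have := Real.log_le_rpow_div hHR0.le (ε := (1 : ℝ) / 8) (by norm_num)
      rw [← hy] at this
      have : Real.log H ≤ 8 * y := by
        calc Real.log H ≤ y / (1 / 8) := this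
          _ = 8 * y := by ring
      linarith
    have n1 : (Nat.log 2 (6 * H) : ℝ) + 1 ≤ 11 * (1 + Real.log H) := by linarith
    have n2 : (Nat.log 2 (108 * H ^ 2) : ℝ) + 1 ≤ 215 * (1 + Real.log H) := by linarith
    have n3 : (1 + Real.log H) * (1 + Real.log H) ≤ (9 * y) * (9 * y) :=
      mul_le_mul hylog hylog (by linarith) (by linarith)
    calc ((Nat.log 2 (6 * H) : ℝ) + 1) * ((Nat.log 2 (108 * H ^ 2) : ℝ) + 1)
        ≤ (11 * (1 + Real.log H)) * (215 * (1 + Real.log H)) :=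
          mul_le_mul n1 n2 (by positivity) (by positivity)
      _ = 2365 * ((1 + Real.log H) * (1 + Real.log H)) := by ring
      _ ≤ 2365 * ((9 * y) * (9 * y)) := by linarith
      _ = 191565 * y ^ 2 := by ring
      _ = 191565 * x := by rw [hy2]
  rw [hx31]
  calc (I.ncard : ℝ) * (9 * 18 ^ 4 * K1 * x ^ 30) ≤ (191565 * x) * (9 * 18 ^ 4 * K1 * x ^ 30) :=
        mul_le_mul_of_nonneg_right hcardI (by positivity)
    _ = 191565 * (9 * 18 ^ 4 * K1) * x ^ 31 := by ring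

end Pool.Agent.HGR
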