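import Pool.Agent.HGR.Targets

set_option autoImplicit false

namespace Pool.Agent.HGR

open Finset
open scoped BigOperators

namespace CC_

open Classical in
/-- small solutions of an affine congruence -/
noncomputable def TT (m H z : ℕ) (A c : ℤ) : Finset ℤ :=
  (Icc (-(z : ℤ)) z).filter (fun x => ∃ e : ℤ, |e| ≤ H ∧ (m : ℤ) ∣ A * x - c - e)

theorem card_TT (m H z : ℕ) (A c : ℤ) : (TT m H z A c).card ≤ 1 + (nuS m H z A).card := by
  classical
  rcases (TT m H z A c).eq_empty_or_nonempty with h | ⟨x0, hx0⟩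
  · rw [h]; simp
  · have h1 : ((TT m H z A c).erase x0).card ≤ (nuS m H z A).card := by
      apply Finset.card_le_card_of_injOn (fun x => x - x0)
      · intro x hx
        have hx' := Finset.mem_erase.1 (Finset.mem_coe.1 hx)
        obtain ⟨hne, hx1⟩ := hx'
        unfold TT at hx1 hx0
        rw [Finset.mem_filter, Finset.mem_Icc] at hx1 hx0
        obtain ⟨⟨a1, a2⟩, e, he, hd⟩ := hx1
        obtain ⟨⟨b1, b2⟩, e0, he0, hd0⟩ := hx0
        unfold nuS
        rw [Finset.mem_coe, Finset.mem_filter, Finset.mem_Icc]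
        refine ⟨⟨by linarith, by linarith⟩, sub_ne_zero.2 hne, e - e0, ?_, ?_⟩
        · have := abs_sub e e0
          linarith
        · have h3 := dvd_sub hd hd0
          have h4 : A * x - c - e - (A * x0 - c - e0) = A * (x - x0) - (e - e0) := by ring
          rw [h4] at h3
          exact h3
      · intro x _ y _ hxy
        simpa using hxy
    rw [Finset.card_erase_of_mem hx0] at h1
    omega

open Classical in
/-- forms with a small product -/
noncomputable def NN (d m H z : ℕ) (A B : ℕ) : Finset (Fin d → ℤ) :=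
  (Fintype.piFinset (fun _ : Fin d => Icc (-(z : ℤ)) z)).filter (fun Ψ => Ψ ≠ 0 ∧
    ∀ j : Fin (d + 1), ∃ e : ℤ, |e| ≤ (H : ℤ) ∧ (m : ℤ) ∣ mulL (A : ℤ) (B : ℤ) Ψ j - e)

open Classical in
/-- forms with given first and last nonzero index -/
noncomputable def N2 (d m H z : ℕ) (A B : ℕ) (i : Fin d × Fin d) : Finset (Fin d → ℤ) :=
  (NN d m H z A B).filter (fun Ψ => Ψ i.1 ≠ 0 ∧ Ψ i.2 ≠ 0 ∧ (∀ j < i.1, Ψ j = 0) ∧
    ∀ j, i.2 < j → Ψ j = 0)

theorem NN_sub (d m H z A B : ℕ) :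
    NN d m H z A B ⊆ (univ : Finset (Fin d × Fin d)).biUnion (N2 d m H z A B) := by
  classical
  intro Ψ hΨ
  have hΨ' := hΨ
  unfold NN at hΨ'
  rw [Finset.mem_filter] at hΨ'
  obtain ⟨_, hne, _⟩ := hΨ'
  set s : Finset (Fin d) := univ.filter (fun j => Ψ j ≠ 0) with hs
  have hsn : s.Nonempty := by
    by_contra h
    rw [Finset.not_nonempty_iff_eq_empty] at h
    apply hne
    funext j
    by_contra hj
    have : j ∈ s := by rw [hs, Finset.mem_filter]; exact ⟨Finset.mem_univ _, hj⟩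
    rw [h] at this
    simp at this
  rw [Finset.mem_biUnion]
  refine ⟨(s.min' hsn, s.max' hsn), Finset.mem_univ _, ?_⟩
  unfold N2
  rw [Finset.mem_filter]
  refine ⟨hΨ, ?_, ?_, ?_, ?_⟩
  · exact (Finset.mem_filter.1 (s.min'_mem hsn)).2
  · exact (Finset.mem_filter.1 (s.max'_mem hsn)).2
  · intro j hj
    by_contra h
    have hjs : j ∈ s := by rw [hs, Finset.mem_filter]; exact ⟨Finset.mem_univ _, h⟩
    exact absurd (s.min'_le j hjs) (not_le.2 hj)
  · intro j hj
    by_contra h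
    have hjs : j ∈ s := by rw [hs, Finset.mem_filter]; exact ⟨Finset.mem_univ _, h⟩
    exact absurd (s.le_max' j hjs) (not_le.2 hj)

theorem co_of_lt {d : ℕ} (Ψ : Fin d → ℤ) {j : ℕ} (h : j < d) : co Ψ j = Ψ ⟨j, h⟩ := by
  unfold co
  rw [dif_pos h]

theorem co_of_ge {d : ℕ} (Ψ : Fin d → ℤ) {j : ℕ} (h : d ≤ j) : co Ψ j = 0 := by
  unfold co
  rw [dif_neg (by omega)]

theorem co_abs {d z : ℕ} (Ψ : Fin d → ℤ) (h : ∀ j, -(z : ℤ) ≤ Ψ j ∧ Ψ j ≤ z) (j : ℕ) :
    -(z : ℤ) ≤ co Ψ j ∧ co Ψ j ≤ z := by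
  by_cases hj : j < d
  · rw [co_of_lt Ψ hj]; exact h _
  · rw [co_of_ge Ψ (by omega)]; constructor <;> simp

/-- the coefficient before `i` -/
def pr {d : ℕ} (Ψ : Fin d → ℤ) (i : ℕ) : ℤ := if i = 0 then 0 else co Ψ (i - 1)

/-- the target of the injection -/
noncomputable def TG (d m H z : ℕ) (A B : ℕ) (i : Fin d × Fin d) :
    Finset ((Σ _ : ℤ, ℤ) × (Σ _ : ℤ, ℤ) ×
      ({j : Fin d // (i.1 : ℕ) + 1 < j ∧ (j : ℕ) + 1 < i.2} → ℤ)) :=
  ((nuS m H z (A : ℤ)).sigma (fun y => TT m H z (A : ℤ) ((B : ℤ) * y))) ×ˢ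
    (((nuS m H z (B : ℤ)).sigma (fun y => TT m H z (B : ℤ) ((A : ℤ) * y))) ×ˢ
      Fintype.piFinset (fun _ => Icc (-(z : ℤ)) z))

theorem card_sub (d : ℕ) (hd : 4 ≤ d) (i : Fin d × Fin d) :
    Fintype.card {j : Fin d // (i.1 : ℕ) + 1 < j ∧ (j : ℕ) + 1 < i.2} ≤ d - 4 := by
  classical
  have : Fintype.card {j : Fin d // (i.1 : ℕ) + 1 < j ∧ (j : ℕ) + 1 < i.2} ≤
      (Finset.Ioo ((i.1 : ℕ) + 1) ((i.2 : ℕ) - 1)).card := by
    rw [← Fintype.card_coe]
    refine Fintype.card_le_of_injective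
      (fun j => ⟨((j.1 : Fin d) : ℕ), by
        have := j.2
        rw [Finset.mem_Ioo]
        omega⟩) ?_
    intro j j' h
    simp only [Subtype.mk.injEq] at h
    exact Subtype.ext (Fin.ext h)
  refine this.trans ?_
  rw [Nat.card_Ioo]
  have h2 := i.2.2
  omega

theorem card_TG (d m H z : ℕ) (hd : 4 ≤ d) (hz : 1 ≤ z) (A B : ℕ) (i : Fin d × Fin d) :
    (TG d m H z A B i).card ≤ 4 * (3 * z) ^ (d - 4) *
      ((nuS m H z (A : ℤ)).card ^ 2 * (nuS m H z (B : ℤ)).card ^ 2) := by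
  classical
  unfold TG
  rw [Finset.card_product, Finset.card_product, Finset.card_sigma, Finset.card_sigma,
    Fintype.card_piFinset]
  set v := (nuS m H z (A : ℤ)).card with hv
  set w := (nuS m H z (B : ℤ)).card with hw
  have h1 : ∑ y ∈ nuS m H z (A : ℤ), (TT m H z (A : ℤ) ((B : ℤ) * y)).card ≤ 2 * v ^ 2 := by
    calc ∑ y ∈ nuS m H z (A : ℤ), (TT m H z (A : ℤ) ((B : ℤ) * y)).card
        ≤ ∑ _y ∈ nuS m H z (A : ℤ), (1 + v) := Finset.sum_le_sum (fun y _ => card_TT _ _ _ _ _)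
      _ = v * (1 + v) := by rw [Finset.sum_const, smul_eq_mul]
      _ ≤ 2 * v ^ 2 := by nlinarith [Nat.le_mul_self v]
  have h2 : ∑ y ∈ nuS m H z (B : ℤ), (TT m H z (B : ℤ) ((A : ℤ) * y)).card ≤ 2 * w ^ 2 := by
    calc ∑ y ∈ nuS m H z (B : ℤ), (TT m H z (B : ℤ) ((A : ℤ) * y)).card
        ≤ ∑ _y ∈ nuS m H z (B : ℤ), (1 + w) := Finset.sum_le_sum (fun y _ => card_TT _ _ _ _ _)
      _ = w * (1 + w) := by rw [Finset.sum_const, smul_eq_mul]
      _ ≤ 2 * w ^ 2 := by nlinarith [Nat.le_mul_self w]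
  have h3 : ∏ _j : {j : Fin d // (i.1 : ℕ) + 1 < j ∧ (j : ℕ) + 1 < i.2},
      (Icc (-(z : ℤ)) z).card ≤ (3 * z) ^ (d - 4) := by
    rw [Finset.prod_const, Finset.card_univ]
    have hc : (Icc (-(z : ℤ)) z).card ≤ 3 * z := by
      rw [Int.card_Icc]
      omega
    calc (Icc (-(z : ℤ)) z).card ^ Fintype.card {j : Fin d // (i.1 : ℕ) + 1 < j ∧ (j : ℕ) + 1 < i.2}
        ≤ (3 * z) ^ Fintype.card {j : Fin d // (i.1 : ℕ) + 1 < j ∧ (j : ℕ) + 1 < i.2} :=
          Nat.pow_le_pow_left hc _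
      _ ≤ (3 * z) ^ (d - 4) := Nat.pow_le_pow_right (by omega) (card_sub d hd i)
  calc _ ≤ (2 * v ^ 2) * ((2 * w ^ 2) * (3 * z) ^ (d - 4)) :=
        Nat.mul_le_mul h1 (Nat.mul_le_mul h2 h3)
    _ = _ := by ring

theorem card_N2 (d m H z : ℕ) (hd : 4 ≤ d) (hz : 1 ≤ z) (A B : ℕ) (i : Fin d × Fin d) :
    (N2 d m H z A B i).card ≤ 4 * (3 * z) ^ (d - 4) *
      ((nuS m H z (A : ℤ)).card ^ 2 * (nuS m H z (B : ℤ)).card ^ 2) := by
  classical
  refine le_trans ?_ (card_TG d m H z hd hz A B i)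
  apply Finset.card_le_card_of_injOn
    (fun Ψ => (⟨Ψ i.1, co Ψ ((i.1 : ℕ) + 1)⟩, ⟨Ψ i.2, pr Ψ (i.2 : ℕ)⟩, fun j => Ψ j.1))
  · intro Ψ hΨ
    rw [Finset.mem_coe] at hΨ
    unfold N2 NN at hΨ
    rw [Finset.mem_filter, Finset.mem_filter, Fintype.mem_piFinset] at hΨ
    obtain ⟨⟨hbox, _, hrel⟩, h1, h2, h3, h4⟩ := hΨ
    simp only [Finset.mem_Icc] at hbox
    have hco := co_abs Ψ hbox
    unfold TG
    rw [Finset.mem_coe, Finset.mem_product, Finset.mem_product]
    refine ⟨?_, ?_, ?_⟩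
    · rw [Finset.mem_sigma]
      constructor
      · unfold nuS
        rw [Finset.mem_filter, Finset.mem_Icc]
        obtain ⟨e, he, hm⟩ := hrel ⟨(i.1 : ℕ), by omega⟩
        refine ⟨⟨by have := (hbox i.1).1; simp only; linarith,
          by have := (hbox i.1).2; simp only; linarith⟩, h1, -e, ?_, ?_⟩
        · rw [abs_neg]
          have : (0 : ℤ) ≤ H := by positivity
          linarith
        · unfold mulL at hm
          simp only at hm
          rw [co_of_lt Ψ i.1.2] at hm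
          have h5 : (if (i.1 : ℕ) = 0 then (0 : ℤ) else co Ψ ((i.1 : ℕ) - 1)) = 0 := by
            by_cases h0 : (i.1 : ℕ) = 0
            · rw [if_pos h0]
            · rw [if_neg h0, co_of_lt Ψ (by omega)]
              apply h3
              rw [Fin.lt_def]
              simp only
              omega
          rw [h5] at hm
          have h6 := (dvd_neg (α := ℤ)).2 hm
          have h7 : -((B : ℤ) * 0 - (A : ℤ) * Ψ ⟨(i.1 : ℕ), i.1.2⟩ - e) =
            (A : ℤ) * Ψ i.1 - -e := by simp only [Fin.eta]; ring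
          rw [h7] at h6
          exact h6
      · unfold TT
        rw [Finset.mem_filter, Finset.mem_Icc]
        refine ⟨hco _, ?_⟩
        obtain ⟨e, he, hm⟩ := hrel ⟨(i.1 : ℕ) + 1, by omega⟩
        refine ⟨-e, by rwa [abs_neg], ?_⟩
        unfold mulL at hm
        simp only at hm
        rw [if_neg (by omega), Nat.add_sub_cancel, co_of_lt Ψ i.1.2] at hm
        have h6 := (dvd_neg (α := ℤ)).2 hm
        have h7 : -((B : ℤ) * Ψ ⟨(i.1 : ℕ), i.1.2⟩ - (A : ℤ) * co Ψ ((i.1 : ℕ) + 1) - e) =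
            (A : ℤ) * co Ψ ((i.1 : ℕ) + 1) - (B : ℤ) * Ψ i.1 - -e := by
          simp only [Fin.eta]; ring
        rw [h7] at h6
        exact h6
    · rw [Finset.mem_sigma]
      constructor
      · unfold nuS
        rw [Finset.mem_filter, Finset.mem_Icc]
        obtain ⟨e, he, hm⟩ := hrel ⟨(i.2 : ℕ) + 1, by omega⟩
        refine ⟨⟨by have := (hbox i.2).1; simp only; linarith,
          by have := (hbox i.2).2; simp only; linarith⟩, h2, e, ?_, ?_⟩
        · have : (0 : ℤ) ≤ H := by positivity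
          linarith
        · unfold mulL at hm
          simp only at hm
          rw [if_neg (by omega), Nat.add_sub_cancel, co_of_lt Ψ i.2.2] at hm
          have h5 : co Ψ ((i.2 : ℕ) + 1) = 0 := by
            by_cases h0 : (i.2 : ℕ) + 1 < d
            · rw [co_of_lt Ψ h0]
              apply h4
              rw [Fin.lt_def]
              simp only
              omega
            · exact co_of_ge Ψ (by omega)
          rw [h5] at hm
          simp only [Fin.eta, mul_zero, sub_zero] at hm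
          exact hm
      · unfold TT
        rw [Finset.mem_filter, Finset.mem_Icc]
        constructor
        · show -(z : ℤ) ≤ pr Ψ (i.2 : ℕ) ∧ pr Ψ (i.2 : ℕ) ≤ z
          unfold pr
          by_cases h0 : (i.2 : ℕ) = 0
          · rw [if_pos h0]; constructor <;> simp
          · rw [if_neg h0]; exact hco _
        · obtain ⟨e, he, hm⟩ := hrel ⟨(i.2 : ℕ), by omega⟩
          refine ⟨e, he, ?_⟩
          unfold mulL at hm
          simp only at hm
          rw [co_of_lt Ψ i.2.2] at hm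
          exact hm
    · rw [Fintype.mem_piFinset]
      intro j
      rw [Finset.mem_Icc]
      exact hbox _
  · intro Ψ hΨ Φ hΦ h
    rw [Finset.mem_coe] at hΨ hΦ
    unfold N2 at hΨ hΦ
    rw [Finset.mem_filter] at hΨ hΦ
    obtain ⟨_, _, _, a3, a4⟩ := hΨ
    obtain ⟨_, _, _, b3, b4⟩ := hΦ
    simp only [Prod.mk.injEq, Sigma.mk.injEq, heq_eq_eq] at h
    obtain ⟨⟨e1, e2⟩, ⟨e3, e4⟩, e5⟩ := h
    funext j
    by_cases c1 : j < i.1
    · rw [a3 j c1, b3 j c1]
    by_cases c2 : i.2 < j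
    · rw [a4 j c2, b4 j c2]
    by_cases c3 : j = i.1
    · rw [c3]; exact e1
    by_cases c4 : j = i.2
    · rw [c4]; exact e3
    rw [Fin.lt_def] at c1 c2
    have c3' : (j : ℕ) ≠ i.1 := fun h => c3 (Fin.ext h)
    have c4' : (j : ℕ) ≠ i.2 := fun h => c4 (Fin.ext h)
    by_cases c5 : (j : ℕ) = (i.1 : ℕ) + 1
    · have hlt : (i.1 : ℕ) + 1 < d := by have := j.2; omega
      rw [co_of_lt Ψ hlt, co_of_lt Φ hlt] at e2
      have : j = ⟨(i.1 : ℕ) + 1, hlt⟩ := Fin.ext c5
      rw [this]; exact e2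
    by_cases c6 : (j : ℕ) + 1 = (i.2 : ℕ)
    · unfold pr at e4
      have hlt : (i.2 : ℕ) - 1 < d := by have := i.2.2; omega
      rw [if_neg (by omega), if_neg (by omega), co_of_lt Ψ hlt, co_of_lt Φ hlt] at e4
      have : j = ⟨(i.2 : ℕ) - 1, hlt⟩ := Fin.ext (by simp only; omega)
      rw [this]; exact e4
    have := congrFun e5 ⟨j, by omega, by omega⟩
    exact this

theorem card_NN (d m H z : ℕ) (hd : 4 ≤ d) (hz : 1 ≤ z) (A B : ℕ) :
    (NN d m H z A B).card ≤ d ^ 2 * (4 * (3 * z) ^ (d - 4) *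
      ((nuS m H z (A : ℤ)).card ^ 2 * (nuS m H z (B : ℤ)).card ^ 2)) := by
  classical
  calc (NN d m H z A B).card
      ≤ ((univ : Finset (Fin d × Fin d)).biUnion (N2 d m H z A B)).card :=
        Finset.card_le_card (NN_sub d m H z A B)
    _ ≤ ∑ i : Fin d × Fin d, (N2 d m H z A B i).card := Finset.card_biUnion_le
    _ ≤ ∑ _i : Fin d × Fin d, (4 * (3 * z) ^ (d - 4) *
      ((nuS m H z (A : ℤ)).card ^ 2 * (nuS m H z (B : ℤ)).card ^ 2)) :=
        Finset.sum_le_sum (fun i _ => card_N2 d m H z hd hz A B i)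
    _ = _ := by
        rw [Finset.sum_const, Finset.card_univ, Fintype.card_prod, Fintype.card_fin, smul_eq_mul]
        ring

end CC_

open CC_ in
theorem p_CC : T_CC := by
  classical
  intro d m H z hd hz
  set F : Finset (ℕ × ℕ × (Fin d → ℤ)) :=
    (range m ×ˢ (range m ×ˢ (Fintype.piFinset (fun _ : Fin d => Icc (-(z : ℤ)) z)))).filter
      (fun t => t.2.2 ∈ NN d m H z t.1 t.2.1) with hF
  have hsub : CC d m H z = (F : Set (ℕ × ℕ × (Fin d → ℤ))) := by
    ext t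
    rw [Finset.mem_coe, hF, Finset.mem_filter, Finset.mem_product, Finset.mem_product,
      Finset.mem_range, Finset.mem_range]
    unfold CC NN
    rw [Set.mem_ofPred_eq, Finset.mem_filter]
    simp only [Fintype.mem_piFinset, Finset.mem_Icc, ← abs_le]
    tauto
  have hcard : (CC d m H z).ncard = F.card := by rw [hsub, Set.ncard_coe_finset]
  refine ⟨by rw [hsub]; exact F.finite_toSet, ?_⟩
  have h1 : F.card ≤ ∑ A ∈ range m, ∑ B ∈ range m, d ^ 2 * (4 * (3 * z) ^ (d - 4) *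
      ((nuS m H z (A : ℤ)).card ^ 2 * (nuS m H z (B : ℤ)).card ^ 2)) := by
    rw [hF, Finset.card_filter, Finset.sum_product]
    apply Finset.sum_le_sum
    intro A _
    rw [Finset.sum_product]
    apply Finset.sum_le_sum
    intro B _
    rw [← Finset.card_filter]
    refine le_trans (Finset.card_le_card ?_) (card_NN d m H z hd hz A B)
    intro Ψ hΨ
    exact (Finset.mem_filter.1 hΨ).2
  have h2 : ∑ A ∈ range m, ∑ B ∈ range m, d ^ 2 * (4 * (3 * z) ^ (d - 4) *
      ((nuS m H z (A : ℤ)).card ^ 2 * (nuS m H z (B : ℤ)).card ^ 2)) =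
      4 * d ^ 2 * (3 * z) ^ (d - 4) * (∑ A ∈ range m, (nuS m H z (A : ℤ)).card ^ 2) ^ 2 := by
    rw [sq (∑ A ∈ range m, (nuS m H z (A : ℤ)).card ^ 2), Finset.sum_mul_sum, Finset.mul_sum]
    apply Finset.sum_congr rfl
    intro A _
    rw [Finset.mul_sum]
    apply Finset.sum_congr rfl
    intro B _
    ring
  rw [hcard]
  have h3 : F.card ≤ 4 * d ^ 2 * (3 * z) ^ (d - 4) *
      (∑ A ∈ range m, (nuS m H z (A : ℤ)).card ^ 2) ^ 2 := h1.trans_eq h2
  exact_mod_cast h3

end Pool.Agent.HGR
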