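import Pool.Agent.HGR.Targets

set_option autoImplicit false

/-!
# FACT: a form that vanishes at a primitive integer point is divisible by the linear form
-/

namespace Pool.Agent.HGR

open Finset

namespace FACT_

/-- existence of the quotient, for sequences -/
theorem exist (a b : ℤ) (hab : IsCoprime a b) (d : ℕ) : ∀ A : ℕ → ℤ,
    ∑ i ∈ range (d + 1), A i * a ^ i * b ^ (d - i) = 0 →
    ∃ Ψ : ℕ → ℤ, (∀ j, d ≤ j → Ψ j = 0) ∧ A 0 = - a * Ψ 0 ∧
      ∀ j, j < d → A (j + 1) = b * Ψ j - a * Ψ (j + 1) := by
  induction d with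
  | zero =>
    intro A h
    refine ⟨fun _ => 0, fun _ _ => rfl, ?_, ?_⟩
    · simpa using h
    · intro j hj
      omega
  | succ d ih =>
    intro A h
    by_cases ha : a = 0
    · subst ha
      have hb : IsUnit b := isCoprime_zero_left.mp hab
      have hbb : b * b = 1 := by
        rcases Int.isUnit_iff.mp hb with h1 | h1 <;> rw [h1] <;> norm_num
      have hA0 : A 0 = 0 := by
        rw [sum_range_succ'] at h
        simp only [pow_zero, mul_one] at h
        have h2 : ∑ k ∈ range (d + 1), A (k + 1) * (0 : ℤ) ^ (k + 1) * b ^ (d + 1 - (k + 1)) = 0 :=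
          sum_eq_zero fun k _ => by simp
        rw [h2, zero_add] at h
        have hb' : b ^ (d + 1 - 0) ≠ 0 := pow_ne_zero _ hb.ne_zero
        exact (mul_eq_zero.mp h).resolve_right hb'
      refine ⟨fun j => if j < d + 1 then b * A (j + 1) else 0, ?_, ?_, ?_⟩
      · intro j hj
        have : ¬ j < d + 1 := by omega
        simp [this]
      · simp [hA0]
      · intro j hj
        simp only [hj, if_true]
        have : b * (b * A (j + 1)) = A (j + 1) := by rw [← mul_assoc, hbb, one_mul]
        rw [this]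
        ring
    · have hdiv : a ∣ A 0 * b ^ (d + 1) := by
        rw [sum_range_succ'] at h
        simp only [pow_zero, mul_one, Nat.sub_zero] at h
        have h2 : a ∣ ∑ k ∈ range (d + 1), A (k + 1) * a ^ (k + 1) * b ^ (d + 1 - (k + 1)) :=
          dvd_sum fun k _ => Dvd.intro (A (k + 1) * a ^ k * b ^ (d + 1 - (k + 1))) (by ring)
        have h3 : A 0 * b ^ (d + 1) =
            -∑ k ∈ range (d + 1), A (k + 1) * a ^ (k + 1) * b ^ (d + 1 - (k + 1)) := by
          linarith
        rw [h3]
        exact (dvd_neg).mpr h2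
      have hdiv' : a ∣ A 0 := (hab.pow_right).dvd_of_dvd_mul_right hdiv
      obtain ⟨t, ht⟩ := hdiv'
      obtain ⟨Ψ, hΨ0, hΨ1, hΨ2⟩ := ih (fun i => if i = 0 then A 1 + b * t else A (i + 1)) (by
        have key : a * ∑ i ∈ range (d + 1),
            (if i = 0 then A 1 + b * t else A (i + 1)) * a ^ i * b ^ (d - i) = 0 := by
          rw [sum_range_succ'] at h ⊢
          have e1 : ∀ k ∈ range (d + 1), A (k + 1) * a ^ (k + 1) * b ^ (d + 1 - (k + 1)) =
              A (k + 1) * a ^ (k + 1) * b ^ (d - k) := by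
            intro k _
            rw [Nat.add_sub_add_right]
          rw [sum_congr rfl e1, sum_range_succ'] at h
          have e2 : ∑ k ∈ range d, (if k + 1 = 0 then A 1 + b * t else A (k + 1 + 1)) * a ^ (k + 1) *
              b ^ (d - (k + 1)) = ∑ k ∈ range d, A (k + 1 + 1) * a ^ (k + 1) * b ^ (d - (k + 1)) :=
            sum_congr rfl fun k _ => by simp
          rw [e2, mul_add, mul_sum]
          have e3 : ∑ k ∈ range d, a * (A (k + 1 + 1) * a ^ (k + 1) * b ^ (d - (k + 1))) =
              ∑ k ∈ range d, A (k + 1 + 1) * a ^ (k + 1 + 1) * b ^ (d - (k + 1)) :=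
            sum_congr rfl fun k _ => by ring
          rw [e3]
          simp only [if_true, pow_zero, mul_one, Nat.sub_zero, zero_add, pow_one] at h ⊢
          rw [ht] at h
          have e4 : b ^ (d + 1) = b ^ d * b := pow_succ b d
          rw [e4] at h
          linear_combination h
        exact (mul_eq_zero.mp key).resolve_left ha)
      refine ⟨fun j => if j = 0 then -t else Ψ (j - 1), ?_, ?_, ?_⟩
      · intro j hj
        have h0 : j ≠ 0 := by omega
        simp only [h0, if_false]
        exact hΨ0 _ (by omega)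
      · simp only [if_true]
        rw [ht]
        ring
      · intro j hj
        rcases Nat.eq_zero_or_pos j with h0 | h0
        · subst h0
          simp only [if_true] at hΨ1
          simp only [if_true, zero_add, one_ne_zero, if_false, Nat.sub_self]
          linear_combination hΨ1
        · obtain ⟨k, rfl⟩ : ∃ k, j = k + 1 := ⟨j - 1, by omega⟩
          have := hΨ2 k (by omega)
          simp only [Nat.add_eq_zero_iff, one_ne_zero, and_false, if_false,
            Nat.add_sub_cancel] at this ⊢
          exact this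

/-- size of the quotient, `|b| ≤ |a|` -/
theorem size_left (a b : ℤ) (hba : |b| ≤ |a|) (d : ℕ) (A Ψ : ℕ → ℤ) (M : ℤ)
    (h0 : A 0 = - a * Ψ 0) (h1 : ∀ j, j < d → A (j + 1) = b * Ψ j - a * Ψ (j + 1))
    (hA : ∀ j, j ≤ d → |A j| ≤ M) : ∀ j, j ≤ d → |a| * |Ψ j| ≤ (j + 1) * M := by
  intro j
  induction j with
  | zero =>
    intro _
    have := hA 0 (Nat.zero_le _)
    rw [h0, abs_mul, abs_neg] at this
    simpa using this
  | succ j ih =>
    intro hj
    have ih' := ih (by omega)
    have e := h1 j (by omega)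
    have e' : a * Ψ (j + 1) = b * Ψ j - A (j + 1) := by rw [e]; ring
    have h2 : |a| * |Ψ (j + 1)| ≤ |b| * |Ψ j| + |A (j + 1)| := by
      rw [← abs_mul, e', ← abs_mul]
      exact abs_sub _ _
    have h3 : |b| * |Ψ j| ≤ |a| * |Ψ j| := mul_le_mul_of_nonneg_right hba (abs_nonneg _)
    have h4 := hA (j + 1) hj
    push_cast
    linarith

/-- size of the quotient, `|a| ≤ |b|` -/
theorem size_right (a b : ℤ) (hab : |a| ≤ |b|) (d : ℕ) (A Ψ : ℕ → ℤ) (M : ℤ)
    (hd : Ψ d = 0) (h1 : ∀ j, j < d → A (j + 1) = b * Ψ j - a * Ψ (j + 1))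
    (hA : ∀ j, j ≤ d → |A j| ≤ M) : ∀ k, k ≤ d → |b| * |Ψ (d - k)| ≤ k * M := by
  intro k
  induction k with
  | zero =>
    intro _
    simp [hd]
  | succ k ih =>
    intro hk
    have ih' := ih (by omega)
    have e := h1 (d - (k + 1)) (by omega)
    have hidx : d - (k + 1) + 1 = d - k := by omega
    rw [hidx] at e
    have e' : b * Ψ (d - (k + 1)) = A (d - k) + a * Ψ (d - k) := by rw [e]; ring
    have h2 : |b| * |Ψ (d - (k + 1))| ≤ |A (d - k)| + |a| * |Ψ (d - k)| := by
      rw [← abs_mul, e', ← abs_mul]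
      exact abs_add_le _ _
    have h3 : |a| * |Ψ (d - k)| ≤ |b| * |Ψ (d - k)| :=
      mul_le_mul_of_nonneg_right hab (abs_nonneg _)
    have h4 := hA (d - k) (by omega)
    push_cast
    linarith

end FACT_

/-- FACT: a form that vanishes at a primitive integer point is divisible by the linear form. -/
theorem p_FACT : T_FACT := by
  intro d A a b hab hval
  have hval' : ∑ i ∈ range (d + 1), co A i * a ^ i * b ^ (d - i) = 0 := by
    rw [← hval]
    unfold val
    rw [← Fin.sum_univ_eq_sum_range (fun i => co A i * a ^ i * b ^ (d - i)) (d + 1)]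
    refine sum_congr rfl fun i _ => ?_
    have hi : (i : ℕ) < d + 1 := i.2
    simp [co, hi]
  obtain ⟨Ψ, hΨ0, hΨ1, hΨ2⟩ := FACT_.exist a b hab d (co A) hval'
  have hco : ∀ j, co (fun i : Fin d => Ψ i) j = Ψ j := by
    intro j
    unfold co
    split_ifs with h
    · rfl
    · exact (hΨ0 j (by omega)).symm
  refine ⟨fun i => Ψ i, ?_, ?_⟩
  · intro j
    have hj : A j = co A (j : ℕ) := by
      have hi : (j : ℕ) < d + 1 := j.2
      simp [co, hi]
    rw [hj]
    unfold mulL
    rw [hco, hco]
    rcases Nat.eq_zero_or_pos (j : ℕ) with h0 | h0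
    · rw [h0, hΨ1]
      simp
    · have hne : (j : ℕ) ≠ 0 := by omega
      rw [if_neg hne]
      have := hΨ2 ((j : ℕ) - 1) (by have := j.2; omega)
      have hidx : (j : ℕ) - 1 + 1 = j := by omega
      rw [hidx] at this
      exact this
  · intro M hM j
    have hA : ∀ k, k ≤ d → |co A k| ≤ (M : ℤ) := by
      intro k hk
      have hk' : k < d + 1 := by omega
      have : co A k = A ⟨k, hk'⟩ := by simp [co, hk']
      rw [this]
      exact hM _
    have hM0 : (0 : ℤ) ≤ (M : ℤ) := Int.natCast_nonneg _
    rcases le_total |b| |a| with h | h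
    · have hmx : (mx a b : ℤ) = |a| := by
        unfold mx
        rw [Int.abs_eq_natAbs, Int.abs_eq_natAbs] at h
        have h' : b.natAbs ≤ a.natAbs := by exact_mod_cast h
        rw [max_eq_left h', Int.abs_eq_natAbs]
      rw [hmx]
      have h1 := FACT_.size_left a b h d (co A) Ψ M hΨ1 hΨ2 hA j (by have := j.2; omega)
      have h2 : ((j : ℕ) : ℤ) + 1 ≤ d := by
        have := j.2
        exact_mod_cast this
      exact h1.trans (mul_le_mul_of_nonneg_right h2 hM0)
    · have hmx : (mx a b : ℤ) = |b| := by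
        unfold mx
        rw [Int.abs_eq_natAbs, Int.abs_eq_natAbs] at h
        have h' : a.natAbs ≤ b.natAbs := by exact_mod_cast h
        rw [max_eq_right h', Int.abs_eq_natAbs]
      rw [hmx]
      have hjd := j.2
      have h1 := FACT_.size_right a b h d (co A) Ψ M (hΨ0 d le_rfl) hΨ2 hA (d - j) (by omega)
      have hidx : d - (d - (j : ℕ)) = j := by omega
      rw [hidx] at h1
      have h2 : ((d - (j : ℕ) : ℕ) : ℤ) ≤ d := by
        have : d - (j : ℕ) ≤ d := Nat.sub_le _ _
        exact_mod_cast this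
      exact h1.trans (mul_le_mul_of_nonneg_right h2 hM0)

end Pool.Agent.HGR
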