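import Pool.Agent.HGR.Targets

set_option autoImplicit false

/-!
# Height growth (MP_c076ed_nt): number of the cubic forms with given minors
-/

namespace Pool.Agent.HGR

open Finset

namespace FC_

/-- Descent: a rational combination of `X p`, `Y p` which is integral has integral
coefficients. -/
theorem descent {p : Fin 3 → ℤ} (hp : Prim p) {D0 D1 D2 D3 : ℤ} : ∀ (n : ℕ), 1 ≤ n →
    ∀ X Y : ℤ, (n : ℤ) * D0 = Y * p 0 → (n : ℤ) * D1 = X * p 0 + Y * p 1 →
    (n : ℤ) * D2 = X * p 1 + Y * p 2 → (n : ℤ) * D3 = X * p 2 →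
    ∃ x y : ℤ, D0 = y * p 0 ∧ D1 = x * p 0 + y * p 1 ∧ D2 = x * p 1 + y * p 2 ∧ D3 = x * p 2 := by
  intro n
  induction n using Nat.strong_induction_on with
  | _ n ih =>
    intro hn X Y h0 h1 h2 h3
    by_cases hn1 : n = 1
    · subst hn1
      refine ⟨X, Y, ?_, ?_, ?_, ?_⟩
      · simpa using h0
      · simpa using h1
      · simpa using h2
      · simpa using h3
    · obtain ⟨l, hl, k, rfl⟩ := Nat.exists_prime_and_dvd hn1
      have hlp : Prime (l : ℤ) := Nat.prime_iff_prime_int.1 hl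
      have hk : 1 ≤ k := by
        rcases Nat.eq_zero_or_pos k with h | h
        · subst h; simp at hn
        · exact h
      have hkl : k < l * k := by
        have := hl.two_le
        nlinarith
      have hl0 : (l : ℤ) ≠ 0 := hlp.ne_zero
      have hnotall : ¬ ((l : ℤ) ∣ p 0 ∧ (l : ℤ) ∣ p 1 ∧ (l : ℤ) ∣ p 2) := by
        rintro ⟨a, b, c⟩
        have := hp (l : ℤ) (by
          intro i
          fin_cases i
          · exact a
          · exact b
          · exact c)
        exact hlp.not_isUnit this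
      have e0 : (l : ℤ) ∣ Y * p 0 := by
        rw [← h0]; push_cast; exact ⟨k * D0, by ring⟩
      have e1 : (l : ℤ) ∣ X * p 0 + Y * p 1 := by
        rw [← h1]; push_cast; exact ⟨k * D1, by ring⟩
      have e2 : (l : ℤ) ∣ X * p 1 + Y * p 2 := by
        rw [← h2]; push_cast; exact ⟨k * D2, by ring⟩
      have e3 : (l : ℤ) ∣ X * p 2 := by
        rw [← h3]; push_cast; exact ⟨k * D3, by ring⟩
      have hX : (l : ℤ) ∣ X := by
        by_contra hX
        have a2 : (l : ℤ) ∣ p 2 := (hlp.dvd_or_dvd e3).resolve_left hX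
        have a1 : (l : ℤ) ∣ p 1 := by
          have : (l : ℤ) ∣ X * p 1 := (Int.dvd_add_left (a2.mul_left Y)).1 e2
          exact (hlp.dvd_or_dvd this).resolve_left hX
        have a0 : (l : ℤ) ∣ p 0 := by
          have : (l : ℤ) ∣ X * p 0 := (Int.dvd_add_left (a1.mul_left Y)).1 e1
          exact (hlp.dvd_or_dvd this).resolve_left hX
        exact hnotall ⟨a0, a1, a2⟩
      have hY : (l : ℤ) ∣ Y := by
        by_contra hY
        have a0 : (l : ℤ) ∣ p 0 := (hlp.dvd_or_dvd e0).resolve_left hY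
        have a1 : (l : ℤ) ∣ p 1 := by
          have : (l : ℤ) ∣ Y * p 1 := (Int.dvd_add_right (hX.mul_right (p 0))).1 e1
          exact (hlp.dvd_or_dvd this).resolve_left hY
        have a2 : (l : ℤ) ∣ p 2 := by
          have : (l : ℤ) ∣ Y * p 2 := (Int.dvd_add_right (hX.mul_right (p 1))).1 e2
          exact (hlp.dvd_or_dvd this).resolve_left hY
        exact hnotall ⟨a0, a1, a2⟩
      obtain ⟨X', rfl⟩ := hX
      obtain ⟨Y', rfl⟩ := hY
      refine ih k hkl hk X' Y' ?_ ?_ ?_ ?_
      · apply mul_left_cancel₀ hl0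
        push_cast at h0
        linarith
      · apply mul_left_cancel₀ hl0
        push_cast at h1
        linarith
      · apply mul_left_cancel₀ hl0
        push_cast at h2
        linarith
      · apply mul_left_cancel₀ hl0
        push_cast at h3
        linarith

/-- The kernel of the minors. -/
theorem ker {p : Fin 3 → ℤ} (hp : Prim p) (h1 : 1 ≤ nrm p) {D : Fin 4 → ℤ}
    (hD : WW p D = 0) : ∃ x y : ℤ, D 0 = y * p 0 ∧ D 1 = x * p 0 + y * p 1 ∧
      D 2 = x * p 1 + y * p 2 ∧ D 3 = x * p 2 := by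
  have e0 : -(D 1 * p 2 ^ 2) + D 2 * (p 1 * p 2) + D 3 * (p 0 * p 2 - p 1 ^ 2) = 0 :=
    congrFun hD 0
  have e1 : D 0 * p 2 ^ 2 - D 2 * (p 0 * p 2) + D 3 * (p 0 * p 1) = 0 := congrFun hD 1
  have e2 : -(D 0 * (p 1 * p 2)) + D 1 * (p 0 * p 2) - D 3 * p 0 ^ 2 = 0 := congrFun hD 2
  have e3 : -(D 0 * (p 0 * p 2 - p 1 ^ 2)) - D 1 * (p 0 * p 1) + D 2 * p 0 ^ 2 = 0 :=
    congrFun hD 3
  by_cases hp0 : p 0 = 0
  · by_cases hp2 : p 2 = 0
    · have hp1 : p 1 ≠ 0 := by
        intro h
        have : nrm p = 0 := by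
          unfold nrm
          rw [← Nat.le_zero, Finset.sup_le_iff]
          intro i _
          fin_cases i
          · simp [hp0]
          · simp [h]
          · simp [hp2]
        omega
      rw [hp0, hp2] at e0 e3
      have d3 : D 3 = 0 := by
        have : D 3 * p 1 ^ 2 = 0 := by linarith
        rcases mul_eq_zero.1 this with h | h
        · exact h
        · exact absurd (pow_eq_zero_iff (two_ne_zero)|>.1 h) hp1
      have d0 : D 0 = 0 := by
        have : D 0 * p 1 ^ 2 = 0 := by linarith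
        rcases mul_eq_zero.1 this with h | h
        · exact h
        · exact absurd (pow_eq_zero_iff (two_ne_zero)|>.1 h) hp1
      rcases lt_or_gt_of_ne hp1 with hneg | hpos
      · refine descent hp (p 1).natAbs (by omega) (-(D 2)) (-(D 1)) ?_ ?_ ?_ ?_
        · rw [hp0, d0]; ring
        · rw [hp0]
          have : ((p 1).natAbs : ℤ) = - p 1 := by omega
          rw [this]; ring
        · rw [hp2]
          have : ((p 1).natAbs : ℤ) = - p 1 := by omega
          rw [this]; ring
        · rw [hp2, d3]; ring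
      · refine descent hp (p 1).natAbs (by omega) (D 2) (D 1) ?_ ?_ ?_ ?_
        · rw [hp0, d0]; ring
        · rw [hp0]
          have : ((p 1).natAbs : ℤ) = p 1 := by omega
          rw [this]; ring
        · rw [hp2]
          have : ((p 1).natAbs : ℤ) = p 1 := by omega
          rw [this]; ring
        · rw [hp2, d3]; ring
    · have hc : (((p 2 ^ 2).natAbs : ℕ) : ℤ) = p 2 ^ 2 := by
        rw [Int.natCast_natAbs, abs_of_nonneg (sq_nonneg _)]
      have hpos : 1 ≤ (p 2 ^ 2).natAbs := by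
        have : 0 < p 2 ^ 2 := by positivity
        omega
      refine descent hp (p 2 ^ 2).natAbs hpos (D 3 * p 2) (D 2 * p 2 - D 3 * p 1) ?_ ?_ ?_ ?_
      · rw [hc]; linarith
      · rw [hc]; linarith
      · rw [hc]; ring
      · rw [hc]; ring
  · have hc : (((p 0 ^ 2).natAbs : ℕ) : ℤ) = p 0 ^ 2 := by
      rw [Int.natCast_natAbs, abs_of_nonneg (sq_nonneg _)]
    have hpos : 1 ≤ (p 0 ^ 2).natAbs := by
      have : 0 < p 0 ^ 2 := by positivity
      omega
    refine descent hp (p 0 ^ 2).natAbs hpos (D 1 * p 0 - D 0 * p 1) (D 0 * p 0) ?_ ?_ ?_ ?_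
    · rw [hc]; ring
    · rw [hc]; ring
    · rw [hc]; linarith
    · rw [hc]; linarith

/-- Size of the coefficients. -/
theorem size {x y p0 p1 p2 H z : ℤ} (hz : 0 < z) (hH : 0 ≤ H) (hp0 : |p0| ≤ z) (hp1 : |p1| ≤ z)
    (hp2 : |p2| ≤ z) (hz' : |p0| = z ∨ |p1| = z ∨ |p2| = z) (h0 : |y * p0| ≤ 2 * H)
    (h1 : |x * p0 + y * p1| ≤ 2 * H) (h2 : |x * p1 + y * p2| ≤ 2 * H) (h3 : |x * p2| ≤ 2 * H) :
    |x| * z ≤ 6 * H ∧ |y| * z ≤ 6 * H := by
  have t1 : |x * p0| ≤ 2 * H + |y * p1| := by
    have := abs_sub (x * p0 + y * p1) (y * p1)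
    rw [add_sub_cancel_right] at this
    linarith
  have t2 : |y * p1| ≤ 2 * H + |x * p0| := by
    have := abs_sub (x * p0 + y * p1) (x * p0)
    rw [add_sub_cancel_left] at this
    linarith
  have t3 : |x * p1| ≤ 2 * H + |y * p2| := by
    have := abs_sub (x * p1 + y * p2) (y * p2)
    rw [add_sub_cancel_right] at this
    linarith
  have t4 : |y * p2| ≤ 2 * H + |x * p1| := by
    have := abs_sub (x * p1 + y * p2) (x * p1)
    rw [add_sub_cancel_left] at this
    linarith
  simp only [abs_mul] at h0 h3 t1 t2 t3 t4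
  have x0 := abs_nonneg x
  have y0 := abs_nonneg y
  have q0 := abs_nonneg p0
  have q1 := abs_nonneg p1
  have q2 := abs_nonneg p2
  rcases hz' with h | h | h
  · rw [h] at h0 t1
    have : |y| * |p1| ≤ |y| * z := mul_le_mul_of_nonneg_left hp1 y0
    constructor <;> linarith
  · rw [h] at t2 t3
    have a1 : |x| * |p0| ≤ 4 * H := by
      have : (|x| * |p0|) * z ≤ (4 * H) * z := by
        calc (|x| * |p0|) * z = |p0| * (|x| * z) := by ring
          _ ≤ |p0| * (2 * H + |y| * |p2|) := mul_le_mul_of_nonneg_left t3 q0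
          _ = 2 * H * |p0| + (|y| * |p0|) * |p2| := by ring
          _ ≤ 2 * H * z + (2 * H) * z := by
              have i1 : 2 * H * |p0| ≤ 2 * H * z := mul_le_mul_of_nonneg_left hp0 (by linarith)
              have i2 : (|y| * |p0|) * |p2| ≤ (2 * H) * z := mul_le_mul h0 hp2 q2 (by linarith)
              linarith
          _ = (4 * H) * z := by ring
      exact le_of_mul_le_mul_right this hz
    have a2 : |y| * |p2| ≤ 4 * H := by
      have : (|y| * |p2|) * z ≤ (4 * H) * z := by
        calc (|y| * |p2|) * z = |p2| * (|y| * z) := by ring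
          _ ≤ |p2| * (2 * H + |x| * |p0|) := mul_le_mul_of_nonneg_left t2 q2
          _ = 2 * H * |p2| + (|x| * |p2|) * |p0| := by ring
          _ ≤ 2 * H * z + (2 * H) * z := by
              have i1 : 2 * H * |p2| ≤ 2 * H * z := mul_le_mul_of_nonneg_left hp2 (by linarith)
              have i2 : (|x| * |p2|) * |p0| ≤ (2 * H) * z := mul_le_mul h3 hp0 q0 (by linarith)
              linarith
          _ = (4 * H) * z := by ring
      exact le_of_mul_le_mul_right this hz
    constructor <;> linarith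
  · rw [h] at h3 t4
    have : |x| * |p1| ≤ |x| * z := mul_le_mul_of_nonneg_left hp1 x0
    constructor <;> linarith

theorem nrm_le (p : Fin 3 → ℤ) (i : Fin 3) : |p i| ≤ (nrm p : ℤ) := by
  have : (p i).natAbs ≤ nrm p := Finset.le_sup (f := fun i => (p i).natAbs) (Finset.mem_univ i)
  rw [← Int.natCast_natAbs]
  exact_mod_cast this

theorem nrm_att (p : Fin 3 → ℤ) : |p 0| = (nrm p : ℤ) ∨ |p 1| = (nrm p : ℤ) ∨
    |p 2| = (nrm p : ℤ) := by
  obtain ⟨i, _, hi⟩ := Finset.exists_mem_eq_sup (Finset.univ : Finset (Fin 3)) ⟨0, by simp⟩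
    (fun i => (p i).natAbs)
  have hi' : nrm p = (p i).natAbs := hi
  rw [hi', Int.natCast_natAbs]
  fin_cases i
  · exact Or.inl rfl
  · exact Or.inr (Or.inl rfl)
  · exact Or.inr (Or.inr rfl)

theorem WW_sub (p : Fin 3 → ℤ) (F F' : Fin 4 → ℤ) : WW p (F - F') = WW p F - WW p F' := by
  funext i
  unfold WW
  fin_cases i <;> simp <;> ring

end FC_

open FC_ in
/-- Number of the forms with given minors. -/
theorem p_FC : T_FC := by
  intro H p w hH hp h1 h6
  set A : Set (Fin 4 → ℤ) := {F : Fin 4 → ℤ | (∀ i, |F i| ≤ (H : ℤ)) ∧ WW p F = w} with hA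
  rcases A.eq_empty_or_nonempty with he | ⟨F', hF'⟩
  · rw [he]
    refine ⟨Set.finite_empty, ?_⟩
    rw [Set.ncard_empty, Nat.cast_zero]
    exact sq_nonneg _
  set m : ℕ := 6 * H / nrm p with hm
  set B : Finset (ℤ × ℤ) := Icc (-(m : ℤ)) m ×ˢ Icc (-(m : ℤ)) m with hB
  set g : ℤ × ℤ → (Fin 4 → ℤ) := fun t i =>
    F' i + ![t.2 * p 0, t.1 * p 0 + t.2 * p 1, t.1 * p 1 + t.2 * p 2, t.1 * p 2] i with hg
  have hsub : A ⊆ ((B.image g : Finset (Fin 4 → ℤ)) : Set (Fin 4 → ℤ)) := by
    intro F hF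
    have hD : WW p (F - F') = 0 := by
      rw [WW_sub, hF.2, hF'.2, sub_self]
    obtain ⟨x, y, d0, d1, d2, d3⟩ := ker hp h1 hD
    have hb : ∀ i, |(F - F') i| ≤ 2 * (H : ℤ) := by
      intro i
      have a1 := hF.1 i
      have a2 := hF'.1 i
      rw [Pi.sub_apply]
      have := abs_sub (F i) (F' i)
      linarith
    have hz : (0 : ℤ) < nrm p := by exact_mod_cast h1
    have hs := size (x := x) (y := y) (H := (H : ℤ)) hz (Int.natCast_nonneg H) (nrm_le p 0)
      (nrm_le p 1) (nrm_le p 2) (nrm_att p) (by rw [← d0]; exact hb 0) (by rw [← d1]; exact hb 1)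
      (by rw [← d2]; exact hb 2) (by rw [← d3]; exact hb 3)
    have hbd : ∀ t : ℤ, |t| * (nrm p : ℤ) ≤ 6 * (H : ℤ) → |t| ≤ (m : ℤ) := by
      intro t ht
      rw [hm]
      push_cast
      exact (Int.le_ediv_iff_mul_le hz).2 ht
    rw [Finset.coe_image]
    refine ⟨(x, y), ?_, ?_⟩
    · rw [Finset.mem_coe, hB, Finset.mem_product, Finset.mem_Icc, Finset.mem_Icc]
      exact ⟨abs_le.1 (hbd x hs.1), abs_le.1 (hbd y hs.2)⟩
    · funext i
      rw [hg]
      simp only [Pi.sub_apply] at d0 d1 d2 d3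
      fin_cases i
      · simp
        linarith
      · simp
        linarith
      · simp
        linarith
      · simp
        linarith
  refine ⟨(Finset.finite_toSet _).subset hsub, ?_⟩
  have hc : A.ncard ≤ (2 * m + 1) ^ 2 := by
    calc A.ncard ≤ ((B.image g : Finset (Fin 4 → ℤ)) : Set (Fin 4 → ℤ)).ncard :=
          Set.ncard_le_ncard hsub (Finset.finite_toSet _)
      _ = (B.image g).card := Set.ncard_coe_finset _
      _ ≤ B.card := Finset.card_image_le
      _ = (2 * m + 1) ^ 2 := by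
          rw [hB, Finset.card_product, Int.card_Icc]
          have : ((m : ℤ) + 1 - -(m : ℤ)).toNat = 2 * m + 1 := by omega
          rw [this]; ring
  have hz : (0 : ℝ) < nrm p := by exact_mod_cast h1
  have hm1 : (m : ℝ) ≤ 6 * H / nrm p := by
    rw [hm]
    have := @Nat.cast_div_le ℝ _ _ _ (6 * H) (nrm p)
    push_cast at this
    exact this
  have hm2 : (1 : ℝ) ≤ 6 * H / nrm p := by
    rw [le_div_iff₀ hz]
    have : (nrm p : ℝ) ≤ 6 * H := by exact_mod_cast h6
    linarith
  have hfin : ((2 * m + 1 : ℕ) : ℝ) ≤ 18 * H / nrm p := by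
    push_cast
    have : 18 * (H : ℝ) / nrm p = 3 * (6 * H / nrm p) := by ring
    rw [this]
    linarith
  calc (A.ncard : ℝ) ≤ (((2 * m + 1) ^ 2 : ℕ) : ℝ) := by exact_mod_cast hc
    _ = ((2 * m + 1 : ℕ) : ℝ) ^ 2 := by push_cast; ring
    _ ≤ (18 * H / nrm p) ^ 2 := pow_le_pow_left₀ (by positivity) hfin 2

end Pool.Agent.HGR
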