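import Pool.Agent.HGR.Targets

set_option autoImplicit false

namespace Pool.Agent.HGR

open Finset

theorem p_FIB : T_FIB := by
  intro m X c hm hX
  have hm' : (0 : ℤ) < m := by exact_mod_cast hm
  have e1 : (Icc (-(X : ℤ)) X).filter (fun a => (m : ℤ) ∣ a - c) =
      (Ioc (-(X : ℤ) - 1) X).filter (fun a => a ≡ c [ZMOD (m : ℤ)]) := by
    ext a
    simp only [mem_filter, mem_Icc, mem_Ioc]
    constructor
    · rintro ⟨⟨h1, h2⟩, h3⟩
      exact ⟨⟨by omega, h2⟩, (Int.modEq_iff_dvd.2 h3).symm⟩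
    · rintro ⟨⟨h1, h2⟩, h3⟩
      exact ⟨⟨by omega, h2⟩, Int.modEq_iff_dvd.1 h3.symm⟩
  have h := Int.Ioc_filter_modEq_card (-(X : ℤ) - 1) X hm' c
  rw [e1]
  have hmR : (0 : ℝ) < m := by exact_mod_cast hm
  have hXR : (m : ℝ) ≤ X := by exact_mod_cast hX
  set N := (((Ioc (-(X : ℤ) - 1) X).filter (fun a => a ≡ c [ZMOD (m : ℤ)])).card) with hN
  have hf : ∀ a : ℤ, ⌊((a : ℤ) : ℚ) / ((m : ℤ) : ℚ)⌋ = a / (m : ℤ) := fun a =>
    Rat.floor_intCast_div_natCast a m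
  have h2 : (N : ℤ) ≤ max (((X : ℤ) - c) / m - (-(X : ℤ) - 1 - c) / m) 0 := by
    rw [h]
    have a1 := hf ((X : ℤ) - c)
    have a2 := hf (-(X : ℤ) - 1 - c)
    push_cast at a1 a2 ⊢
    rw [a1, a2]
  have h3 : (m : ℤ) * N ≤ 3 * X := by
    have b1 := Int.mul_ediv_self_le (x := (X : ℤ) - c) (k := (m : ℤ)) hm'.ne'
    have b2 := Int.lt_mul_ediv_self_add (x := -(X : ℤ) - 1 - c) (k := (m : ℤ)) hm'
    have hXm : (m : ℤ) ≤ X := by exact_mod_cast hX
    rcases le_total (((X : ℤ) - c) / m - (-(X : ℤ) - 1 - c) / m) 0 with h4 | h4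
    · rw [max_eq_right h4] at h2
      have : (N : ℤ) = 0 := by omega
      rw [this]; positivity
    · rw [max_eq_left h4] at h2
      have := mul_le_mul_of_nonneg_left h2 hm'.le
      rw [mul_sub] at this
      linarith
  rw [le_div_iff₀ hmR]
  have h5 : (m : ℝ) * N ≤ 3 * X := by exact_mod_cast h3
  linarith

end Pool.Agent.HGR
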