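import Pool.Agent.HGR.Targets

set_option autoImplicit false

namespace Pool.Agent.HGR

open Finset

namespace FINAL_

theorem maps_finite (d H : ℕ) : (Maps d H).Finite := by
  have h1 : {F : Fin (d + 1) → ℤ | ∀ i, |F i| ≤ (H : ℤ)}.Finite := by
    refine (Set.finite_Icc (fun _ => -(H : ℤ)) (fun _ => (H : ℤ))).subset ?_
    intro F hF
    exact ⟨fun i => (abs_le.1 (hF i)).1, fun i => (abs_le.1 (hF i)).2⟩
  exact (h1.prod h1).subset (fun f hf => ⟨hf.1, hf.2.1⟩)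

theorem mx_comm (a b : ℤ) : mx a b = mx b a := max_comm _ _

theorem mulL_neg {n : ℕ} (a b : ℤ) (Ψ : Fin n → ℤ) (j : ℕ) : mulL a b (-Ψ) j = - mulL a b Ψ j := by
  unfold mulL co
  by_cases h0 : j = 0
  · simp only [h0, if_true]
    split_ifs <;> simp
  · by_cases h1 : j - 1 < n <;> by_cases h2 : j < n <;> simp [h0, h1, h2]
    ring

theorem wit_swap {d H C : ℕ} {F G : Fin (d + 1) → ℤ} {a b r s : ℤ} {Ψ : Fin d → ℤ}
    (h : Wit d H C F G a b r s Ψ) : Wit d H C G F a b s r (-Ψ) where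
  hF := h.hG
  hG := h.hF
  ab := h.ab
  rs := h.rs.symm
  le := by rw [mx_comm s r]; exact h.le
  nz := by
    intro h0
    exact h.nz (neg_eq_zero.1 h0)
  rel := by
    intro j
    rw [mulL_neg, ← h.rel j]; ring
  size := by
    intro j
    rw [mx_comm s r, Pi.neg_apply, abs_neg]; exact h.size j
  res := by rw [mx_comm s r]; exact h.res

end FINAL_

open FINAL_

theorem p_FINAL (hW : T_WIT) (hP : T_PRE) (hL : T_LOW) (h1 : T_CASE1) (h2 : T_CASE2)
    (h3 : T_CASE3) : T_FINAL := by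
  intro d hd
  obtain ⟨C, hC⟩ := hW d (by omega)
  obtain ⟨c, hc, hlow⟩ := hL d (by omega)
  obtain ⟨K1, hK1⟩ := h1 d C hd
  obtain ⟨K2, hK2⟩ : ∃ K : ℝ, 4 ≤ d → ∀ H : ℕ, 1 ≤ H →
      (Bad2 d H C).Finite ∧ ((Bad2 d H C).ncard : ℝ) ≤ K * (H : ℝ) ^ (2 * d + 1) := by
    by_cases h4 : 4 ≤ d
    · obtain ⟨K, hK⟩ := h2 d C h4
      exact ⟨K, fun _ => hK⟩
    · exact ⟨0, fun h => absurd h h4⟩
  obtain ⟨K3, hK3⟩ := h3 C
  refine ⟨c, max (K1 + 2 * K2) (3 * |K1| + K3), hc, ?_⟩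
  intro H hH
  have hHr : (1 : ℝ) ≤ (H : ℝ) := by exact_mod_cast hH
  have hfin : (Maps d H).Finite := maps_finite d H
  have hbfin : (Bad d H).Finite := hfin.subset (fun f hf => hf.1)
  obtain ⟨hl1, hl2⟩ := hlow H hH
  obtain ⟨hb1f, hb1⟩ := hK1 H hH
  refine ⟨hfin, hl2, fun f hf => hP d H (by omega) f hf.1 hf.2, hl1, ?_, ?_⟩
  · intro h4
    obtain ⟨hb2f, hb2⟩ := hK2 h4 H hH
    have hsub : Bad d H ⊆ Bad1 d H C ∪ (Bad2 d H C ∪ Prod.swap '' Bad2 d H C) := by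
      intro f hf
      obtain ⟨a, b, r, s, Ψ, hw⟩ := hC H hH f hf
      by_cases h5 : mx r s ≤ 2 * H
      · exact Or.inl ⟨a, b, r, s, Ψ, hw, h5⟩
      · right
        by_cases h6 : s.natAbs ≤ r.natAbs
        · left
          refine ⟨a, b, r, s, Ψ, hw, ?_, h6⟩
          have : mx r s = r.natAbs := max_eq_left h6
          omega
        · right
          refine ⟨f.swap, ⟨a, b, s, r, -Ψ, wit_swap hw, ?_, by omega⟩, Prod.swap_swap f⟩
          have : mx r s = s.natAbs := max_eq_right (by omega)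
          omega
    have hle : (Bad d H).ncard ≤ (Bad1 d H C).ncard + ((Bad2 d H C).ncard + (Bad2 d H C).ncard) := by
      calc (Bad d H).ncard ≤ (Bad1 d H C ∪ (Bad2 d H C ∪ Prod.swap '' Bad2 d H C)).ncard :=
            Set.ncard_le_ncard hsub (hb1f.union (hb2f.union (hb2f.image _)))
        _ ≤ (Bad1 d H C).ncard + (Bad2 d H C ∪ Prod.swap '' Bad2 d H C).ncard :=
            Set.ncard_union_le _ _
        _ ≤ (Bad1 d H C).ncard + ((Bad2 d H C).ncard + (Bad2 d H C).ncard) := by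
            have h7 := Set.ncard_union_le (Bad2 d H C) (Prod.swap '' Bad2 d H C)
            have h8 : (Prod.swap '' Bad2 d H C).ncard ≤ (Bad2 d H C).ncard :=
              Set.ncard_image_le hb2f
            omega
    have hle' : ((Bad d H).ncard : ℝ) ≤
        (Bad1 d H C).ncard + ((Bad2 d H C).ncard + (Bad2 d H C).ncard) := by exact_mod_cast hle
    rw [if_neg (by omega), mul_one] at hb1
    have hpow : (0 : ℝ) ≤ (H : ℝ) ^ (2 * d + 1) := by positivity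
    calc ((Bad d H).ncard : ℝ) ≤ (K1 + 2 * K2) * (H : ℝ) ^ (2 * d + 1) := by nlinarith
      _ ≤ _ := mul_le_mul_of_nonneg_right (le_max_left _ _) hpow
  · intro h4
    subst h4
    obtain ⟨hb3f, hb3⟩ := hK3 H hH
    have hsub : Bad 3 H ⊆ Bad1 3 H C ∪ Bad3 H C := by
      intro f hf
      obtain ⟨a, b, r, s, Ψ, hw⟩ := hC H hH f hf
      by_cases h5 : mx r s ≤ 2 * H
      · exact Or.inl ⟨a, b, r, s, Ψ, hw, h5⟩
      · exact Or.inr ⟨hf.1, a, b, r, s, Ψ, hw, by omega⟩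
    have hle : (Bad 3 H).ncard ≤ (Bad1 3 H C).ncard + (Bad3 H C).ncard :=
      (Set.ncard_le_ncard hsub (hb1f.union hb3f)).trans (Set.ncard_union_le _ _)
    have hle' : ((Bad 3 H).ncard : ℝ) ≤ (Bad1 3 H C).ncard + (Bad3 H C).ncard := by
      exact_mod_cast hle
    rw [if_pos rfl] at hb1
    have hlog : Real.log H ≤ (H : ℝ) ^ ((3 : ℝ) / 4) / (3 / 4) :=
      Real.log_le_rpow_div (by positivity) (by norm_num)
    have h1p : (1 : ℝ) ≤ (H : ℝ) ^ ((3 : ℝ) / 4) := Real.one_le_rpow hHr (by norm_num)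
    have hmul : (H : ℝ) ^ ((31 : ℝ) / 4) = (H : ℝ) ^ (2 * 3 + 1) * (H : ℝ) ^ ((3 : ℝ) / 4) := by
      rw [← Real.rpow_natCast, ← Real.rpow_add (by positivity)]
      norm_num
    have hp7 : (0 : ℝ) ≤ (H : ℝ) ^ (2 * 3 + 1) := by positivity
    have hlog0 : 0 ≤ Real.log H := Real.log_nonneg hHr
    have hb1' : ((Bad1 3 H C).ncard : ℝ) ≤ 3 * |K1| * (H : ℝ) ^ ((31 : ℝ) / 4) := by
      calc ((Bad1 3 H C).ncard : ℝ) ≤ K1 * (H : ℝ) ^ (2 * 3 + 1) * (1 + Real.log H) := hb1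
        _ ≤ |K1| * (H : ℝ) ^ (2 * 3 + 1) * (1 + Real.log H) := by
            gcongr
            exact le_abs_self K1
        _ ≤ |K1| * (H : ℝ) ^ (2 * 3 + 1) * (3 * (H : ℝ) ^ ((3 : ℝ) / 4)) := by
            gcongr
            linarith
        _ = 3 * |K1| * (H : ℝ) ^ ((31 : ℝ) / 4) := by rw [hmul]; ring
    have hpow : (0 : ℝ) ≤ (H : ℝ) ^ ((31 : ℝ) / 4) := by positivity
    calc ((Bad 3 H).ncard : ℝ) ≤ (3 * |K1| + K3) * (H : ℝ) ^ ((31 : ℝ) / 4) := by nlinarith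
      _ ≤ _ := mul_le_mul_of_nonneg_right (le_max_right _ _) hpow

end Pool.Agent.HGR
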