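import Pool.Agent.HGR.Targets

set_option autoImplicit false

/-! HGR-INJ: the maps of `Bad2` in terms of the triples. -/

namespace Pool.Agent.HGR

open Finset
open scoped BigOperators

namespace INJ_

/-- a map is determined by its witness when the image height is large -/
lemma subsing {d H C : ℕ} {a b r s : ℤ} {Ψ : Fin d → ℤ} (hr : 2 * H < r.natAbs) :
    Set.Subsingleton {f : (Fin (d + 1) → ℤ) × (Fin (d + 1) → ℤ) |
      Wit d H C f.1 f.2 a b r s Ψ} := by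
  intro f hf g hg
  have hf' : Wit d H C f.1 f.2 a b r s Ψ := hf
  have hg' : Wit d H C g.1 g.2 a b r s Ψ := hg
  have hr0 : r ≠ 0 := by rintro rfl; simp at hr
  have h1 : ∀ j, f.1 j = g.1 j := by
    intro j
    have e1 := hf'.rel j
    have e2 := hg'.rel j
    have e3 : s * (f.1 j - g.1 j) = r * (f.2 j - g.2 j) := by linear_combination e1 - e2
    have e4 : r ∣ f.1 j - g.1 j := by
      apply hf'.rs.dvd_of_dvd_mul_left
      rw [e3]; exact dvd_mul_right _ _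
    have e5 := abs_le.1 (hf'.hF j)
    have e6 := abs_le.1 (hg'.hF j)
    have e7 : f.1 j - g.1 j = 0 := by
      apply Int.eq_zero_of_abs_lt_dvd ((abs_dvd r _).2 e4)
      have h8 : (2 * H : ℤ) < |r| := by
        rw [Int.abs_eq_natAbs]; exact_mod_cast hr
      refine lt_of_le_of_lt ?_ h8
      rw [abs_le]
      constructor <;> linarith
    linarith
  have h2 : ∀ j, f.2 j = g.2 j := by
    intro j
    have e1 := hf'.rel j
    have e2 := hg'.rel j
    have e3 : r * (f.2 j - g.2 j) = 0 := by rw [h1 j] at e1; linear_combination e2 - e1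
    rcases mul_eq_zero.1 e3 with h | h
    · exact absurd h hr0
    · linarith
  exact Prod.ext (funext h1) (funext h2)

/-- the residue class in the box -/
noncomputable def fib (m X : ℕ) (c : ℤ) : Finset ℤ := (Icc (-(X : ℤ)) X).filter (fun a => (m : ℤ) ∣ a - c)

/-- the block -/
def Blk (d H C i m : ℕ) : Set ((Fin (d + 1) → ℤ) × (Fin (d + 1) → ℤ)) :=
  {f | ∃ (a b r s : ℤ) (Ψ : Fin d → ℤ), Wit d H C f.1 f.2 a b r s Ψ ∧ r.natAbs = m ∧
    s.natAbs ≤ m ∧ 2 ^ i ≤ mx a b ∧ mx a b < 2 ^ (i + 1)}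

open Classical in
/-- the parameters -/
noncomputable def QQ (d m X : ℕ) (T : Finset (ℕ × ℕ × (Fin d → ℤ))) :
    Finset (Σ _ : ℤ × ℤ × (ℕ × ℕ × (Fin d → ℤ)), ℤ × ℤ) :=
  (({(m : ℤ), -(m : ℤ)} : Finset ℤ) ×ˢ Icc (-(m : ℤ)) m ×ˢ T).sigma
    (fun q => fib m X (q.2.1 * q.2.2.1) ×ˢ fib m X (q.2.1 * q.2.2.2.1))

lemma card_QQ (hF : T_FIB) (d m X : ℕ) (hm : 1 ≤ m) (hX : m ≤ X)
    (T : Finset (ℕ × ℕ × (Fin d → ℤ))) :
    ((QQ d m X T).card : ℝ) ≤ 6 * m * (3 * X / m) ^ 2 * T.card := by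
  classical
  unfold QQ
  rw [card_sigma]
  push_cast
  have h1 : ∀ q ∈ (({(m : ℤ), -(m : ℤ)} : Finset ℤ) ×ˢ Icc (-(m : ℤ)) m ×ˢ T),
      (((fib m X (q.2.1 * q.2.2.1) ×ˢ fib m X (q.2.1 * q.2.2.2.1)).card : ℕ) : ℝ) ≤
        (3 * X / m : ℝ) ^ 2 := by
    intro q _
    rw [card_product, pow_two]
    push_cast
    gcongr
    · exact hF m X _ hm hX
    · exact hF m X _ hm hX
  have h2 := Finset.sum_le_card_nsmul _ _ _ h1
  refine h2.trans ?_
  rw [nsmul_eq_mul, card_product, card_product]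
  have h3 : (({(m : ℤ), -(m : ℤ)} : Finset ℤ).card : ℝ) ≤ 2 := by
    exact_mod_cast Finset.card_le_two
  have h4 : ((Icc (-(m : ℤ)) m).card : ℝ) ≤ 3 * m := by
    rw [Int.card_Icc]
    have : ((m : ℤ) + 1 - -(m : ℤ)).toNat = 2 * m + 1 := by omega
    rw [this]
    have : (1 : ℝ) ≤ m := by exact_mod_cast hm
    push_cast
    linarith
  push_cast
  calc (({(m : ℤ), -(m : ℤ)} : Finset ℤ).card : ℝ) * (((Icc (-(m : ℤ)) m).card : ℝ) * (T.card : ℝ)) *
        (3 * X / m : ℝ) ^ 2 ≤ 2 * ((3 * m) * T.card) * (3 * X / m : ℝ) ^ 2 := by gcongr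
    _ = _ := by ring

lemma abs_le_mx_left (a b : ℤ) : |a| ≤ (mx a b : ℤ) := by
  rw [Int.abs_eq_natAbs]
  exact_mod_cast le_max_left _ _

lemma abs_le_mx_right (a b : ℤ) : |b| ≤ (mx a b : ℤ) := by
  rw [Int.abs_eq_natAbs]
  exact_mod_cast le_max_right _ _

lemma mem_fib {m X : ℕ} {c a : ℤ} (h1 : |a| ≤ (X : ℤ)) (h2 : (m : ℤ) ∣ a - c) :
    a ∈ fib m X c := by
  unfold fib
  rw [mem_filter, mem_Icc]
  exact ⟨abs_le.1 h1, h2⟩

lemma cover {d H C i m : ℕ} (hm : 2 * H < m)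
    (hfin : (CC d m H (2 * d * H * m / 2 ^ i)).Finite) :
    Blk d H C i m ⊆ ⋃ q ∈ QQ d m (2 ^ (i + 1)) hfin.toFinset,
      {f : (Fin (d + 1) → ℤ) × (Fin (d + 1) → ℤ) |
        Wit d H C f.1 f.2 q.2.1 q.2.2 q.1.1 q.1.2.1 q.1.2.2.2.2} := by
  rintro f ⟨a, b, r, s, Ψ, hw, hr, hs, hX1, hX2⟩
  have hm0 : 0 < m := by omega
  have hm0' : (0 : ℤ) < m := by exact_mod_cast hm0
  obtain ⟨u, v, huv⟩ := hw.rs
  have hmr : (m : ℤ) ∣ r := by rw [← hr]; exact Int.natAbs_dvd.2 dvd_rfl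
  have hmx : mx r s = m := by
    unfold mx; rw [hr]; exact max_eq_left hs
  -- the residues
  set A : ℕ := ((v * a) % m).toNat with hA
  set B : ℕ := ((v * b) % m).toNat with hB
  have hAz : (A : ℤ) = (v * a) % m := Int.toNat_of_nonneg (Int.emod_nonneg _ hm0'.ne')
  have hBz : (B : ℤ) = (v * b) % m := Int.toNat_of_nonneg (Int.emod_nonneg _ hm0'.ne')
  have hAlt : A < m := by
    have := Int.emod_lt_of_pos (v * a) hm0'
    omega
  have hBlt : B < m := by
    have := Int.emod_lt_of_pos (v * b) hm0'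
    omega
  obtain ⟨kA, hkA⟩ : (m : ℤ) ∣ v * a - A := by
    rw [hAz]; exact Int.dvd_self_sub_emod
  obtain ⟨kB, hkB⟩ : (m : ℤ) ∣ v * b - B := by
    rw [hBz]; exact Int.dvd_self_sub_emod
  obtain ⟨kr, hkr⟩ := hmr
  have hCC : (A, B, Ψ) ∈ CC d m H (2 * d * H * m / 2 ^ i) := by
    refine ⟨hAlt, hBlt, ?_, hw.nz, ?_⟩
    · intro j
      have h1 := hw.size j
      rw [hmx] at h1
      have h2 : (Ψ j).natAbs ≤ 2 * d * H * m / 2 ^ i := by
        rw [Nat.le_div_iff_mul_le (by positivity)]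
        have h3 : mx a b * (Ψ j).natAbs ≤ 2 * d * H * m := by
          rw [Int.abs_eq_natAbs] at h1
          exact_mod_cast h1
        calc (Ψ j).natAbs * 2 ^ i ≤ (Ψ j).natAbs * mx a b := by gcongr
          _ = mx a b * (Ψ j).natAbs := mul_comm _ _
          _ ≤ _ := h3
      show |Ψ j| ≤ _
      rw [Int.abs_eq_natAbs]
      exact_mod_cast h2
    · intro j
      refine ⟨f.1 j, hw.hF j, ?_⟩
      have h1 := hw.rel j
      show (m : ℤ) ∣ mulL (A : ℤ) (B : ℤ) Ψ j - f.1 j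
      unfold mulL at h1 ⊢
      refine ⟨-(kB * (if (j : ℕ) = 0 then 0 else co Ψ ((j : ℕ) - 1))) + kA * co Ψ j
        - kr * u * f.1 j - kr * v * f.2 j, ?_⟩
      linear_combination (-v) * h1 - (if (j : ℕ) = 0 then 0 else co Ψ ((j : ℕ) - 1)) * hkB
        + co Ψ j * hkA + f.1 j * huv - (u * f.1 j + v * f.2 j) * hkr
  have hXab : (mx a b : ℤ) ≤ ((2 ^ (i + 1) : ℕ) : ℤ) := by exact_mod_cast hX2.le
  simp only [Set.mem_iUnion]
  refine ⟨⟨(r, s, (A, B, Ψ)), (a, b)⟩, ?_, hw⟩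
  unfold QQ
  rw [mem_sigma]
  refine ⟨?_, ?_⟩
  · rw [mem_product, mem_product]
    refine ⟨?_, ?_, ?_⟩
    · simp only [mem_insert, mem_singleton]
      rcases Int.natAbs_eq r with h | h
      · left; rw [h, hr]
      · right; rw [h, hr]
    · rw [mem_Icc]
      have : |s| ≤ (m : ℤ) := by rw [Int.abs_eq_natAbs]; exact_mod_cast hs
      exact abs_le.1 this
    · exact hfin.mem_toFinset.2 hCC
  · rw [mem_product]
    constructor
    · apply mem_fib ((abs_le_mx_left a b).trans hXab)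
      show (m : ℤ) ∣ a - s * A
      refine ⟨kr * u * a + s * kA, ?_⟩
      linear_combination a * u * hkr + s * hkA - a * huv
    · apply mem_fib ((abs_le_mx_right a b).trans hXab)
      show (m : ℤ) ∣ b - s * B
      refine ⟨kr * u * b + s * kB, ?_⟩
      linear_combination b * u * hkr + s * hkB - b * huv

lemma block (hF : T_FIB) {d H C i m : ℕ} (hm : 2 * H < m) (hmi : m ≤ 2 ^ (i + 1))
    (hfin : (CC d m H (2 * d * H * m / 2 ^ i)).Finite) :
    (Blk d H C i m).Finite ∧ ((Blk d H C i m).ncard : ℝ) ≤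
      216 * (4 : ℝ) ^ i / m * ((CC d m H (2 * d * H * m / 2 ^ i)).ncard : ℝ) := by
  have hm0 : 1 ≤ m := by omega
  have hsub := cover (C := C) hm hfin
  have hsing : ∀ q ∈ QQ d m (2 ^ (i + 1)) hfin.toFinset,
      Set.Subsingleton {f : (Fin (d + 1) → ℤ) × (Fin (d + 1) → ℤ) |
        Wit d H C f.1 f.2 q.2.1 q.2.2 q.1.1 q.1.2.1 q.1.2.2.2.2} := by
    intro q hq
    apply subsing
    unfold QQ at hq
    rw [mem_sigma, mem_product] at hq
    have h1 := hq.1.1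
    simp only [mem_insert, mem_singleton] at h1
    rcases h1 with h | h
    · rw [h]; simpa using hm
    · rw [h]; simpa using hm
  have hfinU : (⋃ q ∈ QQ d m (2 ^ (i + 1)) hfin.toFinset,
      {f : (Fin (d + 1) → ℤ) × (Fin (d + 1) → ℤ) |
        Wit d H C f.1 f.2 q.2.1 q.2.2 q.1.1 q.1.2.1 q.1.2.2.2.2}).Finite :=
    Set.Finite.biUnion (Finset.finite_toSet _) fun q hq => (hsing q hq).finite
  refine ⟨hfinU.subset hsub, ?_⟩
  have h1 : (Blk d H C i m).ncard ≤ (QQ d m (2 ^ (i + 1)) hfin.toFinset).card := by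
    refine (Set.ncard_le_ncard hsub hfinU).trans ((Finset.set_ncard_biUnion_le _ _).trans ?_)
    calc _ ≤ ∑ q ∈ QQ d m (2 ^ (i + 1)) hfin.toFinset, 1 :=
        Finset.sum_le_sum fun q hq => 
          (Set.ncard_le_one (hsing q hq).finite).2 fun x hx y hy => hsing q hq hx hy
      _ = _ := by simp
  have h2 := card_QQ hF d m (2 ^ (i + 1)) hm0 hmi hfin.toFinset
  rw [Set.ncard_eq_toFinset_card _ hfin]
  refine le_trans (by exact_mod_cast h1) (h2.trans (le_of_eq ?_))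
  have hm' : (m : ℝ) ≠ 0 := by positivity
  push_cast
  field_simp
  have : ((2 : ℝ) ^ (i + 1)) ^ 2 = 4 * 4 ^ i := by
    rw [show (4 : ℝ) = 2 ^ 2 by norm_num, ← pow_mul, ← pow_mul, ← pow_add]; congr 1; ring
  rw [this]; ring

end INJ_

open INJ_

theorem p_INJ (h2 : T_FIB) : T_INJ := by
  intro d H C I hd hH hI hfin
  have hsub : Bad2 d H C ⊆ ⋃ i ∈ range (I + 1), ⋃ m ∈ Ioc (2 * H) (2 ^ (i + 1)),
      Blk d H C i m := by
    rintro f ⟨a, b, r, s, Ψ, hw, hr, hs⟩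
    have hmx : mx r s = r.natAbs := by unfold mx; exact max_eq_left hs
    have hle : r.natAbs ≤ mx a b := by rw [← hmx]; exact hw.le
    have hX1 : 1 ≤ mx a b := by omega
    have hres := hw.res
    have hpow : mx a b ^ (d - 1) ≤ C * H ^ (2 * d - 1) := by
      have h1 : mx a b ^ (d - 1) * mx a b ≤ C * H ^ (2 * d - 1) * mx a b := by
        rw [← pow_succ, Nat.sub_add_cancel hd]
        exact hres.trans (Nat.mul_le_mul_left _ hw.le)
      exact Nat.le_of_mul_le_mul_right h1 hX1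
    have hlog := hI (mx a b) hX1 hpow
    simp only [Set.mem_iUnion]
    refine ⟨Nat.log 2 (mx a b), mem_range.2 (by omega), r.natAbs, mem_Ioc.2 ⟨hr, ?_⟩,
      a, b, r, s, Ψ, hw, rfl, hs, ?_, ?_⟩
    · exact hle.trans (Nat.lt_pow_succ_log_self (by norm_num) _).le
    · exact Nat.pow_log_le_self 2 (by omega)
    · exact Nat.lt_pow_succ_log_self (by norm_num) _
  have hfinB : ∀ i ∈ range (I + 1), ∀ m ∈ Ioc (2 * H) (2 ^ (i + 1)), (Blk d H C i m).Finite :=
    fun i _ m hm => (block h2 (mem_Ioc.1 hm).1 (mem_Ioc.1 hm).2 (hfin _ _)).1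
  have hfinU : (⋃ i ∈ range (I + 1), ⋃ m ∈ Ioc (2 * H) (2 ^ (i + 1)), Blk d H C i m).Finite :=
    Set.Finite.biUnion (Finset.finite_toSet _) fun i hi =>
      Set.Finite.biUnion (Finset.finite_toSet _) fun m hm => hfinB i hi m hm
  refine ⟨hfinU.subset hsub, ?_⟩
  have h3 : (Bad2 d H C).ncard ≤ ∑ i ∈ range (I + 1), ∑ m ∈ Ioc (2 * H) (2 ^ (i + 1)),
      (Blk d H C i m).ncard := by
    refine (Set.ncard_le_ncard hsub hfinU).trans ((Finset.set_ncard_biUnion_le _ _).trans ?_)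
    exact Finset.sum_le_sum fun i _ => Finset.set_ncard_biUnion_le _ _
  calc ((Bad2 d H C).ncard : ℝ) ≤ ((∑ i ∈ range (I + 1), ∑ m ∈ Ioc (2 * H) (2 ^ (i + 1)),
      (Blk d H C i m).ncard : ℕ) : ℝ) := by exact_mod_cast h3
    _ ≤ _ := by
      push_cast
      exact Finset.sum_le_sum fun i _ => Finset.sum_le_sum fun m hm =>
        (block h2 (mem_Ioc.1 hm).1 (mem_Ioc.1 hm).2 (hfin _ _)).2

end Pool.Agent.HGR
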