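import Pool.Agent.HGR.Targets

set_option autoImplicit false

/-!
# LAT: the vectors orthogonal to `X p` and `Y p`
-/

namespace Pool.Agent.HGR

namespace LAT_

theorem bez {p : Fin 3 → ℤ} (hp : Prim p) : ∃ a b c : ℤ, a * p 0 + b * p 1 + c * p 2 = 1 := by
  have h1 := Int.gcd_eq_gcd_ab (p 0) (p 1)
  have h2 := Int.gcd_eq_gcd_ab (Int.gcd (p 0) (p 1)) (p 2)
  have hu : IsUnit ((Int.gcd (Int.gcd (p 0) (p 1)) (p 2) : ℕ) : ℤ) := by
    apply hp
    intro i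
    have d1 : ((Int.gcd (Int.gcd (p 0) (p 1)) (p 2) : ℕ) : ℤ) ∣ (Int.gcd (p 0) (p 1) : ℕ) :=
      Int.gcd_dvd_left ..
    fin_cases i
    · exact d1.trans (Int.gcd_dvd_left ..)
    · exact d1.trans (Int.gcd_dvd_right ..)
    · exact Int.gcd_dvd_right ..
  have h3 : ((Int.gcd (Int.gcd (p 0) (p 1)) (p 2) : ℕ) : ℤ) = 1 := by
    rcases Int.isUnit_iff.1 hu with h | h
    · exact h
    · have : (0 : ℤ) ≤ ((Int.gcd (Int.gcd (p 0) (p 1)) (p 2) : ℕ) : ℤ) := Int.natCast_nonneg _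
      omega
  rw [h3] at h2
  obtain ⟨X, Y, hXY⟩ : ∃ X Y : ℤ, 1 = (Int.gcd (p 0) (p 1) : ℤ) * X + p 2 * Y := ⟨_, _, h2⟩
  rw [h1] at hXY
  exact ⟨Int.gcdA (p 0) (p 1) * X, Int.gcdB (p 0) (p 1) * X, Y, by linear_combination -hXY⟩

theorem aux1 (T : ℕ) : ((T : ℤ) + 1 - -(T : ℤ)).toNat = 2 * T + 1 := by omega

theorem aux2 (Q : ℕ) : ((Q : ℤ) + 1 - 0).toNat = Q + 1 := by omega

/-- the six minors of two vectors -/
def dd (M N : Fin 4 → ℤ) : Fin 6 → ℤ :=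
  ![M 0 * N 1 - M 1 * N 0, M 0 * N 2 - M 2 * N 0, M 0 * N 3 - M 3 * N 0,
    M 1 * N 2 - M 2 * N 1, M 1 * N 3 - M 3 * N 1, M 2 * N 3 - M 3 * N 2]

/-- the complementary minors of `X p`, `Y p` -/
def mm (p : Fin 3 → ℤ) : Fin 6 → ℤ :=
  ![p 2 ^ 2, -(p 1 * p 2), p 1 ^ 2 - p 0 * p 2, p 0 * p 2, -(p 0 * p 1), p 0 ^ 2]

/-- the minors of two orthogonal vectors are proportional to the complementary minors -/
theorem prop {p : Fin 3 → ℤ} {M N : Fin 4 → ℤ} (hM : Ort p M) (hN : Ort p N) {a b c : ℤ}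
    (habc : a * p 0 + b * p 1 + c * p 2 = 1) :
    ∀ j, dd M N j = (c ^ 2 * dd M N 0 - 2 * b * c * dd M N 1 + b ^ 2 * dd M N 2 +
      (2 * a * c + b ^ 2) * dd M N 3 - 2 * a * b * dd M N 4 + a ^ 2 * dd M N 5) * mm p j := by
  obtain ⟨e1, e2⟩ := hM
  obtain ⟨f1, f2⟩ := hN
  obtain ⟨d1, hd1⟩ : ∃ z, z = M 0 * N 1 - M 1 * N 0 := ⟨_, rfl⟩
  obtain ⟨d2, hd2⟩ : ∃ z, z = M 0 * N 2 - M 2 * N 0 := ⟨_, rfl⟩
  obtain ⟨d3, hd3⟩ : ∃ z, z = M 0 * N 3 - M 3 * N 0 := ⟨_, rfl⟩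
  obtain ⟨d4, hd4⟩ : ∃ z, z = M 1 * N 2 - M 2 * N 1 := ⟨_, rfl⟩
  obtain ⟨d5, hd5⟩ : ∃ z, z = M 1 * N 3 - M 3 * N 1 := ⟨_, rfl⟩
  obtain ⟨d6, hd6⟩ : ∃ z, z = M 2 * N 3 - M 3 * N 2 := ⟨_, rfl⟩
  have A0 : p 1 * d1 + p 2 * d2 = 0 := by
    rw [hd1, hd2]; linear_combination M 0 * f1 - N 0 * e1
  have B0 : p 0 * d1 + p 1 * d2 + p 2 * d3 = 0 := by
    rw [hd1, hd2, hd3]; linear_combination M 0 * f2 - N 0 * e2
  have A1 : p 0 * d1 - p 2 * d4 = 0 := by
    rw [hd1, hd4]; linear_combination N 1 * e1 - M 1 * f1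
  have B1 : p 1 * d4 + p 2 * d5 = 0 := by
    rw [hd4, hd5]; linear_combination M 1 * f2 - N 1 * e2
  have A2 : p 0 * d2 + p 1 * d4 = 0 := by
    rw [hd2, hd4]; linear_combination N 2 * e1 - M 2 * f1
  have B2 : p 0 * d4 - p 2 * d6 = 0 := by
    rw [hd4, hd6]; linear_combination N 2 * e2 - M 2 * f2
  have A3 : p 0 * d3 + p 1 * d5 + p 2 * d6 = 0 := by
    rw [hd3, hd5, hd6]; linear_combination N 3 * e1 - M 3 * f1
  have B3 : p 0 * d5 + p 1 * d6 = 0 := by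
    rw [hd5, hd6]; linear_combination N 3 * e2 - M 3 * f2
  have key : ∀ z : ℤ, z = z * (a * p 0 + b * p 1 + c * p 2) ^ 2 := fun z => by rw [habc]; ring
  intro j
  have g0 : dd M N 0 = d1 := hd1.symm
  have g1 : dd M N 1 = d2 := hd2.symm
  have g2 : dd M N 2 = d3 := hd3.symm
  have g3 : dd M N 3 = d4 := hd4.symm
  have g4 : dd M N 4 = d5 := hd5.symm
  have g5 : dd M N 5 = d6 := hd6.symm
  have R12 : d1 * -(p 1 * p 2) = d2 * p 2 ^ 2 := by linear_combination -p 2 * A0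
  have R13 : d1 * (p 1 ^ 2 - p 0 * p 2) = d3 * p 2 ^ 2 := by
    linear_combination p 1 * A0 - p 2 * B0
  have R14 : d1 * (p 0 * p 2) = d4 * p 2 ^ 2 := by linear_combination p 2 * A1
  have R15 : d1 * -(p 0 * p 1) = d5 * p 2 ^ 2 := by linear_combination -p 1 * A1 - p 2 * B1
  have R16 : d1 * p 0 ^ 2 = d6 * p 2 ^ 2 := by linear_combination p 0 * A1 + p 2 * B2
  have R23 : d2 * (p 1 ^ 2 - p 0 * p 2) = d3 * -(p 1 * p 2) := by
    linear_combination p 1 * B0 - p 0 * A0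
  have R24 : d2 * (p 0 * p 2) = d4 * -(p 1 * p 2) := by linear_combination p 2 * A2
  have R25 : d2 * -(p 0 * p 1) = d5 * -(p 1 * p 2) := by
    linear_combination -p 1 * A2 + p 1 * B1
  have R26 : d2 * p 0 ^ 2 = d6 * -(p 1 * p 2) := by linear_combination p 0 * A2 - p 1 * B2
  have R34 : d3 * (p 0 * p 2) = d4 * (p 1 ^ 2 - p 0 * p 2) := by
    linear_combination p 0 * B0 - p 0 * A1 - p 1 * A2
  have R35 : d3 * -(p 0 * p 1) = d5 * (p 1 ^ 2 - p 0 * p 2) := by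
    linear_combination -p 1 * A3 + p 2 * B3
  have R36 : d3 * p 0 ^ 2 = d6 * (p 1 ^ 2 - p 0 * p 2) := by
    linear_combination p 0 * A3 - p 1 * B3
  have R45 : d4 * -(p 0 * p 1) = d5 * (p 0 * p 2) := by linear_combination -p 0 * B1
  have R46 : d4 * p 0 ^ 2 = d6 * (p 0 * p 2) := by linear_combination p 0 * B2
  have R56 : d5 * p 0 ^ 2 = d6 * -(p 0 * p 1) := by linear_combination p 0 * B3
  rw [g0, g1, g2, g3, g4, g5]
  fin_cases j
  · show dd M N 0 = _ * p 2 ^ 2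
    rw [g0]
    linear_combination key d1 + (-2 * b * c) * R12 + b ^ 2 * R13 + (2 * a * c + b ^ 2) * R14
      + (-2 * a * b) * R15 + a ^ 2 * R16
  · show dd M N 1 = _ * -(p 1 * p 2)
    rw [g1]
    linear_combination key d2 - c ^ 2 * R12 + b ^ 2 * R23 + (2 * a * c + b ^ 2) * R24
      + (-2 * a * b) * R25 + a ^ 2 * R26
  · show dd M N 2 = _ * (p 1 ^ 2 - p 0 * p 2)
    rw [g2]
    linear_combination key d3 - c ^ 2 * R13 - (-2 * b * c) * R23 + (2 * a * c + b ^ 2) * R34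
      + (-2 * a * b) * R35 + a ^ 2 * R36
  · show dd M N 3 = _ * (p 0 * p 2)
    rw [g3]
    linear_combination key d4 - c ^ 2 * R14 - (-2 * b * c) * R24 - b ^ 2 * R34
      + (-2 * a * b) * R45 + a ^ 2 * R46
  · show dd M N 4 = _ * -(p 0 * p 1)
    rw [g4]
    linear_combination key d5 - c ^ 2 * R15 - (-2 * b * c) * R25 - b ^ 2 * R35
      - (2 * a * c + b ^ 2) * R45 + a ^ 2 * R56
  · show dd M N 5 = _ * p 0 ^ 2
    rw [g5]
    linear_combination key d6 - c ^ 2 * R16 - (-2 * b * c) * R26 - b ^ 2 * R36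
      - (2 * a * c + b ^ 2) * R46 - (-2 * a * b) * R56

theorem le_nrm {n : ℕ} (p : Fin n → ℤ) (i : Fin n) : (p i).natAbs ≤ nrm p :=
  Finset.le_sup (f := fun i => (p i).natAbs) (Finset.mem_univ i)

theorem exists_nrm {n : ℕ} (p : Fin (n + 1) → ℤ) : ∃ i, (p i).natAbs = nrm p := by
  obtain ⟨i, -, hi⟩ := Finset.exists_mem_eq_sup (Finset.univ : Finset (Fin (n + 1)))
    Finset.univ_nonempty (fun i => (p i).natAbs)
  exact ⟨i, hi.symm⟩

theorem abs_le_nrm {n : ℕ} (p : Fin n → ℤ) (i : Fin n) : |p i| ≤ (nrm p : ℤ) := by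
  rw [Int.abs_eq_natAbs]
  exact_mod_cast le_nrm p i

/-- one of the minors is large -/
theorem big (p : Fin 3 → ℤ) : ∃ j, (nrm p : ℤ) ^ 2 ≤ 2 * |mm p j| := by
  obtain ⟨i, hi⟩ := exists_nrm p
  have h0 := abs_le_nrm p 0
  have h1 := abs_le_nrm p 1
  have h2 := abs_le_nrm p 2
  have hP : (0 : ℤ) ≤ nrm p := Int.natCast_nonneg _
  have hi' : |p i| = (nrm p : ℤ) := by rw [Int.abs_eq_natAbs, hi]
  fin_cases i
  · refine ⟨5, ?_⟩
    show _ ≤ 2 * |p 0 ^ 2|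
    have hi'' : |p 0| = (nrm p : ℤ) := hi'
    rw [abs_pow, hi'']
    nlinarith [sq_nonneg (nrm p : ℤ)]
  · have hi'' : |p 1| = (nrm p : ℤ) := hi'
    by_cases c0 : (nrm p : ℤ) ≤ 2 * |p 0|
    · refine ⟨4, ?_⟩
      show _ ≤ 2 * |-(p 0 * p 1)|
      rw [abs_neg, abs_mul, hi'']
      nlinarith
    · by_cases c2 : (nrm p : ℤ) ≤ 2 * |p 2|
      · refine ⟨1, ?_⟩
        show _ ≤ 2 * |-(p 1 * p 2)|
        rw [abs_neg, abs_mul, hi'']
        nlinarith
      · refine ⟨2, ?_⟩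
        show _ ≤ 2 * |p 1 ^ 2 - p 0 * p 2|
        have e1 : |p 1 ^ 2| - |p 0 * p 2| ≤ |p 1 ^ 2 - p 0 * p 2| := abs_sub_abs_le_abs_sub _ _
        rw [abs_pow, abs_mul, hi''] at e1
        have e2 : 2 * (|p 0| * |p 2|) ≤ (nrm p : ℤ) ^ 2 := by
          push Not at c0 c2
          have a0 := abs_nonneg (p 0)
          have a2 := abs_nonneg (p 2)
          nlinarith
        linarith
  · refine ⟨0, ?_⟩
    show _ ≤ 2 * |p 2 ^ 2|
    have hi'' : |p 2| = (nrm p : ℤ) := hi'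
    rw [abs_pow, hi'']
    nlinarith [sq_nonneg (nrm p : ℤ)]

theorem dd_le (M N : Fin 4 → ℤ) (j : Fin 6) : |dd M N j| ≤ 2 * ((nrm M : ℤ) * nrm N) := by
  have key : ∀ i k : Fin 4, |M i * N k - M k * N i| ≤ 2 * ((nrm M : ℤ) * nrm N) := by
    intro i k
    have h1 : |M i * N k| ≤ (nrm M : ℤ) * nrm N := by
      rw [abs_mul]
      exact mul_le_mul (abs_le_nrm M i) (abs_le_nrm N k) (abs_nonneg _) (Int.natCast_nonneg _)
    have h2 : |M k * N i| ≤ (nrm M : ℤ) * nrm N := by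
      rw [abs_mul]
      exact mul_le_mul (abs_le_nrm M k) (abs_le_nrm N i) (abs_nonneg _) (Int.natCast_nonneg _)
    have h3 : |M i * N k - M k * N i| ≤ |M i * N k| + |M k * N i| := abs_sub _ _
    linarith
  fin_cases j
  · exact key 0 1
  · exact key 0 2
  · exact key 0 3
  · exact key 1 2
  · exact key 1 3
  · exact key 2 3

/-- vanishing minors: parallel vectors -/
theorem par {M N : Fin 4 → ℤ} (h : ∀ j, dd M N j = 0) (i k : Fin 4) :
    M i * N k = M k * N i := by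
  have h0 : M 0 * N 1 - M 1 * N 0 = 0 := h 0
  have h1 : M 0 * N 2 - M 2 * N 0 = 0 := h 1
  have h2 : M 0 * N 3 - M 3 * N 0 = 0 := h 2
  have h3 : M 1 * N 2 - M 2 * N 1 = 0 := h 3
  have h4 : M 1 * N 3 - M 3 * N 1 = 0 := h 4
  have h5 : M 2 * N 3 - M 3 * N 2 = 0 := h 5
  fin_cases i <;> fin_cases k <;> simp only [Fin.zero_eta, Fin.mk_one, Fin.reduceFinMk] <;>
    linarith

end LAT_

open LAT_ in
theorem p_LAT : T_LAT := by
  intro p N B hp hN hN0 hmin hB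
  obtain ⟨a, b, c, habc⟩ := bez hp
  set S : Set (Fin 4 → ℤ) := {M : Fin 4 → ℤ | Ort p M ∧ M ≠ 0 ∧ nrm M < 2 * B} with hS
  obtain ⟨i0, hi0⟩ := exists_nrm N
  -- positivity
  have hn1 : 1 ≤ nrm N := by
    by_contra h
    apply hN0
    funext i
    have := le_nrm N i
    have : (N i).natAbs = 0 := by omega
    simpa using this
  have hP1 : 1 ≤ nrm p := by
    by_contra h
    have hp0 : ∀ i, p i = 0 := fun i => by
      have := le_nrm p i
      have : (p i).natAbs = 0 := by omega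
      simpa using this
    have := hp 2 (fun i => by rw [hp0 i]; exact dvd_zero 2)
    rw [Int.isUnit_iff] at this
    omega
  set n1 := nrm N with hn1def
  set P := nrm p with hPdef
  -- the map
  set t : (Fin 4 → ℤ) → ℤ := fun M => c ^ 2 * dd M N 0 - 2 * b * c * dd M N 1 +
    b ^ 2 * dd M N 2 + (2 * a * c + b ^ 2) * dd M N 3 - 2 * a * b * dd M N 4 +
    a ^ 2 * dd M N 5 with ht
  have hprop : ∀ M, Ort p M → ∀ j, dd M N j = t M * mm p j := fun M hM => prop hM hN habc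
  set T : ℕ := 8 * B * n1 / P ^ 2 with hT
  set Q : ℕ := (4 * B - 2) / n1 with hQ
  have hmaps : ∀ M ∈ S, (t M, (M i0 + (2 * B - 1)) / (n1 : ℤ)) ∈
      ((Finset.Icc (-(T : ℤ)) T ×ˢ Finset.Icc (0 : ℤ) Q : Finset (ℤ × ℤ)) : Set (ℤ × ℤ)) := by
    rintro M ⟨hM1, hM2, hM3⟩
    rw [Finset.mem_coe, Finset.mem_product, Finset.mem_Icc, Finset.mem_Icc]
    constructor
    · obtain ⟨j, hj⟩ := big p
      have e1 := dd_le M N j
      rw [hprop M hM1 j, abs_mul] at e1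
      have e2 : |t M| * (P : ℤ) ^ 2 ≤ 8 * B * n1 := by
        have e3 : (nrm M : ℤ) ≤ 2 * B := by exact_mod_cast hM3.le
        have e4 : |t M| * (P : ℤ) ^ 2 ≤ |t M| * (2 * |mm p j|) :=
          mul_le_mul_of_nonneg_left hj (abs_nonneg _)
        have e5 : (nrm M : ℤ) * n1 ≤ 2 * B * n1 :=
          mul_le_mul_of_nonneg_right e3 (Int.natCast_nonneg _)
        linarith
      have e6 : (t M).natAbs ≤ T := by
        rw [hT, Nat.le_div_iff_mul_le (by positivity)]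
        have : ((t M).natAbs : ℤ) = |t M| := Int.natCast_natAbs _
        have e7 : (((t M).natAbs * P ^ 2 : ℕ) : ℤ) ≤ ((8 * B * n1 : ℕ) : ℤ) := by
          push_cast
          exact e2
        exact_mod_cast e7
      omega
    · have e1 := le_nrm M i0
      have e2 : (0 : ℤ) ≤ M i0 + (2 * B - 1) := by omega
      have e3 : M i0 + (2 * B - 1) ≤ ((4 * B - 2 : ℕ) : ℤ) := by omega
      have hn1' : (0 : ℤ) < n1 := by exact_mod_cast hn1
      constructor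
      · exact Int.ediv_nonneg e2 hn1'.le
      · rw [hQ]
        push_cast
        exact Int.ediv_le_ediv hn1' e3
  have hinj : Set.InjOn (fun M : Fin 4 → ℤ => (t M, (M i0 + (2 * B - 1)) / (n1 : ℤ))) S := by
    rintro M ⟨hM1, hM2, hM3⟩ M' ⟨hM1', hM2', hM3'⟩ heq
    obtain ⟨h1, h2⟩ := Prod.mk.inj heq
    by_contra hne
    have hn1' : (0 : ℤ) < n1 := by exact_mod_cast hn1
    have hDne : M - M' ≠ 0 := sub_ne_zero.2 hne
    have hDo : Ort p (M - M') := by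
      obtain ⟨a1, a2⟩ := hM1
      obtain ⟨b1, b2⟩ := hM1'
      constructor
      · show (M 0 - M' 0) * p 0 + (M 1 - M' 1) * p 1 + (M 2 - M' 2) * p 2 = 0
        linear_combination a1 - b1
      · show (M 1 - M' 1) * p 0 + (M 2 - M' 2) * p 1 + (M 3 - M' 3) * p 2 = 0
        linear_combination a2 - b2
    have hdd : ∀ j, dd (M - M') N j = 0 := by
      have e : ∀ j, dd (M - M') N j = dd M N j - dd M' N j := by
        intro j
        fin_cases j <;> simp [dd] <;> ring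
      intro j
      rw [e, hprop M hM1, hprop M' hM1', h1, sub_self]
    have hpar := par hdd
    have hle : ∀ k, ((M - M') k).natAbs ≤ ((M - M') i0).natAbs := by
      intro k
      have e1 := hpar i0 k
      have e2 : ((M - M') i0).natAbs * (N k).natAbs = ((M - M') k).natAbs * n1 := by
        rw [← Int.natAbs_mul, e1, Int.natAbs_mul, hi0]
      have e3 := le_nrm N k
      have e4 : ((M - M') k).natAbs * n1 ≤ ((M - M') i0).natAbs * n1 := by
        rw [← e2]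
        exact Nat.mul_le_mul_left _ e3
      exact Nat.le_of_mul_le_mul_right e4 hn1
    have hnrm : nrm (M - M') ≤ ((M - M') i0).natAbs := Finset.sup_le fun k _ => hle k
    have h3 := hmin _ hDo hDne
    have h4 : (n1 : ℤ) ≤ |M i0 - M' i0| := by
      have : n1 ≤ ((M - M') i0).natAbs := h3.trans hnrm
      have e : (M - M') i0 = M i0 - M' i0 := rfl
      rw [e] at this
      rw [Int.abs_eq_natAbs]
      exact_mod_cast this
    -- but the quotients agree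
    have q1 := Int.emod_add_mul_ediv (M i0 + (2 * B - 1)) n1
    have q2 := Int.emod_add_mul_ediv (M' i0 + (2 * B - 1)) n1
    have r1 := Int.emod_nonneg (M i0 + (2 * B - 1)) hn1'.ne'
    have r2 := Int.emod_nonneg (M' i0 + (2 * B - 1)) hn1'.ne'
    have s1 := Int.emod_lt_of_pos (M i0 + (2 * B - 1)) hn1'
    have s2 := Int.emod_lt_of_pos (M' i0 + (2 * B - 1)) hn1'
    rw [h2] at q1
    have h5 : |M i0 - M' i0| < n1 := by
      rw [abs_lt]
      constructor <;> linarith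
    linarith
  have hfin : ((Finset.Icc (-(T : ℤ)) T ×ˢ Finset.Icc (0 : ℤ) Q : Finset (ℤ × ℤ)) :
      Set (ℤ × ℤ)).Finite := Finset.finite_toSet _
  refine ⟨Set.Finite.of_injOn hmaps hinj hfin, ?_⟩
  rcases Set.eq_empty_or_nonempty S with hemp | ⟨M, hM1, hM2, hM3⟩
  · rw [hemp, Set.ncard_empty, Nat.cast_zero]
    positivity
  have hn1B : n1 ≤ 2 * B := (hmin M hM1 hM2).trans hM3.le
  have hcard := Set.ncard_le_ncard_of_injOn _ hmaps hinj hfin
  rw [Set.ncard_coe_finset, Finset.card_product, Int.card_Icc, Int.card_Icc] at hcard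
  rw [aux1, aux2] at hcard
  have hn1R : (0 : ℝ) < n1 := by exact_mod_cast hn1
  have hPR : (0 : ℝ) < P := by exact_mod_cast hP1
  have hTR : (T : ℝ) ≤ 8 * B * n1 / (P : ℝ) ^ 2 := by
    have := @Nat.cast_div_le ℝ _ _ _ (8 * B * n1) (P ^ 2)
    rw [hT]
    push_cast at this ⊢
    exact this
  have hQR : (Q : ℝ) + 1 ≤ 6 * B / n1 := by
    have h1 := @Nat.cast_div_le ℝ _ _ _ (4 * B - 2) n1
    have h2 : ((4 * B - 2 : ℕ) : ℝ) ≤ 4 * B := by
      have : 4 * B - 2 ≤ 4 * B := Nat.sub_le _ _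
      exact_mod_cast this
    have h3 : (1 : ℝ) ≤ 2 * B / n1 := by
      rw [le_div_iff₀ hn1R, one_mul]
      exact_mod_cast hn1B
    have h4 : ((4 * B - 2 : ℕ) : ℝ) / n1 ≤ 4 * B / n1 :=
      div_le_div_of_nonneg_right h2 hn1R.le
    calc (Q : ℝ) + 1 ≤ 4 * B / n1 + 2 * B / n1 := add_le_add (h1.trans h4) h3
      _ = 6 * B / n1 := by ring
  calc (S.ncard : ℝ) ≤ ((2 * T + 1) * (Q + 1) : ℕ) := by exact_mod_cast hcard
    _ = (2 * T + 1) * ((Q : ℝ) + 1) := by push_cast; ring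
    _ ≤ (2 * (8 * B * n1 / (P : ℝ) ^ 2) + 1) * (6 * B / n1) := by
        refine mul_le_mul (by linarith) hQR (by positivity) (by positivity)
    _ = 96 * (B : ℝ) ^ 2 / (P : ℝ) ^ 2 + 6 * B / n1 := by
        field_simp
        ring

end Pool.Agent.HGR
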