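import Pool.Agent.HGR.Targets

/-!
# Solutions of a linear equation in a box
-/

set_option autoImplicit false

namespace Pool.Agent.HGR

namespace LIN_

theorem aux (H : ℕ) (r s A : ℤ) (h : IsCoprime r s) (hr : r ≠ 0) :
    {p : ℤ × ℤ | |p.1| ≤ (H : ℤ) ∧ |p.2| ≤ (H : ℤ) ∧ s * p.1 - r * p.2 = A}.ncard ≤
      2 * H / r.natAbs + 1 := by
  have hY : 0 < r.natAbs := Int.natAbs_pos.2 hr
  have hYr : (r.natAbs : ℤ) = |r| := Int.natCast_natAbs r
  have hYpos : (0 : ℤ) < (r.natAbs : ℤ) := by exact_mod_cast hY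
  have hcard : ((Finset.range (2 * H / r.natAbs + 1) : Finset ℕ) : Set ℕ).ncard =
      2 * H / r.natAbs + 1 := by
    rw [Set.ncard_coe_finset, Finset.card_range]
  rw [← hcard]
  refine Set.ncard_le_ncard_of_injOn (fun p : ℤ × ℤ => ((p.1 + H) / (r.natAbs : ℤ)).toNat) ?_ ?_
    (Finset.finite_toSet _)
  · rintro ⟨p, q⟩ ⟨h1, -, -⟩
    simp only [Finset.coe_range, Set.mem_Iio] at h1 ⊢
    have h2 := abs_le.1 h1
    rw [Nat.lt_succ_iff, Int.toNat_le]
    have h3 : (p + H) / (r.natAbs : ℤ) ≤ (2 * H : ℤ) / (r.natAbs : ℤ) :=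
      Int.ediv_le_ediv hYpos (by linarith [h2.2])
    refine h3.trans (le_of_eq ?_)
    push_cast
    rfl
  · rintro ⟨p, q⟩ ⟨h1, -, h3⟩ ⟨p', q'⟩ ⟨h1', -, h3'⟩ heq
    simp only at h1 h3 h1' h3' heq
    have h2 := abs_le.1 h1
    have h2' := abs_le.1 h1'
    have hnn : 0 ≤ (p + H) / (r.natAbs : ℤ) := Int.ediv_nonneg (by linarith [h2.1]) hYpos.le
    have hnn' : 0 ≤ (p' + H) / (r.natAbs : ℤ) := Int.ediv_nonneg (by linarith [h2'.1]) hYpos.le
    have heq' : (p + H) / (r.natAbs : ℤ) = (p' + H) / (r.natAbs : ℤ) := by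
      have := congrArg (fun x : ℕ => (x : ℤ)) heq
      simp only [Int.toNat_of_nonneg hnn, Int.toNat_of_nonneg hnn'] at this
      exact this
    have hdvd : (r.natAbs : ℤ) ∣ (p + H) - (p' + H) := by
      rw [Int.natAbs_dvd]
      have : r ∣ s * (p - p') := ⟨q - q', by linear_combination h3 - h3'⟩
      have := h.dvd_of_dvd_mul_left this
      have e : (p + H) - (p' + H) = p - p' := by ring
      rw [e]
      exact this
    have hmod : (p + H) % (r.natAbs : ℤ) = (p' + H) % (r.natAbs : ℤ) :=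
      Int.emod_eq_emod_iff_emod_sub_eq_zero.2 (Int.emod_eq_zero_of_dvd hdvd)
    have e1 := Int.emod_add_mul_ediv (p + H) (r.natAbs : ℤ)
    have e2 := Int.emod_add_mul_ediv (p' + H) (r.natAbs : ℤ)
    have hp : p = p' := by
      rw [hmod, heq'] at e1
      linarith
    have hq : q = q' := by
      have : r * (q - q') = 0 := by rw [hp] at h3; linear_combination h3' - h3
      rcases mul_eq_zero.1 this with h4 | h4
      · exact absurd h4 hr
      · linarith
    rw [hp, hq]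

end LIN_

open LIN_

theorem p_LIN : T_LIN := by
  intro H r s A h
  by_cases hrs : s.natAbs ≤ r.natAbs
  · have hr : r ≠ 0 := by
      rintro rfl
      simp only [Int.natAbs_zero, Nat.le_zero, Int.natAbs_eq_zero] at hrs
      rw [hrs] at h
      exact not_isCoprime_zero_zero h
    have hm : mx r s = r.natAbs := by simp [mx, hrs]
    rw [hm]
    exact aux H r s A h hr
  · push Not at hrs
    have hs : s ≠ 0 := by
      rintro rfl
      simp at hrs
    have hm : mx r s = s.natAbs := by simp [mx, hrs.le]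
    rw [hm]
    have h2 := aux H s r (-A) h.symm hs
    refine le_trans (le_of_eq ?_) h2
    refine Set.ncard_congr (fun p _ => (p.2, p.1)) ?_ ?_ ?_
    · rintro ⟨p, q⟩ ⟨h3, h4, h5⟩
      exact ⟨h4, h3, by simp only at h5 ⊢; linarith⟩
    · rintro ⟨p, q⟩ ⟨p', q'⟩ _ _ h6
      simp only [Prod.mk.injEq] at h6 ⊢
      exact ⟨h6.2, h6.1⟩
    · rintro ⟨p, q⟩ ⟨h3, h4, h5⟩
      exact ⟨(q, p), ⟨h4, h3, by simp only at h5 ⊢; linarith⟩, rfl⟩

end Pool.Agent.HGR
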