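import Pool.Agent.HGR.Targets

set_option autoImplicit false

/-!
# LOW: lower bounds for the numbers of maps
-/

namespace Pool.Agent.HGR

open Finset
open scoped BigOperators

namespace LOW_

/-- No zero where the last coefficient dominates. -/
lemma noZero {n : ℕ} {H : ℕ} (hn : 1 ≤ n) (F : Fin (n + 1) → ℤ) (hl : (H : ℤ) < 2 * F (Fin.last n))
    (hs : ∀ i : Fin n, |F i.castSucc| ≤ (H / (2 * n) : ℕ)) (x y : ℂ) (hxy : ‖y‖ ≤ ‖x‖)
    (h : val F x y = 0) : x = 0 := by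
  by_contra hx
  have hxp : 0 < ‖x‖ := norm_pos_iff.2 hx
  unfold val at h
  rw [Fin.sum_univ_castSucc] at h
  simp only [Fin.val_castSucc, Fin.val_last] at h
  have h1 : ((F (Fin.last n) : ℤ) : ℂ) * x ^ n * y ^ (n + 1 - 1 - n) =
      - ∑ i : Fin n, ((F i.castSucc : ℤ) : ℂ) * x ^ (i : ℕ) * y ^ (n + 1 - 1 - (i : ℕ)) := by
    linear_combination h
  have h2 := congrArg norm h1
  rw [norm_neg, norm_mul, norm_mul, norm_pow, norm_pow, Complex.norm_intCast,
    show n + 1 - 1 - n = 0 by omega, pow_zero, mul_one] at h2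
  have hn0 : (0 : ℝ) < n := by exact_mod_cast hn
  have hq : ((H / (2 * n) : ℕ) : ℝ) ≤ H / (2 * n) := by
    have := Nat.cast_div_le (α := ℝ) (m := H) (n := 2 * n)
    push_cast at this
    exact this
  have h3 : ‖∑ i : Fin n, ((F i.castSucc : ℤ) : ℂ) * x ^ (i : ℕ) * y ^ (n + 1 - 1 - (i : ℕ))‖ ≤
      ∑ _i : Fin n, (H / (2 * n) : ℝ) * ‖x‖ ^ n := by
    refine (norm_sum_le _ _).trans (Finset.sum_le_sum (fun i _ => ?_))
    rw [norm_mul, norm_mul, norm_pow, norm_pow, Complex.norm_intCast]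
    have h4 : |((F i.castSucc : ℤ) : ℝ)| ≤ H / (2 * n) := by
      have h5 : |((F i.castSucc : ℤ) : ℝ)| ≤ ((H / (2 * n) : ℕ) : ℝ) := by
        have h6 := (Int.cast_le (R := ℝ)).2 (hs i)
        rwa [Int.cast_natCast, Int.cast_abs] at h6
      exact h5.trans hq
    have h6 : ‖x‖ ^ n = ‖x‖ ^ (i : ℕ) * ‖x‖ ^ (n + 1 - 1 - (i : ℕ)) := by
      rw [← pow_add]
      congr 1
      omega
    rw [h6, mul_assoc]
    apply mul_le_mul h4 _ (by positivity) (by positivity)
    exact mul_le_mul_of_nonneg_left (pow_le_pow_left₀ (norm_nonneg _) hxy _) (by positivity)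
  rw [← h2, Finset.sum_const, Finset.card_univ, Fintype.card_fin, nsmul_eq_mul] at h3
  have h7 : (n : ℝ) * (H / (2 * n) * ‖x‖ ^ n) = H / 2 * ‖x‖ ^ n := by
    field_simp
  rw [h7] at h3
  have h8 : (H : ℝ) / 2 < |((F (Fin.last n) : ℤ) : ℝ)| := by
    have h9 : (H : ℝ) < 2 * (F (Fin.last n) : ℤ) := by exact_mod_cast hl
    have h10 := le_abs_self ((F (Fin.last n) : ℤ) : ℝ)
    linarith
  have h11 : 0 < ‖x‖ ^ n := pow_pos hxp n
  nlinarith

/-- Reversal of the coefficients exchanges the variables. -/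
lemma val_rev {R : Type} [CommRing R] {n : ℕ} (F : Fin (n + 1) → ℤ) (x y : R) :
    val (fun i => F (Fin.rev i)) y x = val F x y := by
  unfold val
  rw [← Equiv.sum_comp Fin.revPerm]
  apply Finset.sum_congr rfl
  intro i _
  simp only [Fin.revPerm_apply, Fin.rev_rev, Fin.val_rev]
  have e1 : n + 1 - 1 - (n + 1 - ((i : ℕ) + 1)) = i := by omega
  have e2 : n + 1 - ((i : ℕ) + 1) = n + 1 - 1 - (i : ℕ) := by omega
  rw [e1, e2]
  ring

/-- The maps in the box. -/
lemma mem_maps {d H : ℕ} (hd : 1 ≤ d) (F G : Fin (d + 1) → ℤ)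
    (hF1 : (H : ℤ) < 2 * F (Fin.last d)) (hF2 : F (Fin.last d) ≤ H)
    (hF3 : ∀ i : Fin d, |F i.castSucc| ≤ (H / (2 * d) : ℕ))
    (hG1 : (H : ℤ) < 2 * G 0) (hG2 : G 0 ≤ H)
    (hG3 : ∀ i : Fin d, |G i.succ| ≤ (H / (2 * d) : ℕ)) : (F, G) ∈ Maps d H := by
  have hq : ((H / (2 * d) : ℕ) : ℤ) ≤ H := by exact_mod_cast Nat.div_le_self _ _
  have hH : (0 : ℤ) ≤ H := Nat.cast_nonneg _
  refine ⟨?_, ?_, ?_⟩
  · intro i
    refine Fin.lastCases ?_ (fun i => (hF3 i).trans hq) i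
    show |F (Fin.last d)| ≤ H
    rw [abs_of_nonneg (by omega)]
    exact hF2
  · intro i
    refine Fin.cases ?_ (fun i => (hG3 i).trans hq) i
    show |G 0| ≤ H
    rw [abs_of_nonneg (by omega)]
    exact hG2
  · intro x y hx hy
    rcases le_total ‖y‖ ‖x‖ with h | h
    · have h1 := noZero hd F hF1 hF3 x y h hx
      refine ⟨h1, ?_⟩
      rw [h1, norm_zero] at h
      exact norm_le_zero_iff.1 h
    · have h1 : y = 0 := by
        apply noZero hd (fun i => G (Fin.rev i)) (H := H) _ _ y x h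
        · exact (val_rev G x y).trans hy
        · simp only [Fin.rev_last]
          exact hG1
        · intro i
          simp only [Fin.rev_castSucc]
          exact hG3 _
      refine ⟨?_, h1⟩
      rw [h1, norm_zero] at h
      exact norm_le_zero_iff.1 h

lemma finite_maps (d H : ℕ) : (Maps d H).Finite := by
  apply ((Fintype.piFinset (fun _ : Fin (d + 1) => Icc (-(H : ℤ)) H)) ×ˢ
    (Fintype.piFinset (fun _ : Fin (d + 1) => Icc (-(H : ℤ)) H))).finite_toSet.subset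
  rintro ⟨F, G⟩ ⟨h1, h2, _⟩
  rw [Finset.mem_coe, Finset.mem_product, Fintype.mem_piFinset, Fintype.mem_piFinset]
  exact ⟨fun i => Finset.mem_Icc.2 (abs_le.1 (h1 i)), fun i => Finset.mem_Icc.2 (abs_le.1 (h2 i))⟩

/-- number of integers in `(H/2, H]` -/
lemma card_top (H : ℕ) : (H : ℝ) / 2 ≤ ((Ioc ((H / 2 : ℕ) : ℤ) H).card : ℝ) := by
  rw [Int.card_Ioc]
  have h1 : ((H : ℤ) - ((H / 2 : ℕ) : ℤ)).toNat = H - H / 2 := by omega
  rw [h1, Nat.cast_sub (Nat.div_le_self _ _)]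
  have h2 := Nat.cast_div_le (α := ℝ) (m := H) (n := 2)
  push_cast at h2 ⊢
  linarith

lemma card_small (d H : ℕ) (hd : 1 ≤ d) : (H : ℝ) / (2 * d) ≤
    ((Icc (-((H / (2 * d) : ℕ) : ℤ)) ((H / (2 * d) : ℕ) : ℤ)).card : ℝ) := by
  rw [Int.card_Icc]
  have h1 : (((H / (2 * d) : ℕ) : ℤ) + 1 - -((H / (2 * d) : ℕ) : ℤ)).toNat =
      2 * (H / (2 * d)) + 1 := by omega
  rw [h1]
  have h2 : H < 2 * d * (H / (2 * d) + 1) := by
    have := Nat.lt_mul_div_succ H (show 0 < 2 * d by omega)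
    exact this
  have h3 : (H : ℝ) < 2 * d * ((H / (2 * d) : ℕ) + 1) := by exact_mod_cast h2
  have h4 : (0 : ℝ) < 2 * d := by
    have : (0 : ℝ) < d := by exact_mod_cast hd
    linarith
  rw [div_le_iff₀ h4]
  push_cast
  have h5 : (0 : ℝ) ≤ ((H / (2 * d) : ℕ) : ℝ) := Nat.cast_nonneg _
  nlinarith

end LOW_

open LOW_ in
theorem p_LOW : T_LOW := by
  classical
  intro d hd
  have hd0 : (0 : ℝ) < d := by exact_mod_cast hd
  refine ⟨1 / 4 * (1 / (2 * d)) ^ (2 * d), by positivity, ?_⟩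
  intro H hH
  have hH0 : (0 : ℝ) < H := by exact_mod_cast hH
  set T : Finset ℤ := Ioc ((H / 2 : ℕ) : ℤ) H with hT
  set Q : Finset ℤ := Icc (-((H / (2 * d) : ℕ) : ℤ)) ((H / (2 * d) : ℕ) : ℤ) with hQ
  have hT1 := card_top H
  have hQ1 := card_small d H hd
  rw [← hT] at hT1
  rw [← hQ] at hQ1
  have memT : ∀ z : ℤ, z ∈ T → (H : ℤ) < 2 * z ∧ z ≤ H := by
    intro z hz
    rw [hT, Finset.mem_Ioc] at hz
    omega
  have memQ : ∀ z : ℤ, z ∈ Q → |z| ≤ ((H / (2 * d) : ℕ) : ℤ) := by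
    intro z hz
    rw [hQ, Finset.mem_Icc] at hz
    exact abs_le.2 hz
  -- the boxes
  set BF : Finset (Fin (d + 1) → ℤ) :=
    Fintype.piFinset (Fin.snoc (α := fun _ => Finset ℤ) (fun _ : Fin d => Q) T) with hBF
  set BG : Finset (Fin (d + 1) → ℤ) :=
    Fintype.piFinset (Fin.cons (α := fun _ => Finset ℤ) T (fun _ : Fin d => Q)) with hBG
  have cF : BF.card = Q.card ^ d * T.card := by
    rw [hBF, Fintype.card_piFinset, Fin.prod_univ_castSucc]
    simp
  have cG : BG.card = T.card * Q.card ^ d := by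
    rw [hBG, Fintype.card_piFinset, Fin.prod_univ_succ]
    simp
  have hF : ∀ F ∈ BF, (H : ℤ) < 2 * F (Fin.last d) ∧ F (Fin.last d) ≤ H ∧
      ∀ i : Fin d, |F i.castSucc| ≤ (H / (2 * d) : ℕ) := by
    intro F hF
    rw [hBF, Fintype.mem_piFinset] at hF
    have h1 := hF (Fin.last d)
    rw [Fin.snoc_last] at h1
    refine ⟨(memT _ h1).1, (memT _ h1).2, fun i => ?_⟩
    have h2 := hF i.castSucc
    rw [Fin.snoc_castSucc] at h2
    exact memQ _ h2
  have hG : ∀ G ∈ BG, (H : ℤ) < 2 * G 0 ∧ G 0 ≤ H ∧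
      ∀ i : Fin d, |G i.succ| ≤ (H / (2 * d) : ℕ) := by
    intro G hG
    rw [hBG, Fintype.mem_piFinset] at hG
    have h1 := hG 0
    rw [Fin.cons_zero] at h1
    refine ⟨(memT _ h1).1, (memT _ h1).2, fun i => ?_⟩
    have h2 := hG i.succ
    rw [Fin.cons_succ] at h2
    exact memQ _ h2
  obtain ⟨e, rfl⟩ : ∃ e, d = e + 1 := ⟨d - 1, by omega⟩
  set BG0 : Finset (Fin (e + 1 + 1) → ℤ) :=
    Fintype.piFinset (Fin.cons (α := fun _ => Finset ℤ) T
      (Fin.snoc (α := fun _ => Finset ℤ) (fun _ : Fin e => Q) {0})) with hBG0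
  have cG0 : BG0.card = T.card * Q.card ^ e := by
    rw [hBG0, Fintype.card_piFinset, Fin.prod_univ_succ, Fin.prod_univ_castSucc]
    simp
  have hG0 : ∀ G ∈ BG0, G ∈ BG ∧ G (Fin.last (e + 1)) = 0 := by
    intro G hG
    rw [hBG0, Fintype.mem_piFinset] at hG
    constructor
    · rw [hBG, Fintype.mem_piFinset]
      intro i
      refine Fin.cases ?_ (fun i => ?_) i
      · have h1 := hG 0
        rw [Fin.cons_zero] at h1 ⊢
        exact h1
      · have h1 := hG i.succ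
        rw [Fin.cons_succ] at h1 ⊢
        revert h1
        refine Fin.lastCases ?_ (fun i => ?_) i
        · intro h1
          rw [Fin.snoc_last, Finset.mem_singleton] at h1
          rw [h1, hQ, Finset.mem_Icc]
          exact ⟨neg_nonpos.2 (Nat.cast_nonneg _), Nat.cast_nonneg _⟩
        · intro h1
          rw [Fin.snoc_castSucc] at h1
          exact h1
    · have h1 := hG (Fin.succ (Fin.last e))
      rw [Fin.cons_succ, Fin.snoc_last, Finset.mem_singleton] at h1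
      exact h1
  have hsub1 : ((BF ×ˢ BG0 : Finset _) : Set ((Fin (e + 1 + 1) → ℤ) × (Fin (e + 1 + 1) → ℤ))) ⊆
      {f | f ∈ Maps (e + 1) H ∧ HasPre f} := by
    rintro ⟨F, G⟩ hFG
    rw [Finset.mem_coe, Finset.mem_product] at hFG
    obtain ⟨a1, a2, a3⟩ := hF F hFG.1
    obtain ⟨b0, b4⟩ := hG0 G hFG.2
    obtain ⟨b1, b2, b3⟩ := hG G b0
    refine ⟨mem_maps hd F G a1 a2 a3 b1 b2 b3, (1, 0), by simp, 0, 1, Nat.zero_lt_one,
      (F (Fin.last (e + 1)) : ℚ), ?_, ?_⟩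
    · have : F (Fin.last (e + 1)) ≠ 0 := by omega
      exact_mod_cast this
    · have hv : ∀ c : Fin (e + 1 + 1) → ℤ, val c (1 : ℚ) 0 = c (Fin.last (e + 1)) := by
        intro c
        unfold val
        rw [Fin.sum_univ_castSucc, Finset.sum_eq_zero]
        · simp
        · intro i _
          have : e + 1 + 1 - 1 - ((i.castSucc : Fin (e + 1 + 1)) : ℕ) ≠ 0 := by
            have := i.2
            rw [Fin.val_castSucc]
            omega
          rw [zero_pow this, mul_zero]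
      simp only [Function.iterate_one, Function.iterate_zero, id_eq, step, hv, b4, Int.cast_zero,
        Prod.smul_mk, smul_eq_mul, mul_one, mul_zero]
  have hsub2 : ((BF ×ˢ BG : Finset _) : Set ((Fin (e + 1 + 1) → ℤ) × (Fin (e + 1 + 1) → ℤ))) ⊆
      Maps (e + 1) H := by
    rintro ⟨F, G⟩ hFG
    rw [Finset.mem_coe, Finset.mem_product] at hFG
    obtain ⟨a1, a2, a3⟩ := hF F hFG.1
    obtain ⟨b1, b2, b3⟩ := hG G hFG.2
    exact mem_maps hd F G a1 a2 a3 b1 b2 b3
  have hfin := finite_maps (e + 1) H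
  have hfin' : ({f | f ∈ Maps (e + 1) H ∧ HasPre f} :
      Set ((Fin (e + 1 + 1) → ℤ) × (Fin (e + 1 + 1) → ℤ))).Finite :=
    hfin.subset (fun f hf => hf.1)
  have n1 := Set.ncard_le_ncard hsub1 hfin'
  have n2 := Set.ncard_le_ncard hsub2 hfin
  rw [Set.ncard_coe_finset, Finset.card_product, cF] at n1 n2
  rw [cG0] at n1
  rw [cG] at n2
  have r1 : ((Q.card : ℝ) ^ (e + 1) * T.card * (T.card * (Q.card : ℝ) ^ e)) ≤
      ({f | f ∈ Maps (e + 1) H ∧ HasPre f} :
      Set ((Fin (e + 1 + 1) → ℤ) × (Fin (e + 1 + 1) → ℤ))).ncard := by exact_mod_cast n1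
  have r2 : ((Q.card : ℝ) ^ (e + 1) * T.card * (T.card * (Q.card : ℝ) ^ (e + 1))) ≤
      (Maps (e + 1) H).ncard := by exact_mod_cast n2
  set D : ℝ := 2 * ((e + 1 : ℕ) : ℝ) with hD
  have hD1 : 1 ≤ D := by
    rw [hD]
    push_cast
    have : (0 : ℝ) ≤ e := Nat.cast_nonneg _
    linarith
  have hD0 : 0 < D := by linarith
  have hq0 : 0 ≤ (H : ℝ) / D := by positivity
  have ht0 : 0 ≤ (H : ℝ) / 2 := by positivity
  constructor
  · refine le_trans ?_ r1
    calc 1 / 4 * (1 / D) ^ (2 * (e + 1)) * (H : ℝ) ^ (2 * (e + 1) + 1)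
        ≤ 1 / 4 * (1 / D) ^ (2 * e + 1) * (H : ℝ) ^ (2 * (e + 1) + 1) := by
          apply mul_le_mul_of_nonneg_right _ (by positivity)
          apply mul_le_mul_of_nonneg_left _ (by norm_num)
          apply pow_le_pow_of_le_one (by positivity) _ (by omega)
          rw [div_le_one hD0]
          exact hD1
      _ = (H / D) ^ (e + 1) * (H / 2) * ((H / 2) * (H / D) ^ e) := by
          rw [div_pow, div_pow, div_pow]
          field_simp
          ring
      _ ≤ _ := by gcongr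
  · refine le_trans ?_ r2
    calc 1 / 4 * (1 / D) ^ (2 * (e + 1)) * (H : ℝ) ^ (2 * (e + 1) + 2)
        = (H / D) ^ (e + 1) * (H / 2) * ((H / 2) * (H / D) ^ (e + 1)) := by
          rw [div_pow, div_pow]
          field_simp
          ring
      _ ≤ _ := by gcongr

end Pool.Agent.HGR
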