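import Pool.Agent.HGR.Targets

set_option autoImplicit false

/-! # HGR-MIN: the minors of a bad map of degree three -/

namespace Pool.Agent.HGR

open Finset

namespace MIN_

lemma val3 {R : Type} [CommRing R] (c : Fin 4 → ℤ) (x y : R) : val c x y =
    (c 0 : R) * y ^ 3 + (c 1 : R) * x * y ^ 2 + (c 2 : R) * x ^ 2 * y + (c 3 : R) * x ^ 3 := by
  simp [val, Fin.sum_univ_four]

lemma ww0 (p : Fin 3 → ℤ) (F : Fin 4 → ℤ) : WW p F 0 =
    -(F 1 * p 2 ^ 2) + F 2 * (p 1 * p 2) + F 3 * (p 0 * p 2 - p 1 ^ 2) := rfl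

lemma ww1 (p : Fin 3 → ℤ) (F : Fin 4 → ℤ) : WW p F 1 =
    F 0 * p 2 ^ 2 - F 2 * (p 0 * p 2) + F 3 * (p 0 * p 1) := rfl

lemma ww2 (p : Fin 3 → ℤ) (F : Fin 4 → ℤ) : WW p F 2 =
    -(F 0 * (p 1 * p 2)) + F 1 * (p 0 * p 2) - F 3 * p 0 ^ 2 := rfl

lemma ww3 (p : Fin 3 → ℤ) (F : Fin 4 → ℤ) : WW p F 3 =
    -(F 0 * (p 0 * p 2 - p 1 ^ 2)) - F 1 * (p 0 * p 1) + F 2 * p 0 ^ 2 := rfl

/-- the minors of a map do not all vanish -/
lemma no_zero {p : Fin 3 → ℤ} (hp : p ≠ 0) {H : ℕ} {f : (Fin 4 → ℤ) × (Fin 4 → ℤ)}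
    (hf : f ∈ Maps 3 H) (h1 : WW p f.1 = 0) (h2 : WW p f.2 = 0) : False := by
  obtain ⟨_, _, hf⟩ := hf
  by_cases hp0 : p 0 = 0
  · have key : ∀ F : Fin 4 → ℤ, WW p F = 0 → val F (0 : ℂ) (1 : ℂ) = 0 := by
      intro F hF
      have e1 := congrFun hF 1
      have e3 := congrFun hF 3
      rw [ww1, hp0] at e1
      rw [ww3, hp0] at e3
      simp only [Pi.zero_apply] at e1 e3
      have h0 : F 0 = 0 := by
        by_contra hc
        apply hp
        have g2 : p 2 = 0 := by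
          have : F 0 * p 2 ^ 2 = 0 := by linear_combination e1
          have := (mul_eq_zero.1 this).resolve_left hc
          exact pow_eq_zero_iff (two_ne_zero) |>.1 this
        have g1 : p 1 = 0 := by
          have : F 0 * p 1 ^ 2 = 0 := by linear_combination e3
          have := (mul_eq_zero.1 this).resolve_left hc
          exact pow_eq_zero_iff (two_ne_zero) |>.1 this
        funext i
        fin_cases i
        · exact hp0
        · exact g1
        · exact g2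
      rw [val3, h0]
      simp
    have := hf 0 1 (key _ h1) (key _ h2)
    exact one_ne_zero this.2
  · have hp0' : (p 0 : ℂ) ≠ 0 := by exact_mod_cast hp0
    obtain ⟨y, hy⟩ : ∃ y : ℂ, (p 0 : ℂ) * (y * y) + (p 1 : ℂ) * y + (p 2 : ℂ) = 0 := by
      apply exists_quadratic_eq_zero hp0'
      obtain ⟨z, hz⟩ := IsAlgClosed.exists_pow_nat_eq (discrim (p 0 : ℂ) (p 1) (p 2))
        (n := 2) (by norm_num)
      exact ⟨z, by rw [← hz, sq]⟩
    have key : ∀ F : Fin 4 → ℤ, WW p F = 0 → val F (1 : ℂ) y = 0 := by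
      intro F hF
      have e2 := congrFun hF 2
      have e3 := congrFun hF 3
      rw [ww2] at e2
      rw [ww3] at e3
      simp only [Pi.zero_apply] at e2 e3
      have c2 : -((F 0 : ℂ) * (p 1 * p 2)) + F 1 * (p 0 * p 2) - F 3 * p 0 ^ 2 = 0 := by
        exact_mod_cast e2
      have c3 : -((F 0 : ℂ) * (p 0 * p 2 - p 1 ^ 2)) - F 1 * (p 0 * p 1) + F 2 * p 0 ^ 2 = 0 := by
        exact_mod_cast e3
      have h3 : (p 0 : ℂ) ^ 2 * val F (1 : ℂ) y = 0 := by
        rw [val3]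
        linear_combination ((F 1 * p 0 - F 0 * p 1 : ℂ) + F 0 * p 0 * y) * hy + y * c3 - c2
      exact (mul_eq_zero.1 h3).resolve_left (pow_ne_zero 2 hp0')
    have := hf 1 y (key _ h1) (key _ h2)
    exact one_ne_zero this.1

lemma le_nrm {n : ℕ} (p : Fin n → ℤ) (i : Fin n) : (p i).natAbs ≤ nrm p :=
  Finset.le_sup (f := fun i => (p i).natAbs) (Finset.mem_univ i)

lemma abs_le_nrm {n : ℕ} (p : Fin n → ℤ) (i : Fin n) : |p i| ≤ (nrm p : ℤ) := by
  rw [Int.abs_eq_natAbs]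
  exact_mod_cast le_nrm p i

/-- the size of the minors -/
lemma ww_le {p : Fin 3 → ℤ} {F : Fin 4 → ℤ} {H : ℕ} (hF : ∀ i, |F i| ≤ (H : ℤ)) (i : Fin 4) :
    |WW p F i| ≤ 6 * H * (nrm p : ℤ) ^ 2 := by
  set z : ℤ := (nrm p : ℤ) with hz
  have hz0 : 0 ≤ z := by positivity
  have hH0 : (0 : ℤ) ≤ H := by positivity
  have hp := fun i => abs_le_nrm p i
  have q : ∀ i j, |p i * p j| ≤ z ^ 2 := by
    intro i j
    rw [abs_mul, sq]
    exact mul_le_mul (hp i) (hp j) (abs_nonneg _) hz0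
  have m : ∀ (k : Fin 4) (t : ℤ) (c : ℤ), |t| ≤ c → |F k * t| ≤ H * c := by
    intro k t c ht
    rw [abs_mul]
    exact mul_le_mul (hF k) ht (abs_nonneg _) hH0
  have t1 : |p 0 * p 2 - p 1 ^ 2| ≤ 2 * z ^ 2 := by
    rw [sq (p 1)]
    exact (abs_sub _ _).trans (by linarith [q 0 2, q 1 1])
  have hz2 : 0 ≤ (H : ℤ) * z ^ 2 := by positivity
  fin_cases i
  · show |WW p F 0| ≤ _
    rw [ww0, sq (p 2)]
    have a1 := abs_le.1 (m 1 _ _ (q 2 2))
    have a2 := abs_le.1 (m 2 _ _ (q 1 2))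
    have a3 := abs_le.1 (m 3 _ _ t1)
    rw [abs_le]
    constructor <;> linarith
  · show |WW p F 1| ≤ _
    rw [ww1, sq (p 2)]
    have a1 := abs_le.1 (m 0 _ _ (q 2 2))
    have a2 := abs_le.1 (m 2 _ _ (q 0 2))
    have a3 := abs_le.1 (m 3 _ _ (q 0 1))
    rw [abs_le]
    constructor <;> linarith
  · show |WW p F 2| ≤ _
    rw [ww2, sq (p 0)]
    have a1 := abs_le.1 (m 0 _ _ (q 1 2))
    have a2 := abs_le.1 (m 1 _ _ (q 0 2))
    have a3 := abs_le.1 (m 3 _ _ (q 0 0))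
    rw [abs_le]
    constructor <;> linarith
  · show |WW p F 3| ≤ _
    rw [ww3, sq (p 0)]
    have a1 := abs_le.1 (m 0 _ _ t1)
    have a2 := abs_le.1 (m 1 _ _ (q 0 1))
    have a3 := abs_le.1 (m 2 _ _ (q 0 0))
    rw [abs_le]
    constructor <;> linarith

end MIN_

open MIN_ in
theorem p_MIN : T_MIN := by
  intro H C hH f hf
  obtain ⟨hmaps, a, b, r, s, Ψ, hW, hrs⟩ := hf
  -- the primitive vector
  obtain ⟨p, hp, hp1⟩ := Finset.extract_gcd Ψ (Finset.univ_nonempty (α := Fin 3))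
  set c : ℤ := Finset.univ.gcd Ψ with hc
  have hp' : ∀ i, Ψ i = c * p i := fun i => hp i (Finset.mem_univ i)
  have hprim : Prim p := by
    intro q hq
    have h1 : q ∣ Finset.univ.gcd p := Finset.dvd_gcd fun i _ => hq i
    rw [hp1] at h1
    exact isUnit_of_dvd_one h1
  have hc0 : c ≠ 0 := by
    intro h0
    apply hW.nz
    funext i
    rw [hp' i, h0, zero_mul]
    rfl
  have hpne : p ≠ 0 := by
    intro h0
    apply hW.nz
    funext i
    rw [hp' i, h0]
    simp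
  -- the relations
  have e0 : s * f.1 0 - r * f.2 0 = -(a * (c * p 0)) := by
    have := hW.rel 0
    simpa [mulL, co, hp'] using this
  have e1 : s * f.1 1 - r * f.2 1 = b * (c * p 0) - a * (c * p 1) := by
    have := hW.rel 1
    simpa [mulL, co, hp'] using this
  have e2 : s * f.1 2 - r * f.2 2 = b * (c * p 1) - a * (c * p 2) := by
    have := hW.rel 2
    simpa [mulL, co, hp'] using this
  have e3 : s * f.1 3 - r * f.2 3 = b * (c * p 2) := by
    have := hW.rel 3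
    simpa [mulL, co, hp'] using this
  have hww : ∀ i, s * WW p f.1 i = r * WW p f.2 i := by
    intro i
    fin_cases i
    · show s * WW p f.1 0 = r * WW p f.2 0
      rw [ww0, ww0]
      linear_combination (-(p 2 ^ 2)) * e1 + (p 1 * p 2) * e2 + (p 0 * p 2 - p 1 ^ 2) * e3
    · show s * WW p f.1 1 = r * WW p f.2 1
      rw [ww1, ww1]
      linear_combination (p 2 ^ 2) * e0 - (p 0 * p 2) * e2 + (p 0 * p 1) * e3
    · show s * WW p f.1 2 = r * WW p f.2 2
      rw [ww2, ww2]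
      linear_combination (-(p 1 * p 2)) * e0 + (p 0 * p 2) * e1 - (p 0 ^ 2) * e3
    · show s * WW p f.1 3 = r * WW p f.2 3
      rw [ww3, ww3]
      linear_combination (-(p 0 * p 2 - p 1 ^ 2)) * e0 - (p 0 * p 1) * e1 + (p 0 ^ 2) * e2
  obtain ⟨u, v, huv⟩ := hW.rs
  obtain ⟨M, hM⟩ : ∃ M : Fin 4 → ℤ, M = fun i => u * WW p f.1 i + v * WW p f.2 i := ⟨_, rfl⟩
  have hMi : ∀ i, M i = u * WW p f.1 i + v * WW p f.2 i := fun i => by rw [hM]
  have hF : ∀ i, WW p f.1 i = r * M i := by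
    intro i
    rw [hMi]
    linear_combination v * hww i - WW p f.1 i * huv
  have hG : ∀ i, WW p f.2 i = s * M i := by
    intro i
    rw [hMi]
    linear_combination -u * hww i - WW p f.2 i * huv
  have hX : 0 < mx a b := by
    rcases Nat.eq_zero_or_pos (mx a b) with h0 | h0
    · have h1 := hW.le
      omega
    · exact h0
  have hpn : ∀ i, (p i).natAbs ≤ (Ψ i).natAbs := by
    intro i
    rw [hp' i, Int.natAbs_mul]
    exact Nat.le_mul_of_pos_left _ (Int.natAbs_pos.2 hc0)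
  refine ⟨p, M, r, s, hprim, ⟨?_, ?_⟩, ?_, ?_, ?_, ?_, ?_, hrs, ?_, ?_⟩
  · rw [hMi, hMi, hMi, ww0, ww0, ww1, ww1, ww2, ww2]
    ring
  · rw [hMi, hMi, hMi, ww1, ww1, ww2, ww2, ww3, ww3]
    ring
  · intro h0
    apply no_zero hpne hmaps
    · funext i
      rw [hF i, h0]
      simp
    · funext i
      rw [hG i, h0]
      simp
  · funext i
    rw [hF i]
    rfl
  · funext i
    rw [hG i]
    rfl
  · -- 1 ≤ nrm p
    by_contra h0
    apply hpne
    funext i
    have h1 := le_nrm p i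
    have h2 : (p i).natAbs = 0 := by omega
    exact Int.natAbs_eq_zero.1 h2
  · -- nrm p ≤ 6 * H
    apply Finset.sup_le
    intro i _
    refine (hpn i).trans ?_
    have h1 := hW.size i
    have h2 : (mx r s : ℤ) ≤ mx a b := by exact_mod_cast hW.le
    have h3 : (mx a b : ℤ) * |Ψ i| ≤ mx a b * (6 * H) := by
      calc (mx a b : ℤ) * |Ψ i| ≤ 2 * (3 : ℕ) * H * mx r s := h1
        _ ≤ 2 * (3 : ℕ) * H * mx a b := by gcongr
        _ = mx a b * (6 * H) := by push_cast; ring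
    have h4 : |Ψ i| ≤ 6 * H := le_of_mul_le_mul_left h3 (by exact_mod_cast hX)
    rw [Int.abs_eq_natAbs] at h4
    exact_mod_cast h4
  · -- mx r s ^ 2 ≤ C * H ^ 5
    have h1 := hW.res
    have h2 := hW.le
    have h3 : mx r s ^ 3 ≤ C * H ^ 5 * mx r s := (Nat.pow_le_pow_left h2 3).trans h1
    have h4 : mx r s * mx r s ^ 2 ≤ mx r s * (C * H ^ 5) := by
      calc mx r s * mx r s ^ 2 = mx r s ^ 3 := by ring
        _ ≤ C * H ^ 5 * mx r s := h3
        _ = _ := by ring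
    exact Nat.le_of_mul_le_mul_left h4 (by omega)
  · -- nrm M * mx r s ≤ 6 * H * nrm p ^ 2
    obtain ⟨i, _, hi⟩ := Finset.exists_mem_eq_sup Finset.univ Finset.univ_nonempty
      (fun i => (M i).natAbs)
    have h0 : nrm M = (M i).natAbs := hi
    rw [h0]
    have h1 : (M i).natAbs * r.natAbs ≤ 6 * H * nrm p ^ 2 := by
      have h2 := ww_le (p := p) hW.hF i
      rw [hF i, Int.abs_eq_natAbs, Int.natAbs_mul, mul_comm] at h2
      exact_mod_cast h2
    have h2 : (M i).natAbs * s.natAbs ≤ 6 * H * nrm p ^ 2 := by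
      have h2 := ww_le (p := p) hW.hG i
      rw [hG i, Int.abs_eq_natAbs, Int.natAbs_mul, mul_comm] at h2
      exact_mod_cast h2
    unfold mx
    rcases max_choice r.natAbs s.natAbs with h3 | h3
    · rw [h3]; exact h1
    · rw [h3]; exact h2

end Pool.Agent.HGR
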