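import Pool.Agent.HGR.Targets

set_option autoImplicit false

/-!
# HGR-N1: the number of the maps with a given witness
-/

namespace Pool.Agent.HGR

open Finset
open scoped BigOperators

namespace N1_

/-- the pairs on a line -/
noncomputable def LL (H : ℕ) (r s A : ℤ) : Finset (ℤ × ℤ) :=
  (Icc (-(H : ℤ)) H ×ˢ Icc (-(H : ℤ)) H).filter (fun p => s * p.1 - r * p.2 = A)

theorem coe_LL (H : ℕ) (r s A : ℤ) : ((LL H r s A : Finset (ℤ × ℤ)) : Set (ℤ × ℤ)) =
    {p : ℤ × ℤ | |p.1| ≤ (H : ℤ) ∧ |p.2| ≤ (H : ℤ) ∧ s * p.1 - r * p.2 = A} := by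
  ext p
  rw [Finset.mem_coe, LL, Finset.mem_filter, Finset.mem_product, Finset.mem_Icc, Finset.mem_Icc]
  change _ ↔ |p.1| ≤ (H : ℤ) ∧ |p.2| ≤ (H : ℤ) ∧ s * p.1 - r * p.2 = A
  rw [abs_le, abs_le]
  tauto

/-- the maps which satisfy the relation for one of the forms in a box -/
noncomputable def cand (d H z : ℕ) (a b r s : ℤ) :
    Finset ((Fin (d + 1) → ℤ) × (Fin (d + 1) → ℤ)) :=
  (Fintype.piFinset (fun _ : Fin d => Icc (-(z : ℤ)) z)).biUnion fun Ψ =>
    (Fintype.piFinset (fun j : Fin (d + 1) => LL H r s (mulL a b Ψ j))).image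
      fun h => (fun j => (h j).1, fun j => (h j).2)

theorem card_cand (h1 : T_LIN) (d H z : ℕ) (a b r s : ℤ) (hrs : IsCoprime r s) :
    (cand d H z a b r s).card ≤ (2 * z + 1) ^ d * (2 * H / mx r s + 1) ^ (d + 1) := by
  unfold cand
  refine Finset.card_biUnion_le.trans ?_
  have h2 : ∀ Ψ ∈ Fintype.piFinset (fun _ : Fin d => Icc (-(z : ℤ)) z),
      ((Fintype.piFinset (fun j : Fin (d + 1) => LL H r s (mulL a b Ψ j))).image
        fun h => ((fun j => (h j).1, fun j => (h j).2) :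
          (Fin (d + 1) → ℤ) × (Fin (d + 1) → ℤ))).card ≤ (2 * H / mx r s + 1) ^ (d + 1) := by
    intro Ψ _
    refine Finset.card_image_le.trans ?_
    rw [Fintype.card_piFinset]
    calc ∏ j : Fin (d + 1), (LL H r s (mulL a b Ψ j)).card
        ≤ ∏ _j : Fin (d + 1), (2 * H / mx r s + 1) := by
          refine Finset.prod_le_prod' fun j _ => ?_
          have := h1 H r s (mulL a b Ψ j) hrs
          rw [← coe_LL, Set.ncard_coe_finset] at this
          exact this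
      _ = _ := by rw [Finset.prod_const, Finset.card_univ, Fintype.card_fin]
  refine (Finset.sum_le_card_nsmul _ _ _ h2).trans (le_of_eq ?_)
  rw [Fintype.card_piFinset, Finset.prod_const, Finset.card_univ, Fintype.card_fin, smul_eq_mul,
    Int.card_Icc]
  congr 2
  omega

theorem mem_cand {d H C z : ℕ} {a b r s : ℤ} {f : (Fin (d + 1) → ℤ) × (Fin (d + 1) → ℤ)}
    {Ψ : Fin d → ℤ} (hW : Wit d H C f.1 f.2 a b r s Ψ) (hz : ∀ j, |Ψ j| ≤ (z : ℤ)) :
    f ∈ cand d H z a b r s := by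
  unfold cand
  rw [Finset.mem_biUnion]
  refine ⟨Ψ, ?_, ?_⟩
  · rw [Fintype.mem_piFinset]
    intro j
    rw [Finset.mem_Icc]
    exact abs_le.1 (hz j)
  · rw [Finset.mem_image]
    refine ⟨fun j => (f.1 j, f.2 j), ?_, rfl⟩
    rw [Fintype.mem_piFinset]
    intro j
    have h1 : ((f.1 j, f.2 j) : ℤ × ℤ) ∈ ((LL H r s (mulL a b Ψ j) : Finset (ℤ × ℤ)) :
        Set (ℤ × ℤ)) := by
      rw [coe_LL]
      exact ⟨hW.hF j, hW.hG j, hW.rel j⟩
    exact h1

end N1_

theorem p_N1 (h1 : T_LIN) : T_N1 := by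
  intro d H C hH a b r s hY1 hY2
  rcases Set.eq_empty_or_nonempty
    {f : (Fin (d + 1) → ℤ) × (Fin (d + 1) → ℤ) | ∃ Ψ, Wit d H C f.1 f.2 a b r s Ψ} with h0 | h0
  · rw [h0]
    refine ⟨Set.finite_empty, ?_⟩
    rw [Set.ncard_empty]
    push_cast
    positivity
  · obtain ⟨f0, Ψ0, hW0⟩ := h0
    set X := mx a b with hX
    set Y := mx r s with hY
    have hX1 : 1 ≤ X := by
      by_contra hc
      have hX0 : X = 0 := by omega
      have ha : a = 0 := by
        have : a.natAbs ≤ X := le_max_left _ _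
        omega
      have hb : b = 0 := by
        have : b.natAbs ≤ X := le_max_right _ _
        omega
      have := hW0.ab
      rw [ha, hb] at this
      exact not_isCoprime_zero_zero this
    obtain ⟨j0, hj0⟩ : ∃ j, Ψ0 j ≠ 0 := by
      by_contra hc
      push Not at hc
      exact hW0.nz (funext hc)
    have hsz : ∀ (f : (Fin (d + 1) → ℤ) × (Fin (d + 1) → ℤ)) (Ψ : Fin d → ℤ),
        Wit d H C f.1 f.2 a b r s Ψ → ∀ j, |Ψ j| ≤ ((2 * d * H * Y / X : ℕ) : ℤ) := by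
      intro f Ψ hW j
      have h2 := hW.size j
      rw [← hX, ← hY] at h2
      rw [Int.abs_eq_natAbs] at h2 ⊢
      have h3 : X * (Ψ j).natAbs ≤ 2 * d * H * Y := by exact_mod_cast h2
      have h4 : (Ψ j).natAbs ≤ 2 * d * H * Y / X := by
        rw [Nat.le_div_iff_mul_le (by omega)]
        rw [mul_comm]; exact h3
      exact_mod_cast h4
    set z := 2 * d * H * Y / X with hz
    have hz1 : 1 ≤ z := by
      have h2 := hsz f0 Ψ0 hW0 j0
      have h3 : 1 ≤ |Ψ0 j0| := Int.one_le_abs hj0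
      omega
    have hsub : {f : (Fin (d + 1) → ℤ) × (Fin (d + 1) → ℤ) | ∃ Ψ, Wit d H C f.1 f.2 a b r s Ψ} ⊆
        ((N1_.cand d H z a b r s : Finset _) : Set _) := by
      rintro f ⟨Ψ, hW⟩
      exact N1_.mem_cand hW (hsz f Ψ hW)
    refine ⟨(Finset.finite_toSet _).subset hsub, ?_⟩
    have hc1 := Set.ncard_le_ncard hsub (Finset.finite_toSet _)
    rw [Set.ncard_coe_finset] at hc1
    have hc2 := hc1.trans (N1_.card_cand h1 d H z a b r s hW0.rs)
    rw [← hY] at hc2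
    have hXr : (0 : ℝ) < X := by exact_mod_cast hX1
    have hYr : (0 : ℝ) < Y := by exact_mod_cast hY1
    have b1 : ((2 * z + 1 : ℕ) : ℝ) ≤ 6 * d * H * Y / X := by
      have h2 : (z : ℝ) ≤ ((2 * d * H * Y : ℕ) : ℝ) / X := Nat.cast_div_le
      have h3 : (1 : ℝ) ≤ z := by exact_mod_cast hz1
      push_cast at h2 ⊢
      have h4 : (6 * (d : ℝ) * H * Y / X) = 3 * (2 * d * H * Y / X) := by ring
      rw [h4]
      linarith
    have b2 : ((2 * H / Y + 1 : ℕ) : ℝ) ≤ 4 * H / Y := by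
      have h2 : ((2 * H / Y : ℕ) : ℝ) ≤ ((2 * H : ℕ) : ℝ) / Y := Nat.cast_div_le
      have h3 : (1 : ℝ) ≤ 2 * H / Y := by
        rw [le_div_iff₀ hYr, one_mul]
        exact_mod_cast hY2
      push_cast at h2 ⊢
      have h4 : (4 * (H : ℝ) / Y) = 2 * H / Y + 2 * H / Y := by ring
      rw [h4]
      linarith
    calc (({f : (Fin (d + 1) → ℤ) × (Fin (d + 1) → ℤ) | ∃ Ψ,
          Wit d H C f.1 f.2 a b r s Ψ}.ncard : ℕ) : ℝ)
        ≤ (((2 * z + 1) ^ d * (2 * H / Y + 1) ^ (d + 1) : ℕ) : ℝ) := by exact_mod_cast hc2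
      _ = ((2 * z + 1 : ℕ) : ℝ) ^ d * ((2 * H / Y + 1 : ℕ) : ℝ) ^ (d + 1) := by
          rw [Nat.cast_mul, Nat.cast_pow, Nat.cast_pow]
      _ ≤ _ := by gcongr

end Pool.Agent.HGR
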