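import Pool.Agent.HGR.Targets

set_option autoImplicit false

/-!
# Second moment (target T_NU)
-/

namespace Pool.Agent.HGR

open Finset
open scoped BigOperators

namespace NU_

/-- the pointwise bound -/
theorem point (h1 : T_NUA) (m H z : ℕ) (hH : 1 ≤ H) (hz : 1 ≤ z) (hm : 2 * H < m) (A : ℤ) :
    ((nuS m H z A).card : ℝ) ^ 2 ≤ 4608 * ((z : ℝ) * H) ^ 2 / (m : ℝ) ^ 2 +
      72 * ∑ p ∈ latS m H z A, ((z : ℝ) * H / nn H z p) ^ 2 := by
  have hsum : 0 ≤ ∑ p ∈ latS m H z A, ((z : ℝ) * H / nn H z p) ^ 2 :=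
    Finset.sum_nonneg (fun p _ => sq_nonneg _)
  by_cases hne : (nuS m H z A).Nonempty
  · obtain ⟨p, hp, hle⟩ := h1 m H z hH hz hm A hne
    have hterm : ((z : ℝ) * H / nn H z p) ^ 2 ≤
        ∑ p ∈ latS m H z A, ((z : ℝ) * H / nn H z p) ^ 2 :=
      Finset.single_le_sum (f := fun p => ((z : ℝ) * H / nn H z p) ^ 2)
        (fun q _ => sq_nonneg _) hp
    have hc : (0 : ℝ) ≤ ((nuS m H z A).card : ℝ) := Nat.cast_nonneg _
    have hsq : ((nuS m H z A).card : ℝ) ^ 2 ≤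
        (48 * (z * H) / m + 6 * (z * H) / nn H z p) ^ 2 :=
      pow_le_pow_left₀ hc hle 2
    set u : ℝ := (z : ℝ) * H / m with hu
    set v : ℝ := (z : ℝ) * H / nn H z p with hv
    have e1 : (48 * ((z : ℝ) * H) / m + 6 * (z * H) / nn H z p) = 48 * u + 6 * v := by
      rw [hu, hv]; ring
    rw [e1] at hsq
    have e2 : 4608 * ((z : ℝ) * H) ^ 2 / (m : ℝ) ^ 2 = 4608 * u ^ 2 := by
      rw [hu]; ring
    rw [e2]
    nlinarith [sq_nonneg (48 * u - 6 * v)]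
  · rw [Finset.not_nonempty_iff_eq_empty] at hne
    rw [hne]
    have h0 : ((#(∅ : Finset ℤ) : ℕ) : ℝ) ^ 2 = 0 := by simp
    rw [h0]
    have h4 : 0 ≤ 4608 * ((z : ℝ) * H) ^ 2 / (m : ℝ) ^ 2 := by positivity
    linarith

end NU_

theorem p_NU (h1 : T_NUA) (h2 : T_NUS) : T_NU := by
  obtain ⟨K, hK, hs⟩ := h2
  refine ⟨4608 + 72 * K, by positivity, ?_⟩
  intro m H z hH hz hm
  have hsum := hs m H z hH hz hm
  have hm0 : (0 : ℝ) < m := by
    have : 0 < m := by omega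
    exact_mod_cast this
  have hH1 : (1 : ℝ) ≤ H := by exact_mod_cast hH
  have hz1 : (1 : ℝ) ≤ z := by exact_mod_cast hz
  have hlH : 0 ≤ Real.log H := Real.log_nonneg hH1
  have hlz : 0 ≤ Real.log z := Real.log_nonneg hz1
  set E : ℝ := (z : ℝ) * H * (1 + Real.log H) * (1 + Real.log z) +
    (z : ℝ) ^ 2 * (1 + Real.log z) with hE
  have hE0 : 0 ≤ E := by positivity
  have hstep : ∑ A ∈ range m, ((nuS m H z (A : ℤ)).card : ℝ) ^ 2 ≤
      ∑ A ∈ range m, (4608 * ((z : ℝ) * H) ^ 2 / (m : ℝ) ^ 2 +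
        72 * ∑ p ∈ latS m H z (A : ℤ), ((z : ℝ) * H / nn H z p) ^ 2) :=
    Finset.sum_le_sum (fun A _ => NU_.point h1 m H z hH hz hm A)
  have hq : ∑ A ∈ range m, (4608 * ((z : ℝ) * H) ^ 2 / (m : ℝ) ^ 2 +
        72 * ∑ p ∈ latS m H z (A : ℤ), ((z : ℝ) * H / nn H z p) ^ 2) =
      4608 * (((z : ℝ) * H) ^ 2 / m) +
        72 * ∑ A ∈ range m, ∑ p ∈ latS m H z (A : ℤ), ((z : ℝ) * H / nn H z p) ^ 2 := by
    rw [Finset.sum_add_distrib, Finset.sum_const, Finset.card_range, nsmul_eq_mul,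
      ← Finset.mul_sum]
    congr 1
    field_simp
  rw [hq] at hstep
  have hX : 0 ≤ ((z : ℝ) * H) ^ 2 / m := by positivity
  calc ∑ A ∈ range m, ((nuS m H z (A : ℤ)).card : ℝ) ^ 2
      ≤ 4608 * (((z : ℝ) * H) ^ 2 / m) + 72 * (K * E) := by linarith
    _ ≤ (4608 + 72 * K) * (E + ((z : ℝ) * H) ^ 2 / m) := by
        nlinarith [mul_nonneg hK.le hX, mul_nonneg hK.le hE0]

end Pool.Agent.HGR
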