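import Pool.Agent.HGR.Targets

set_option autoImplicit false

/-!
# HGR, job NUA: the shortest vector controls the number of points (MP_c076ed_nt)
-/

namespace Pool.Agent.HGR

open Finset
open scoped BigOperators

namespace NUA_

theorem gaps (E : Finset ℤ) (f : ℤ → ℤ) (M g : ℕ) (hg : 1 ≤ g) (h1 : ∀ x ∈ E, |f x| ≤ (M : ℤ))
    (h2 : ∀ x ∈ E, ∀ y ∈ E, x ≠ y → (g : ℤ) ≤ |f x - f y|) : E.card ≤ 2 * M / g + 1 := by
  have h3 : E.card ≤ (Finset.range (2 * M / g + 1)).card := by
    have hg0 : (0 : ℤ) < g := by exact_mod_cast hg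
    have hnn : ∀ x ∈ E, 0 ≤ (f x + M) / (g : ℤ) := by
      intro x hx
      have := abs_le.1 (h1 x hx)
      exact Int.ediv_nonneg (by linarith) hg0.le
    refine Finset.card_le_card_of_injOn (fun x => ((f x + M) / g).toNat) ?_ ?_
    · intro x hx
      have h4 := abs_le.1 (h1 x hx)
      have h5 : (f x + M) / (g : ℤ) ≤ ((2 * M / g : ℕ) : ℤ) := by
        push_cast
        exact Int.ediv_le_ediv hg0 (by linarith)
      have h6 := hnn x hx
      simp only [Finset.coe_range, Set.mem_Iio]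
      omega
    · intro x hx y hy hxy
      have h4 := hnn x hx
      have h5 := hnn y hy
      have h6 : (f x + M) / (g : ℤ) = (f y + M) / (g : ℤ) := by
        simp only at hxy
        omega
      by_contra hne
      have h7 := h2 x hx y hy hne
      have h8 := Int.mul_ediv_add_emod (f x + M) g
      have h9 := Int.mul_ediv_add_emod (f y + M) g
      have h10 := Int.emod_nonneg (f x + M) hg0.ne'
      have h11 := Int.emod_nonneg (f y + M) hg0.ne'
      have h12 := Int.emod_lt_of_pos (f x + M) hg0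
      have h13 := Int.emod_lt_of_pos (f y + M) hg0
      rw [h6] at h8
      have h14 : |f x - f y| < g := by
        rw [abs_lt]
        constructor <;> linarith
      exact absurd h7 (not_le.2 h14)
  rwa [Finset.card_range] at h3

theorem mem_lat {m H z : ℕ} {A : ℤ} {p : ℤ × ℤ} : p ∈ latS m H z A ↔
    (|p.1| ≤ 2 * z ∧ |p.2| ≤ 2 * H) ∧ p.1 ≠ 0 ∧ (m : ℤ) ∣ A * p.1 - p.2 := by
  unfold latS
  rw [mem_filter, mem_product, mem_Icc, mem_Icc, abs_le, abs_le]

theorem mem_nu {m H z : ℕ} {A y : ℤ} : y ∈ nuS m H z A ↔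
    |y| ≤ 2 * z ∧ y ≠ 0 ∧ ∃ e : ℤ, |e| ≤ 2 * H ∧ (m : ℤ) ∣ A * y - e := by
  unfold nuS
  classical
  rw [mem_filter, mem_Icc, abs_le]

theorem fib_bound {a b n : ℝ} {M g : ℕ} (hg : 1 ≤ g) (ha : (M : ℝ) = 2 * a) (hb : 0 < b)
    (hn : n = g * b) (h : n ≤ 2 * a * b) : ((2 * M / g + 1 : ℕ) : ℝ) ≤ 6 * (a * b) / n := by
  have hg0 : (0 : ℝ) < g := by exact_mod_cast hg
  have hn0 : 0 < n := by rw [hn]; positivity
  have h1 : ((2 * M / g : ℕ) : ℝ) ≤ 4 * (a * b) / n := by
    refine (Nat.cast_div_le).trans (le_of_eq ?_)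
    push_cast
    rw [ha, hn]
    field_simp
    ring
  have h2 : 1 ≤ 2 * (a * b) / n := by
    rw [le_div_iff₀ hn0]
    linarith
  push_cast
  calc ((2 * M / g : ℕ) : ℝ) + 1 ≤ 4 * (a * b) / n + 2 * (a * b) / n := add_le_add h1 h2
    _ = _ := by ring

end NUA_

open NUA_ in
/-- NUA -/
theorem p_NUA : T_NUA := by
  intro m H z hH hz hm A hne
  have hH0 : (0 : ℝ) < H := by exact_mod_cast hH
  have hz0 : (0 : ℝ) < z := by exact_mod_cast hz
  have hm0 : (0 : ℝ) < m := by exact_mod_cast (show 0 < m by omega)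
  have hm0' : (0 : ℤ) < m := by exact_mod_cast (show 0 < m by omega)
  have hne' : (latS m H z A).Nonempty := by
    obtain ⟨y, hy⟩ := hne
    obtain ⟨h1, h2, e, h3, h4⟩ := mem_nu.1 hy
    exact ⟨(y, e), mem_lat.2 ⟨⟨h1, h3⟩, h2, h4⟩⟩
  obtain ⟨⟨y1, u1⟩, hp, hmin⟩ := Finset.exists_min_image (latS m H z A) (nn H z) hne'
  refine ⟨(y1, u1), hp, ?_⟩
  obtain ⟨⟨hy1, hu1⟩, hy0, hdv⟩ := mem_lat.1 hp
  simp only at hy1 hu1 hy0 hdv
  -- the norm
  obtain ⟨n1, hn1⟩ : ∃ n1, n1 = nn H z (y1, u1) := ⟨_, rfl⟩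
  rw [← hn1] at hmin ⊢
  have hn1' : n1 = max (|(y1 : ℝ)| * H) (|(u1 : ℝ)| * z) := hn1
  have hy1R : |(y1 : ℝ)| ≤ 2 * z := by exact_mod_cast hy1
  have hu1R : |(u1 : ℝ)| ≤ 2 * H := by exact_mod_cast hu1
  have hyn : |(y1 : ℝ)| * H ≤ n1 := by rw [hn1']; exact le_max_left _ _
  have hun : |(u1 : ℝ)| * z ≤ n1 := by rw [hn1']; exact le_max_right _ _
  have hy1pos : (0 : ℝ) < |(y1 : ℝ)| := by
    rw [abs_pos]
    exact_mod_cast hy0
  have hn1pos : 0 < n1 := lt_of_lt_of_le (by positivity) hyn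
  have hn1le : n1 ≤ 2 * z * H := by
    rw [hn1']
    refine max_le ?_ ?_
    · nlinarith
    · nlinarith
  have hu : ∀ y ∈ nuS m H z A, ∃ e : ℤ, |e| ≤ 2 * H ∧ (m : ℤ) ∣ A * y - e :=
    fun y hy => (mem_nu.1 hy).2.2
  choose! u hu1' hu2 using hu
  -- the integer t
  have htd : ∀ y ∈ nuS m H z A, (m : ℤ) ∣ y * u1 - u y * y1 := by
    intro y hy
    have h1 : y * u1 - u y * y1 = y1 * (A * y - u y) - y * (A * y1 - u1) := by ring
    rw [h1]
    exact dvd_sub (Dvd.dvd.mul_left (hu2 y hy) _) (Dvd.dvd.mul_left hdv _)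
  have ht : ∀ y ∈ nuS m H z A, (m : ℤ) * ((y * u1 - u y * y1) / m) = y * u1 - u y * y1 :=
    fun y hy => Int.mul_ediv_cancel' (htd y hy)
  -- differences
  have hD : ∀ y ∈ nuS m H z A, ∀ y' ∈ nuS m H z A,
      (y * u1 - u y * y1) / m = (y' * u1 - u y' * y1) / (m : ℤ) → y ≠ y' →
      |y1| ≤ |y - y'| ∧ |u1| ≤ |u y - u y'| := by
    intro y hy y' hy' htt hyy
    have h1 : y * u1 - u y * y1 = y' * u1 - u y' * y1 := by
      rw [← ht y hy, ← ht y' hy', htt]
    have h2 : (y - y') * u1 = (u y - u y') * y1 := by linarith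
    have h3 : |y - y'| * |u1| = |u y - u y'| * |y1| := by rw [← abs_mul, ← abs_mul, h2]
    have hy1' : 0 < |y1| := abs_pos.2 hy0
    have h4 : |y1| ≤ |y - y'| := by
      by_contra hlt
      push Not at hlt
      have h5 : |u y - u y'| ≤ |u1| := by
        by_contra h6
        push Not at h6
        nlinarith [abs_nonneg (y - y'), abs_nonneg u1]
      have h6 : (y - y', u y - u y') ∈ latS m H z A := by
        refine mem_lat.2 ⟨⟨hlt.le.trans hy1, h5.trans hu1⟩, sub_ne_zero.2 hyy, ?_⟩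
        have h7 : A * (y - y') - (u y - u y') = (A * y - u y) - (A * y' - u y') := by ring
        simp only
        rw [h7]
        exact dvd_sub (hu2 y hy) (hu2 y' hy')
      have h7 := hmin _ h6
      have h8 : nn H z (y - y', u y - u y') < n1 := by
        unfold nn
        refine max_lt ?_ ?_
        · have h9 : |((y - y' : ℤ) : ℝ)| < |(y1 : ℝ)| := by exact_mod_cast hlt
          exact lt_of_lt_of_le (mul_lt_mul_of_pos_right h9 hH0) hyn
        · by_cases hu0 : u1 = 0
          · have h9 : u y - u y' = 0 := by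
              rw [hu0, mul_zero] at h2
              rcases mul_eq_zero.1 h2.symm with h10 | h10
              · exact h10
              · exact absurd h10 hy0
            simp only [h9, Int.cast_zero, abs_zero, zero_mul]
            exact hn1pos
          · have h9 : |u y - u y'| < |u1| := by
              have h10 : 0 < |u1| := abs_pos.2 hu0
              by_contra h11
              push Not at h11
              nlinarith
            have h10 : |((u y - u y' : ℤ) : ℝ)| < |(u1 : ℝ)| := by exact_mod_cast h9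
            exact lt_of_lt_of_le (mul_lt_mul_of_pos_right h10 hz0) hun
      exact absurd h7 (not_le.2 h8)
    refine ⟨h4, ?_⟩
    by_contra h5
    push Not at h5
    nlinarith [abs_nonneg (u y - u y'), abs_nonneg u1]
  -- the fibres
  have hfib : ∃ N : ℕ, (N : ℝ) ≤ 6 * (z * H) / n1 ∧ ∀ t ∈ (nuS m H z A).image
      (fun y => (y * u1 - u y * y1) / (m : ℤ)),
      ((nuS m H z A).filter fun y => (y * u1 - u y * y1) / (m : ℤ) = t).card ≤ N := by
    rcases le_total (|(u1 : ℝ)| * z) (|(y1 : ℝ)| * H) with hc | hc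
    · refine ⟨2 * (2 * z) / y1.natAbs + 1, ?_, ?_⟩
      · refine fib_bound (Int.natAbs_pos.2 hy0) (by push_cast; ring) hH0 ?_ hn1le
        rw [hn1', max_eq_left hc, Nat.cast_natAbs, Int.cast_abs]
      · intro t _
        refine gaps _ (fun y => y) (2 * z) y1.natAbs (Int.natAbs_pos.2 hy0) ?_ ?_
        · intro y hy
          have := (mem_nu.1 (mem_filter.1 hy).1).1
          push_cast
          exact this
        · intro y hy y' hy' hyy
          rw [mem_filter] at hy hy'
          rw [Int.natCast_natAbs]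
          exact (hD y hy.1 y' hy'.1 (hy.2.trans hy'.2.symm) hyy).1
    · have hu0 : u1 ≠ 0 := by
        rintro rfl
        simp only [Int.cast_zero, abs_zero, zero_mul] at hc
        have : 0 < |(y1 : ℝ)| * H := by positivity
        linarith
      refine ⟨2 * (2 * H) / u1.natAbs + 1, ?_, ?_⟩
      · rw [mul_comm (z : ℝ)]
        refine fib_bound (Int.natAbs_pos.2 hu0) (by push_cast; ring) hz0 ?_ (by linarith)
        rw [hn1', max_eq_right hc, Nat.cast_natAbs, Int.cast_abs]
      · intro t _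
        refine gaps _ u (2 * H) u1.natAbs (Int.natAbs_pos.2 hu0) ?_ ?_
        · intro y hy
          have := hu1' y (mem_filter.1 hy).1
          push_cast
          exact this
        · intro y hy y' hy' hyy
          rw [mem_filter] at hy hy'
          rw [Int.natCast_natAbs]
          exact (hD y hy.1 y' hy'.1 (hy.2.trans hy'.2.symm) hyy).2
  obtain ⟨N, hN, hfib⟩ := hfib
  have hcard := Finset.card_le_mul_card_image (nuS m H z A) N hfib
  -- the number of values of t
  have himg : ((((nuS m H z A).image (fun y => (y * u1 - u y * y1) / (m : ℤ))).card : ℕ) : ℝ) ≤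
      8 * n1 / m + 1 := by
    have h1 : (nuS m H z A).image (fun y => (y * u1 - u y * y1) / (m : ℤ)) ⊆
        Icc (-(⌊4 * n1 / m⌋₊ : ℤ)) ⌊4 * n1 / m⌋₊ := by
      intro t ht'
      rw [mem_image] at ht'
      obtain ⟨y, hy, rfl⟩ := ht'
      rw [mem_Icc, ← abs_le]
      have h2 : |((y * u1 - u y * y1 : ℤ) : ℝ)| ≤ 4 * n1 := by
        push_cast
        have h3 : |(y : ℝ)| ≤ 2 * z := by exact_mod_cast (mem_nu.1 hy).1
        have h4 : |(u y : ℝ)| ≤ 2 * H := by exact_mod_cast hu1' y hy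
        calc |(y : ℝ) * u1 - u y * y1| ≤ |(y : ℝ) * u1| + |(u y : ℝ) * y1| := abs_sub _ _
          _ = |(y : ℝ)| * |(u1 : ℝ)| + |(u y : ℝ)| * |(y1 : ℝ)| := by rw [abs_mul, abs_mul]
          _ ≤ 2 * z * |(u1 : ℝ)| + 2 * H * |(y1 : ℝ)| :=
              add_le_add (mul_le_mul_of_nonneg_right h3 (abs_nonneg _))
                (mul_le_mul_of_nonneg_right h4 (abs_nonneg _))
          _ ≤ _ := by nlinarith
      rw [← ht y hy] at h2
      push_cast at h2
      rw [abs_mul, abs_of_pos hm0] at h2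
      have h3 : (((y * u1 - u y * y1) / (m : ℤ)).natAbs : ℝ) ≤ 4 * n1 / m := by
        rw [le_div_iff₀ hm0, Nat.cast_natAbs, Int.cast_abs]
        linarith
      have h4 := Nat.le_floor h3
      rw [← Int.natCast_natAbs]
      exact_mod_cast h4
    have h2 := Finset.card_le_card h1
    rw [Int.card_Icc] at h2
    have h3 : ((⌊4 * n1 / m⌋₊ : ℕ) : ℝ) ≤ 4 * n1 / m := Nat.floor_le (by positivity)
    have h4 : (((nuS m H z A).image (fun y => (y * u1 - u y * y1) / (m : ℤ))).card : ℝ) ≤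
        2 * (⌊4 * n1 / m⌋₊ : ℕ) + 1 := by
      have h5 : ((nuS m H z A).image (fun y => (y * u1 - u y * y1) / (m : ℤ))).card ≤
        2 * ⌊4 * n1 / m⌋₊ + 1 := by omega
      exact_mod_cast h5
    calc _ ≤ _ := h4
      _ ≤ 2 * (4 * n1 / m) + 1 := by linarith
      _ = _ := by ring
  calc ((nuS m H z A).card : ℝ) ≤ (N : ℝ) *
        (((nuS m H z A).image (fun y => (y * u1 - u y * y1) / (m : ℤ))).card : ℝ) := by
        exact_mod_cast hcard
    _ ≤ (6 * (z * H) / n1) * (8 * n1 / m + 1) :=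
        mul_le_mul hN himg (by positivity) (by positivity)
    _ = _ := by
        field_simp
        ring

end Pool.Agent.HGR
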