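import Pool.Agent.HGR.Targets

set_option autoImplicit false

/-!
# HGR: NUS -- sum over residues
-/

namespace Pool.Agent.HGR

open Finset
open scoped BigOperators

namespace NUS_

/-- sum of `1 / |v|` over the nonzero integers `|v| ≤ N` -/
noncomputable def hs (N : ℕ) : ℝ := ∑ v ∈ (Icc (-(N : ℤ)) N).filter (fun v => v ≠ 0), 1 / |(v : ℝ)|

lemma hs_le (N : ℕ) : hs N ≤ 2 * (1 + Real.log N) := by
  unfold hs
  have e1 : ∀ v : ℤ, 1 / |(v : ℝ)| = (fun n : ℕ => 1 / (n : ℝ)) v.natAbs := by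
    intro v
    simp only
    rw [Nat.cast_natAbs, Int.cast_abs]
  rw [Finset.sum_congr rfl fun v _ => e1 v]
  have hmap : ∀ v ∈ (Icc (-(N : ℤ)) N).filter (fun v => v ≠ 0), v.natAbs ∈ Icc 1 N := by
    intro v hv
    rw [mem_filter, mem_Icc] at hv
    rw [mem_Icc]
    omega
  rw [← Finset.sum_fiberwise_of_maps_to hmap]
  have h2 : ∀ n ∈ Icc 1 N, ∑ v ∈ ((Icc (-(N : ℤ)) N).filter (fun v => v ≠ 0)).filter
      (fun v => v.natAbs = n), (fun n : ℕ => 1 / (n : ℝ)) v.natAbs ≤ 2 * (1 / (n : ℝ)) := by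
    intro n _
    have e2 : ∀ v ∈ ((Icc (-(N : ℤ)) N).filter (fun v => v ≠ 0)).filter (fun v => v.natAbs = n),
        (fun n : ℕ => 1 / (n : ℝ)) v.natAbs = 1 / (n : ℝ) := by
      intro v hv
      rw [(mem_filter.1 hv).2]
    rw [Finset.sum_congr rfl e2, Finset.sum_const, nsmul_eq_mul]
    have hcard : (((Icc (-(N : ℤ)) N).filter (fun v => v ≠ 0)).filter
        (fun v => v.natAbs = n)).card ≤ 2 := by
      calc _ ≤ ({(n : ℤ), -(n : ℤ)} : Finset ℤ).card := by
            apply card_le_card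
            intro v hv
            rw [mem_filter] at hv
            have := hv.2
            rw [mem_insert, mem_singleton]
            omega
        _ ≤ 2 := card_le_two
    have : (0 : ℝ) ≤ 1 / n := by positivity
    exact mul_le_mul_of_nonneg_right (by exact_mod_cast hcard) this
  refine (Finset.sum_le_sum h2).trans ?_
  rw [← Finset.mul_sum]
  have h3 := harmonic_le_one_add_log N
  have h4 : ((harmonic N : ℚ) : ℝ) = ∑ n ∈ Icc 1 N, 1 / (n : ℝ) := by
    rw [harmonic_eq_sum_Icc]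
    push_cast
    exact Finset.sum_congr rfl fun n _ => by rw [one_div]
  rw [h4] at h3
  linarith

lemma hs_nonneg (N : ℕ) : 0 ≤ hs N := Finset.sum_nonneg fun _ _ => by positivity

open Classical in
/-- number of the residues -/
noncomputable def cnt (m : ℕ) (y u : ℤ) : ℕ :=
  ((range m).filter (fun A : ℕ => (m : ℤ) ∣ (A : ℤ) * y - u)).card

lemma cnt_le {m : ℕ} (hm : 0 < m) (y u : ℤ) : cnt m y u ≤ Int.gcd m y := by
  classical
  set g := Int.gcd m y with hg
  have hgpos : 0 < g := Int.gcd_pos_of_ne_zero_left _ (by exact_mod_cast hm.ne')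
  have hgm : g ∣ m := by
    have := Int.gcd_dvd_left (a := (m : ℤ)) (b := y)
    exact_mod_cast this
  obtain ⟨m', hm'⟩ := hgm
  have hm'pos : 0 < m' := by
    rcases Nat.eq_zero_or_pos m' with h | h
    · rw [h, mul_zero] at hm'
      omega
    · exact h
  have hdiv : (m : ℤ) / (g : ℤ) = m' := by
    rw [hm']
    push_cast
    exact Int.mul_ediv_cancel_left _ (by exact_mod_cast hgpos.ne')
  unfold cnt
  rw [← card_range g]
  apply card_le_card_of_injOn (fun A => A / m')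
  · intro A hA
    have hA' := mem_filter.1 (mem_coe.1 hA)
    have h1 := mem_range.1 hA'.1
    rw [mem_coe, mem_range]
    apply Nat.div_lt_of_lt_mul
    rw [hm', mul_comm] at h1
    exact h1
  · intro A hA B hB hAB
    have hA' := (mem_filter.1 (mem_coe.1 hA)).2
    have hB' := (mem_filter.1 (mem_coe.1 hB)).2
    have h1 : (A : ℤ) * y ≡ (B : ℤ) * y [ZMOD m] := by
      rw [Int.modEq_iff_dvd]
      have := dvd_sub hB' hA'
      have e : (B : ℤ) * y - u - ((A : ℤ) * y - u) = (B : ℤ) * y - (A : ℤ) * y := by ring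
      rwa [e] at this
    have h2 := Int.ModEq.cancel_right_div_gcd (by exact_mod_cast hm) h1
    rw [← hg, hdiv] at h2
    have h3 : A % m' = B % m' := by
      have : (A : ℕ) ≡ B [MOD m'] := by exact_mod_cast h2
      exact this
    have hAB' : A / m' = B / m' := hAB
    rw [← Nat.div_add_mod A m', ← Nat.div_add_mod B m', hAB', h3]

lemma cnt_zero {m : ℕ} (y u : ℤ) (h : ¬ (Int.gcd m y : ℤ) ∣ u) : cnt m y u = 0 := by
  classical
  unfold cnt
  rw [card_eq_zero, filter_eq_empty_iff]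
  intro A _ hA
  apply h
  have h1 : (Int.gcd m y : ℤ) ∣ (A : ℤ) * y - u := (Int.gcd_dvd_left ..).trans hA
  have h2 : (Int.gcd m y : ℤ) ∣ (A : ℤ) * y := (Int.gcd_dvd_right ..).mul_left _
  have := dvd_sub h2 h1
  rwa [sub_sub_cancel] at this

/-- sum over multiples -/
lemma mult_sum (g N : ℕ) (hg : 0 < g) :
    ∑ u ∈ (Icc (-(N : ℤ)) N).filter (fun u => u ≠ 0 ∧ (g : ℤ) ∣ u), (g : ℝ) / |(u : ℝ)| ≤ hs N := by
  classical
  unfold hs
  set S := (Icc (-(N : ℤ)) N).filter (fun u => u ≠ 0 ∧ (g : ℤ) ∣ u) with hS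
  have hg0 : (g : ℤ) ≠ 0 := by exact_mod_cast hg.ne'
  have hgR : (0 : ℝ) < g := by exact_mod_cast hg
  have hinj : Set.InjOn (fun u : ℤ => u / g) S := by
    intro u hu u' hu' huu
    have h1 := (mem_filter.1 (mem_coe.1 hu)).2.2
    have h2 := (mem_filter.1 (mem_coe.1 hu')).2.2
    have huu' : u / g = u' / g := huu
    rw [← Int.ediv_mul_cancel h1, ← Int.ediv_mul_cancel h2, huu']
  have e1 : ∑ u ∈ S, (g : ℝ) / |(u : ℝ)| = ∑ v ∈ S.image (fun u : ℤ => u / g), 1 / |(v : ℝ)| := by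
    rw [Finset.sum_image hinj]
    refine Finset.sum_congr rfl fun u hu => ?_
    have hd := (mem_filter.1 hu).2.2
    have h0 := (mem_filter.1 hu).2.1
    obtain ⟨v, rfl⟩ := hd
    rw [Int.mul_ediv_cancel_left _ hg0]
    push_cast
    rw [abs_mul, abs_of_pos hgR]
    have hv : |(v : ℝ)| ≠ 0 := by
      rw [abs_ne_zero]
      intro hv
      apply h0
      have : v = 0 := by exact_mod_cast hv
      rw [this, mul_zero]
    field_simp
  rw [e1]
  apply Finset.sum_le_sum_of_subset_of_nonneg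
  · intro v hv
    rw [mem_image] at hv
    obtain ⟨u, hu, rfl⟩ := hv
    rw [mem_filter, mem_Icc] at hu
    obtain ⟨⟨hu1, hu2⟩, hu0, w, rfl⟩ := hu
    rw [Int.mul_ediv_cancel_left _ hg0, mem_filter, mem_Icc]
    have hg1 : (1 : ℤ) ≤ g := by exact_mod_cast hg
    have hw0 : w ≠ 0 := by
      rintro rfl
      exact hu0 (mul_zero _)
    refine ⟨⟨?_, ?_⟩, hw0⟩
    · rcases le_or_gt w 0 with h | h
      · nlinarith
      · have : (0 : ℤ) ≤ N := by positivity
        linarith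
    · rcases le_or_gt w 0 with h | h
      · have : (0 : ℤ) ≤ N := by positivity
        linarith
      · nlinarith
  · intro _ _ _
    positivity

/-- one row -/
lemma row {m H z : ℕ} (hm : 0 < m) (hH : 1 ≤ H) (hz : 1 ≤ z) (y : ℤ) (hy : y ≠ 0) :
    ∑ u ∈ Icc (-(2 * H : ℤ)) (2 * H), (cnt m y u : ℝ) * ((z : ℝ) * H / nn H z (y, u)) ^ 2 ≤
      (1 / |(y : ℝ)|) * ((z : ℝ) ^ 2 + z * H * hs (2 * H)) := by
  classical
  set g := Int.gcd m y with hg
  have hgpos : 0 < g := Int.gcd_pos_of_ne_zero_left _ (by exact_mod_cast hm.ne')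
  have hHR : (0 : ℝ) < H := by exact_mod_cast hH
  have hzR : (0 : ℝ) < z := by exact_mod_cast hz
  have hyR : (0 : ℝ) < |(y : ℝ)| := by
    rw [abs_pos]
    exact_mod_cast hy
  have hgy : (g : ℝ) ≤ |(y : ℝ)| := by
    have h1 : (g : ℤ) ≤ |y| := by
      apply Int.le_of_dvd (abs_pos.2 hy)
      rw [dvd_abs]
      exact Int.gcd_dvd_right ..
    have h2 : ((g : ℤ) : ℝ) ≤ ((|y| : ℤ) : ℝ) := by exact_mod_cast h1
    simpa using h2
  -- termwise bound
  have hterm : ∀ u ∈ Icc (-(2 * H : ℤ)) (2 * H),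
      (cnt m y u : ℝ) * ((z : ℝ) * H / nn H z (y, u)) ^ 2 ≤
        (if u = 0 then (1 / |(y : ℝ)|) * (z : ℝ) ^ 2 else 0) +
        (if u ≠ 0 ∧ (g : ℤ) ∣ u then (1 / |(y : ℝ)|) * (z * H) * ((g : ℝ) / |(u : ℝ)|) else 0) := by
    intro u _
    have hcnt : (cnt m y u : ℝ) ≤ g := by exact_mod_cast cnt_le hm y u
    have hnn1 : |(y : ℝ)| * H ≤ nn H z (y, u) := le_max_left _ _
    have hnn2 : |(u : ℝ)| * z ≤ nn H z (y, u) := le_max_right _ _
    have hnnpos : 0 < nn H z (y, u) := lt_of_lt_of_le (by positivity) hnn1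
    by_cases hu : u = 0
    · rw [if_pos hu, if_neg (by simp [hu]), add_zero]
      have h1 : (z : ℝ) * H / nn H z (y, u) ≤ z / |(y : ℝ)| := by
        rw [div_le_div_iff₀ hnnpos hyR]
        calc (z : ℝ) * H * |(y : ℝ)| = z * (|(y : ℝ)| * H) := by ring
          _ ≤ z * nn H z (y, u) := by gcongr
      calc (cnt m y u : ℝ) * ((z : ℝ) * H / nn H z (y, u)) ^ 2 ≤
            |(y : ℝ)| * (z / |(y : ℝ)|) ^ 2 := by
            have h2 : (0 : ℝ) ≤ (z : ℝ) * H / nn H z (y, u) := by positivity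
            apply mul_le_mul (hcnt.trans hgy) (pow_le_pow_left₀ h2 h1 2) (by positivity)
              (by positivity)
        _ = (1 / |(y : ℝ)|) * (z : ℝ) ^ 2 := by
            field_simp
    · rw [if_neg hu, zero_add]
      by_cases hgu : (g : ℤ) ∣ u
      · rw [if_pos ⟨hu, hgu⟩]
        have huR : (0 : ℝ) < |(u : ℝ)| := by
          rw [abs_pos]
          exact_mod_cast hu
        have h1 : ((z : ℝ) * H / nn H z (y, u)) ^ 2 ≤ z * H / (|(y : ℝ)| * |(u : ℝ)|) := by
          rw [div_pow, div_le_div_iff₀ (by positivity) (by positivity)]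
          calc ((z : ℝ) * H) ^ 2 * (|(y : ℝ)| * |(u : ℝ)|) =
              z * H * ((|(y : ℝ)| * H) * (|(u : ℝ)| * z)) := by ring
            _ ≤ z * H * (nn H z (y, u) * nn H z (y, u)) := by gcongr
            _ = z * H * nn H z (y, u) ^ 2 := by ring
        calc (cnt m y u : ℝ) * ((z : ℝ) * H / nn H z (y, u)) ^ 2 ≤
              g * (z * H / (|(y : ℝ)| * |(u : ℝ)|)) := by
              apply mul_le_mul hcnt h1 (by positivity) (by positivity)
          _ = _ := by
              field_simp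
      · rw [cnt_zero y u hgu]
        rw [if_neg (by tauto)]
        simp
  refine (Finset.sum_le_sum hterm).trans ?_
  rw [Finset.sum_add_distrib, Finset.sum_ite_eq' _ (0 : ℤ)]
  have h0mem : (0 : ℤ) ∈ Icc (-(2 * H : ℤ)) (2 * H) := by
    rw [mem_Icc]
    omega
  rw [if_pos h0mem, ← Finset.sum_filter, ← Finset.mul_sum]
  have h1 := mult_sum g (2 * H) hgpos
  have e : Icc (-((2 * H : ℕ) : ℤ)) ((2 * H : ℕ) : ℤ) = Icc (-(2 * H : ℤ)) (2 * H) := by
    push_cast
    rfl
  rw [e] at h1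
  have h2 : (0 : ℝ) ≤ 1 / |(y : ℝ)| * (z * H) := by positivity
  calc _ ≤ 1 / |(y : ℝ)| * (z : ℝ) ^ 2 + 1 / |(y : ℝ)| * (z * H) * hs (2 * H) := by
        gcongr
    _ = _ := by ring

end NUS_

open NUS_ in
theorem p_NUS : T_NUS := by
  classical
  refine ⟨32, by norm_num, fun m H z hH hz hm => ?_⟩
  have hmpos : 0 < m := by omega
  have hHR : (1 : ℝ) ≤ H := by exact_mod_cast hH
  have hzR : (1 : ℝ) ≤ z := by exact_mod_cast hz
  -- exchange the sums
  have e1 : ∑ A ∈ range m, ∑ p ∈ latS m H z (A : ℤ), ((z : ℝ) * H / nn H z p) ^ 2 =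
      ∑ y ∈ (Icc (-((2 * z : ℕ) : ℤ)) ((2 * z : ℕ) : ℤ)).filter (fun y => y ≠ 0),
        ∑ u ∈ Icc (-(2 * H : ℤ)) (2 * H),
          (cnt m y u : ℝ) * ((z : ℝ) * H / nn H z (y, u)) ^ 2 := by
    have e2 : ∀ A ∈ range m, ∑ p ∈ latS m H z (A : ℤ), ((z : ℝ) * H / nn H z p) ^ 2 =
        ∑ y ∈ (Icc (-((2 * z : ℕ) : ℤ)) ((2 * z : ℕ) : ℤ)).filter (fun y => y ≠ 0),
          ∑ u ∈ Icc (-(2 * H : ℤ)) (2 * H),
            if (m : ℤ) ∣ (A : ℤ) * y - u then ((z : ℝ) * H / nn H z (y, u)) ^ 2 else 0 := by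
      intro A _
      unfold latS
      rw [Finset.sum_filter, Finset.sum_product, Finset.sum_filter]
      push_cast
      refine Finset.sum_congr rfl fun y _ => ?_
      by_cases hy : y ≠ 0
      · rw [if_pos hy]
        refine Finset.sum_congr rfl fun u _ => ?_
        simp only [hy, not_false_eq_true, true_and, ne_eq]
      · rw [if_neg hy]
        apply Finset.sum_eq_zero
        intro u _
        rw [if_neg]
        intro h
        exact hy h.1
    rw [Finset.sum_congr rfl e2, Finset.sum_comm]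
    refine Finset.sum_congr rfl fun y _ => ?_
    rw [Finset.sum_comm]
    refine Finset.sum_congr rfl fun u _ => ?_
    rw [← Finset.sum_filter, Finset.sum_const, nsmul_eq_mul]
    unfold cnt
    congr!
  rw [e1]
  have h1 : ∀ y ∈ (Icc (-((2 * z : ℕ) : ℤ)) ((2 * z : ℕ) : ℤ)).filter (fun y => y ≠ 0),
      ∑ u ∈ Icc (-(2 * H : ℤ)) (2 * H),
        (cnt m y u : ℝ) * ((z : ℝ) * H / nn H z (y, u)) ^ 2 ≤
      (1 / |(y : ℝ)|) * ((z : ℝ) ^ 2 + z * H * hs (2 * H)) := fun y hy =>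
    row hmpos hH hz y (mem_filter.1 hy).2
  refine (Finset.sum_le_sum h1).trans ?_
  rw [← Finset.sum_mul]
  have h2 : ∑ y ∈ (Icc (-((2 * z : ℕ) : ℤ)) ((2 * z : ℕ) : ℤ)).filter (fun y => y ≠ 0),
      1 / |(y : ℝ)| ≤ 4 * (1 + Real.log z) := by
    have h3 := hs_le (2 * z)
    unfold hs at h3
    refine h3.trans ?_
    push_cast
    rw [Real.log_mul (by norm_num) (by positivity)]
    have h4 := Real.log_two_lt_d9
    have h5 := Real.log_nonneg hzR
    linarith
  have h3 : hs (2 * H) ≤ 4 * (1 + Real.log H) := by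
    refine (hs_le (2 * H)).trans ?_
    push_cast
    rw [Real.log_mul (by norm_num) (by positivity)]
    have h4 := Real.log_two_lt_d9
    have h5 := Real.log_nonneg hHR
    linarith
  have h5 := Real.log_nonneg hzR
  have h6 := Real.log_nonneg hHR
  calc _ ≤ (4 * (1 + Real.log z)) * ((z : ℝ) ^ 2 + z * H * (4 * (1 + Real.log H))) := by
        have h7 := hs_nonneg (2 * H)
        gcongr
    _ = 16 * (z * H * (1 + Real.log H) * (1 + Real.log z)) + 4 * ((z : ℝ) ^ 2 * (1 + Real.log z)) := by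
        ring
    _ ≤ _ := by
        have h8 : (0 : ℝ) ≤ z * H * (1 + Real.log H) * (1 + Real.log z) := by positivity
        have h9 : (0 : ℝ) ≤ (z : ℝ) ^ 2 * (1 + Real.log z) := by positivity
        linarith

end Pool.Agent.HGR
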