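import Pool.Agent.HGR.Targets

set_option autoImplicit false

namespace Pool.Agent.HGR

open Finset
open scoped BigOperators

namespace PA_

/-- counting a set of pairs by its fibres -/
private theorem fib {α β : Type} (A : Set (α × β)) (S : Finset β) (n : ℕ)
    (h1 : ∀ t ∈ A, t.2 ∈ S)
    (h2 : ∀ M ∈ S, {p | (p, M) ∈ A}.Finite ∧ {p | (p, M) ∈ A}.ncard ≤ n) :
    A.Finite ∧ A.ncard ≤ S.card * n := by
  classical
  have h3 : ∀ M : β, ∃ T : Finset α, M ∈ S → (T.card ≤ n ∧ ∀ p, (p, M) ∈ A → p ∈ T) := by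
    intro M
    by_cases hM : M ∈ S
    · obtain ⟨hf, hc⟩ := h2 M hM
      refine ⟨hf.toFinset, fun _ => ⟨?_, ?_⟩⟩
      · rw [← Set.ncard_eq_toFinset_card _ hf]; exact hc
      · intro p hp
        simpa using hp
    · exact ⟨∅, fun h => absurd h hM⟩
  choose T hT using h3
  set U : Finset (α × β) := S.biUnion (fun M => (T M).image (fun p => (p, M))) with hU
  have hsub : A ⊆ (U : Set (α × β)) := by
    intro t ht
    have := h1 t ht
    simp only [hU, Finset.coe_biUnion, Set.mem_iUnion, Finset.coe_image]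
    exact ⟨t.2, this, t.1, (hT t.2 this).2 t.1 ht, rfl⟩
  refine ⟨(Finset.finite_toSet U).subset hsub, ?_⟩
  calc A.ncard ≤ (U : Set (α × β)).ncard := Set.ncard_le_ncard hsub (Finset.finite_toSet U)
    _ = U.card := Set.ncard_coe_finset U
    _ ≤ ∑ M ∈ S, ((T M).image (fun p => (p, M))).card := Finset.card_biUnion_le
    _ ≤ ∑ M ∈ S, n := Finset.sum_le_sum (fun M hM => (Finset.card_image_le).trans (hT M hM).1)
    _ = S.card * n := by simp

private theorem abs_lt_of_nrm {n : ℕ} (p : Fin n → ℤ) (N : ℕ) (h : nrm p < N) (i : Fin n) :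
    |p i| < (N : ℤ) := by
  have h1 : (p i).natAbs ≤ nrm p := by
    unfold nrm
    exact Finset.le_sup (f := fun i => (p i).natAbs) (Finset.mem_univ i)
  have h2 : (p i).natAbs < N := lt_of_le_of_lt h1 h
  rw [Int.abs_eq_natAbs]
  exact_mod_cast h2

private theorem dvd_of_prim {n : ℕ} (p q : Fin n → ℤ) (hp : Prim p)
    (h : ∀ i j, p i * q j = p j * q i) (j : Fin n) : p j ∣ q j := by
  have h1 : Finset.univ.gcd p = 1 := by
    have hu : IsUnit (Finset.univ.gcd p) := hp _ (fun i => Finset.gcd_dvd (Finset.mem_univ i))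
    have hn : normalize (Finset.univ.gcd p) = Finset.univ.gcd p := Finset.normalize_gcd
    rw [← hn]
    exact normalize_eq_one.mpr hu
  have h2 : p j ∣ Finset.univ.gcd (fun i => p i * q j) := by
    apply Finset.dvd_gcd
    intro i _
    rw [h i j]
    exact Dvd.intro _ rfl
  rw [Finset.gcd_mul_right, h1, one_mul] at h2
  exact (dvd_normalize_iff).mp h2

private theorem eq_or_neg {n : ℕ} (p q : Fin n → ℤ) (hp : Prim p) (hq : Prim q)
    (h : ∀ i j, p i * q j = p j * q i) : p = q ∨ p = -q := by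
  by_cases hz : ∀ i, p i = 0
  · left
    funext i
    have h1 : p i ∣ q i := dvd_of_prim p q hp h i
    rw [hz i] at h1
    rw [hz i]
    exact (zero_dvd_iff.mp h1).symm
  · push Not at hz
    obtain ⟨k, hk⟩ := hz
    have h1 : p k ∣ q k := dvd_of_prim p q hp h k
    have h2 : q k ∣ p k := dvd_of_prim q p hq (fun i j => by rw [mul_comm, h j i, mul_comm]) k
    have hqk : q k ≠ 0 := by
      intro h0
      rw [h0] at h2
      exact hk (zero_dvd_iff.mp h2)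
    have h3 : (p k).natAbs = (q k).natAbs := Int.natAbs_eq_of_dvd_dvd h1 h2
    rcases Int.natAbs_eq_natAbs_iff.mp h3 with h4 | h4
    · left
      funext i
      have h5 := h i k
      rw [h4, mul_comm] at h5
      exact mul_left_cancel₀ hqk h5
    · right
      funext i
      have h5 := h i k
      rw [h4] at h5
      have h6 : q k * p i = q k * (-(q i)) := by linarith
      simpa using mul_left_cancel₀ hqk h6

/-- the fibre over a non-degenerate vector -/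
private theorem fibND (M : Fin 4 → ℤ)
    (hM : M 0 * M 2 - M 1 ^ 2 ≠ 0 ∨ M 0 * M 3 - M 1 * M 2 ≠ 0 ∨ M 1 * M 3 - M 2 ^ 2 ≠ 0) :
    {p : Fin 3 → ℤ | Prim p ∧ Ort p M}.Finite ∧
      {p : Fin 3 → ℤ | Prim p ∧ Ort p M}.ncard ≤ 2 := by
  classical
  rcases Set.eq_empty_or_nonempty {p : Fin 3 → ℤ | Prim p ∧ Ort p M} with h0 | ⟨q, hq⟩
  · rw [h0]; simp
  have hsub : {p : Fin 3 → ℤ | Prim p ∧ Ort p M} ⊆ (({q, -q} : Finset (Fin 3 → ℤ)) :
      Set (Fin 3 → ℤ)) := by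
    rintro p ⟨hp1, hp2, hp3⟩
    obtain ⟨hq1, hq2, hq3⟩ := hq
    have key : ∀ i j, p i * q j = p j * q i := by
      -- `w = (M1 M3 - M2^2, M1 M2 - M0 M3, M0 M2 - M1^2)`
      have e01 : p 0 * (M 1 * M 2 - M 0 * M 3) = p 1 * (M 1 * M 3 - M 2 ^ 2) := by
        linear_combination (-M 3) * hp2 + M 2 * hp3
      have e02 : p 0 * (M 0 * M 2 - M 1 ^ 2) = p 2 * (M 1 * M 3 - M 2 ^ 2) := by
        linear_combination M 2 * hp2 - M 1 * hp3
      have e12 : p 1 * (M 0 * M 2 - M 1 ^ 2) = p 2 * (M 1 * M 2 - M 0 * M 3) := by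
        linear_combination (-M 1) * hp2 + M 0 * hp3
      have f01 : q 0 * (M 1 * M 2 - M 0 * M 3) = q 1 * (M 1 * M 3 - M 2 ^ 2) := by
        linear_combination (-M 3) * hq2 + M 2 * hq3
      have f02 : q 0 * (M 0 * M 2 - M 1 ^ 2) = q 2 * (M 1 * M 3 - M 2 ^ 2) := by
        linear_combination M 2 * hq2 - M 1 * hq3
      have f12 : q 1 * (M 0 * M 2 - M 1 ^ 2) = q 2 * (M 1 * M 2 - M 0 * M 3) := by
        linear_combination (-M 1) * hq2 + M 0 * hq3
      have g01 : p 0 * q 1 = p 1 * q 0 := by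
        rcases hM with h | h | h
        · have h' : (M 0 * M 2 - M 1 ^ 2) ^ 2 ≠ 0 := pow_ne_zero 2 h
          apply mul_right_cancel₀ h'
          linear_combination (q 1 * (M 0 * M 2 - M 1 ^ 2)) * e02 +
            (p 2 * (M 1 * M 3 - M 2 ^ 2)) * f12 - (q 0 * (M 0 * M 2 - M 1 ^ 2)) * e12 -
            (p 2 * (M 1 * M 2 - M 0 * M 3)) * f02
        · have h' : (M 0 * M 3 - M 1 * M 2) ^ 2 ≠ 0 := pow_ne_zero 2 h
          apply mul_right_cancel₀ h'
          linear_combination (-(q 1 * (M 0 * M 3 - M 1 * M 2))) * e01 +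
            (p 1 * (M 0 * M 3 - M 1 * M 2)) * f01
        · have h' : (M 1 * M 3 - M 2 ^ 2) ^ 2 ≠ 0 := pow_ne_zero 2 h
          apply mul_right_cancel₀ h'
          linear_combination (-(p 0 * (M 1 * M 3 - M 2 ^ 2))) * f01 +
            (q 0 * (M 1 * M 3 - M 2 ^ 2)) * e01
      have g02 : p 0 * q 2 = p 2 * q 0 := by
        rcases hM with h | h | h
        · have h' : (M 0 * M 2 - M 1 ^ 2) ^ 2 ≠ 0 := pow_ne_zero 2 h
          apply mul_right_cancel₀ h'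
          linear_combination (q 2 * (M 0 * M 2 - M 1 ^ 2)) * e02 -
            (p 2 * (M 0 * M 2 - M 1 ^ 2)) * f02
        · have h' : (M 0 * M 3 - M 1 * M 2) ^ 2 ≠ 0 := pow_ne_zero 2 h
          apply mul_right_cancel₀ h'
          linear_combination (-(q 2 * (M 0 * M 3 - M 1 * M 2))) * e01 -
            (p 1 * (M 1 * M 3 - M 2 ^ 2)) * f12 + (p 2 * (M 0 * M 3 - M 1 * M 2)) * f01 +
            (q 1 * (M 1 * M 3 - M 2 ^ 2)) * e12
        · have h' : (M 1 * M 3 - M 2 ^ 2) ^ 2 ≠ 0 := pow_ne_zero 2 h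
          apply mul_right_cancel₀ h'
          linear_combination (-(p 0 * (M 1 * M 3 - M 2 ^ 2))) * f02 +
            (q 0 * (M 1 * M 3 - M 2 ^ 2)) * e02
      have g12 : p 1 * q 2 = p 2 * q 1 := by
        rcases hM with h | h | h
        · have h' : (M 0 * M 2 - M 1 ^ 2) ^ 2 ≠ 0 := pow_ne_zero 2 h
          apply mul_right_cancel₀ h'
          linear_combination (q 2 * (M 0 * M 2 - M 1 ^ 2)) * e12 -
            (p 2 * (M 0 * M 2 - M 1 ^ 2)) * f12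
        · have h' : (M 0 * M 3 - M 1 * M 2) ^ 2 ≠ 0 := pow_ne_zero 2 h
          apply mul_right_cancel₀ h'
          linear_combination (p 1 * (M 0 * M 3 - M 1 * M 2)) * f12 -
            (q 1 * (M 0 * M 3 - M 1 * M 2)) * e12
        · have h' : (M 1 * M 3 - M 2 ^ 2) ^ 2 ≠ 0 := pow_ne_zero 2 h
          apply mul_right_cancel₀ h'
          linear_combination (-(q 2 * (M 1 * M 3 - M 2 ^ 2))) * e01 -
            (p 0 * (M 1 * M 2 - M 0 * M 3)) * f02 * (-1) * (-1) +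
            (q 1 * (M 1 * M 3 - M 2 ^ 2)) * e02 + (p 0 * (M 0 * M 2 - M 1 ^ 2)) * f01
      intro i j
      fin_cases i <;> fin_cases j
      · rfl
      · exact g01
      · exact g02
      · exact g01.symm
      · rfl
      · exact g12
      · exact g02.symm
      · exact g12.symm
      · rfl
    rcases eq_or_neg p q hp1 hq1 key with h | h
    · rw [h]; simp
    · rw [h]; simp
  refine ⟨(Finset.finite_toSet _).subset hsub, ?_⟩
  calc _ ≤ (({q, -q} : Finset (Fin 3 → ℤ)) : Set (Fin 3 → ℤ)).ncard :=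
        Set.ncard_le_ncard hsub (Finset.finite_toSet _)
    _ = ({q, -q} : Finset (Fin 3 → ℤ)).card := Set.ncard_coe_finset _
    _ ≤ 2 := Finset.card_le_two

/-! ### Degenerate vectors -/

private theorem param (M0 M1 M2 M3 : ℤ) (h0 : M0 ≠ 0) (h1 : M0 * M2 = M1 ^ 2)
    (h2 : M0 * M3 = M1 * M2) : ∃ u v m : ℤ, 0 < u ∧ m ≠ 0 ∧ M0 = m * u ^ 3 ∧
      M1 = m * u ^ 2 * v ∧ M2 = m * u * v ^ 2 ∧ M3 = m * v ^ 3 := by
  have key : ∃ u v g : ℤ, 0 < u ∧ IsCoprime u v ∧ M0 = g * u ∧ M1 = g * v := by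
    have hg : 0 < Int.gcd M0 M1 := Int.gcd_pos_of_ne_zero_left _ h0
    obtain ⟨u, v, h3, h4, h5⟩ := Int.exists_gcd_one hg
    have hu : u ≠ 0 := by
      rintro rfl
      rw [zero_mul] at h4
      exact h0 h4
    rcases lt_or_gt_of_ne hu with hneg | hpos
    · refine ⟨-u, -v, -(Int.gcd M0 M1 : ℤ), by linarith, ?_, ?_, ?_⟩
      · exact (Int.isCoprime_iff_gcd_eq_one.mpr h3).neg_neg
      · rw [neg_mul_neg, mul_comm]; exact h4
      · rw [neg_mul_neg, mul_comm]; exact h5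
    · refine ⟨u, v, (Int.gcd M0 M1 : ℤ), hpos, ?_, ?_, ?_⟩
      · exact Int.isCoprime_iff_gcd_eq_one.mpr h3
      · rw [mul_comm]; exact h4
      · rw [mul_comm]; exact h5
  obtain ⟨u, v, g, hu, hc, e0, e1⟩ := key
  have hg : g ≠ 0 := by
    rintro rfl
    rw [zero_mul] at e0
    exact h0 e0
  have a1 : u * M2 = g * v ^ 2 := by
    apply mul_left_cancel₀ hg
    rw [e0, e1] at h1
    linear_combination h1
  have a2 : u ∣ g := by
    have : u ∣ g * v ^ 2 := ⟨M2, a1.symm⟩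
    exact (hc.pow_right).dvd_of_dvd_mul_right this
  obtain ⟨k, hk⟩ := a2
  have a3 : M2 = k * v ^ 2 := by
    apply mul_left_cancel₀ hu.ne'
    rw [a1, hk]; ring
  have a4 : u * M3 = k * v ^ 3 := by
    apply mul_left_cancel₀ hg
    rw [e0, e1, a3] at h2
    linear_combination h2
  have a5 : u ∣ k := by
    have : u ∣ k * v ^ 3 := ⟨M3, a4.symm⟩
    exact (hc.pow_right).dvd_of_dvd_mul_right this
  obtain ⟨m, hm⟩ := a5
  refine ⟨u, v, m, hu, ?_, ?_, ?_, ?_, ?_⟩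
  · rintro rfl
    apply hg
    rw [hk, hm]; ring
  · rw [e0, hk, hm]; ring
  · rw [e1, hk, hm]; ring
  · rw [a3, hm]; ring
  · apply mul_left_cancel₀ hu.ne'
    rw [a4, hm]; ring

/-- parameters of the degenerate vectors -/
private noncomputable def SS (B : ℕ) : Finset (Σ _ : ℕ, ℤ × ℤ) :=
  (Icc 1 (2 * B)).sigma (fun u => Icc (-(u : ℤ)) u ×ˢ
    ((Icc (-((2 * B / u ^ 3 : ℕ) : ℤ)) ((2 * B / u ^ 3 : ℕ) : ℤ)).erase 0))

private theorem sum_inv_sq_succ (n : ℕ) :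
    ∑ u ∈ Icc 1 (n + 1), (1 : ℝ) / (u : ℝ) ^ 2 ≤ 2 - 1 / ((n : ℝ) + 1) := by
  induction n with
  | zero => norm_num
  | succ n ih =>
    rw [Finset.sum_Icc_succ_top (by omega)]
    have h1 : (0 : ℝ) < (n : ℝ) + 1 := by positivity
    have h2 : (0 : ℝ) < (n : ℝ) + 1 + 1 := by positivity
    have h3 : (1 : ℝ) / ((n : ℝ) + 1 + 1) ^ 2 ≤ 1 / ((n : ℝ) + 1) - 1 / ((n : ℝ) + 1 + 1) := by
      rw [div_sub_div _ _ h1.ne' h2.ne', div_le_div_iff₀ (by positivity) (by positivity)]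
      nlinarith
    push_cast
    linarith

private theorem sum_inv_sq (N : ℕ) : ∑ u ∈ Icc 1 N, (1 : ℝ) / (u : ℝ) ^ 2 ≤ 2 := by
  cases N with
  | zero => simp
  | succ n =>
    have h1 := sum_inv_sq_succ n
    have h2 : (0 : ℝ) ≤ 1 / ((n : ℝ) + 1) := by positivity
    linarith

private theorem SS_card (B : ℕ) : ((SS B).card : ℝ) ≤ 24 * B := by
  unfold SS
  rw [Finset.card_sigma]
  push_cast
  calc ∑ u ∈ Icc 1 (2 * B), ((Icc (-(u : ℤ)) u ×ˢ
      ((Icc (-((2 * B / u ^ 3 : ℕ) : ℤ)) ((2 * B / u ^ 3 : ℕ) : ℤ)).erase 0)).card : ℝ)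
      ≤ ∑ u ∈ Icc 1 (2 * B), (12 * B : ℝ) * (1 / (u : ℝ) ^ 2) := by
        apply Finset.sum_le_sum
        intro u hu
        rw [Finset.mem_Icc] at hu
        have hu1 : (1 : ℝ) ≤ u := by exact_mod_cast hu.1
        have e0 : (0 : ℤ) ≤ ((2 * B / u ^ 3 : ℕ) : ℤ) := Int.natCast_nonneg _
        rw [Finset.card_product, Int.card_Icc,
          Finset.card_erase_of_mem (Finset.mem_Icc.mpr ⟨by linarith, e0⟩), Int.card_Icc]
        have e1 : ((u : ℤ) + 1 - -(u : ℤ)).toNat = 2 * u + 1 := by omega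
        have e2 : (((2 * B / u ^ 3 : ℕ) : ℤ) + 1 - -((2 * B / u ^ 3 : ℕ) : ℤ)).toNat - 1 =
            2 * (2 * B / u ^ 3) := by omega
        rw [e1, e2]
        have e3 : ((2 * B / u ^ 3 : ℕ) : ℝ) ≤ ((2 * B : ℕ) : ℝ) / ((u ^ 3 : ℕ) : ℝ) :=
          Nat.cast_div_le
        push_cast at e3 ⊢
        have e4 : (2 * (u : ℝ) + 1) ≤ 3 * u := by linarith
        calc (2 * (u : ℝ) + 1) * (2 * ((2 * B / u ^ 3 : ℕ) : ℝ))
            ≤ (3 * u) * (2 * (2 * B / (u : ℝ) ^ 3)) := by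
              apply mul_le_mul e4 (by linarith) (by positivity) (by positivity)
          _ = 12 * B * (1 / (u : ℝ) ^ 2) := by
              field_simp
              ring
    _ = (12 * B : ℝ) * ∑ u ∈ Icc 1 (2 * B), (1 / (u : ℝ) ^ 2) := by rw [Finset.mul_sum]
    _ ≤ (12 * B : ℝ) * 2 := by
        apply mul_le_mul_of_nonneg_left (sum_inv_sq _) (by positivity)
    _ = 24 * B := by ring

private def G1 (t : Σ _ : ℕ, ℤ × ℤ) : Fin 4 → ℤ :=
  ![t.2.2 * (t.1 : ℤ) ^ 3, t.2.2 * (t.1 : ℤ) ^ 2 * t.2.1, t.2.2 * (t.1 : ℤ) * t.2.1 ^ 2,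
    t.2.2 * t.2.1 ^ 3]

private def G2 (t : Σ _ : ℕ, ℤ × ℤ) : Fin 4 → ℤ :=
  ![t.2.2 * t.2.1 ^ 3, t.2.2 * (t.1 : ℤ) * t.2.1 ^ 2, t.2.2 * (t.1 : ℤ) ^ 2 * t.2.1,
    t.2.2 * (t.1 : ℤ) ^ 3]

private theorem par_mem (B : ℕ) (M0 M1 M2 M3 : ℤ) (h0 : M0 ≠ 0) (h1 : M0 * M2 = M1 ^ 2)
    (h2 : M0 * M3 = M1 * M2) (hB : |M0| < 2 * B) (h3 : |M3| ≤ |M0|) :
    ∃ t ∈ SS B, M0 = t.2.2 * (t.1 : ℤ) ^ 3 ∧ M1 = t.2.2 * (t.1 : ℤ) ^ 2 * t.2.1 ∧
      M2 = t.2.2 * (t.1 : ℤ) * t.2.1 ^ 2 ∧ M3 = t.2.2 * t.2.1 ^ 3 := by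
  obtain ⟨u, v, m, hu, hm, e0, e1, e2, e3⟩ := param M0 M1 M2 M3 h0 h1 h2
  obtain ⟨n, rfl⟩ := Int.eq_ofNat_of_zero_le hu.le
  have hn : 1 ≤ n := by exact_mod_cast hu
  have hm1 : 0 < m.natAbs := Int.natAbs_pos.mpr hm
  have hB' : m.natAbs * n ^ 3 < 2 * B := by
    rw [e0, abs_mul, abs_pow, Int.abs_eq_natAbs, Nat.abs_cast] at hB
    exact_mod_cast hB
  have hv : v.natAbs ≤ n := by
    rw [e0, e3, abs_mul, abs_mul, abs_pow, abs_pow, Nat.abs_cast] at h3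
    have h4 : |v| ^ 3 ≤ (n : ℤ) ^ 3 := le_of_mul_le_mul_left h3 (abs_pos.mpr hm)
    have h5 : |v| ≤ (n : ℤ) := le_of_pow_le_pow_left₀ (by norm_num) (by positivity) h4
    rw [Int.abs_eq_natAbs] at h5
    exact_mod_cast h5
  have hn3 : n ≤ n ^ 3 := Nat.le_self_pow (by norm_num) n
  have hn4 : n ≤ 2 * B := by nlinarith
  have hmB : m.natAbs ≤ 2 * B / n ^ 3 := by
    rw [Nat.le_div_iff_mul_le (by positivity)]
    exact hB'.le
  refine ⟨⟨n, (v, m)⟩, ?_, e0, e1, e2, e3⟩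
  unfold SS
  rw [Finset.mem_sigma]
  refine ⟨Finset.mem_Icc.mpr ⟨hn, hn4⟩, ?_⟩
  rw [Finset.mem_product, Finset.mem_erase, Finset.mem_Icc, Finset.mem_Icc]
  refine ⟨⟨?_, ?_⟩, hm, ?_, ?_⟩
  · show -(n : ℤ) ≤ v
    omega
  · show v ≤ (n : ℤ)
    omega
  · show -((2 * B / n ^ 3 : ℕ) : ℤ) ≤ m
    omega
  · show m ≤ ((2 * B / n ^ 3 : ℕ) : ℤ)
    omega

private theorem deg_mem (B : ℕ) (M : Fin 4 → ℤ) (h1 : M 0 * M 2 = M 1 ^ 2)
    (h2 : M 0 * M 3 = M 1 * M 2) (h3 : M 1 * M 3 = M 2 ^ 2) (h0 : M ≠ 0)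
    (hB : ∀ i, |M i| < 2 * B) :
    M ∈ (SS B).image G1 ∪ (SS B).image G2 ∧ (M 0 ≠ 0 ∨ M 3 ≠ 0) := by
  have h4 : M 0 ≠ 0 ∨ M 3 ≠ 0 := by
    by_contra hcon
    push Not at hcon
    obtain ⟨c0, c3⟩ := hcon
    have c1 : M 1 = 0 := by
      have : M 1 ^ 2 = 0 := by rw [← h1, c0]; ring
      exact pow_eq_zero_iff (two_ne_zero) |>.mp this
    have c2 : M 2 = 0 := by
      have : M 2 ^ 2 = 0 := by rw [← h3, c3]; ring
      exact pow_eq_zero_iff (two_ne_zero) |>.mp this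
    apply h0
    funext i
    fin_cases i
    · exact c0
    · exact c1
    · exact c2
    · exact c3
  refine ⟨?_, h4⟩
  rw [Finset.mem_union, Finset.mem_image, Finset.mem_image]
  rcases le_total |M 3| |M 0| with h5 | h5
  · left
    have h6 : M 0 ≠ 0 := by
      intro c0
      rw [c0, abs_zero] at h5
      have : M 3 = 0 := abs_eq_zero.mp (le_antisymm h5 (abs_nonneg _))
      rcases h4 with h | h
      · exact h c0
      · exact h this
    obtain ⟨t, ht, e0, e1, e2, e3⟩ := par_mem B (M 0) (M 1) (M 2) (M 3) h6 h1 h2 (hB 0) h5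
    refine ⟨t, ht, ?_⟩
    funext i
    fin_cases i
    · exact e0.symm
    · exact e1.symm
    · exact e2.symm
    · exact e3.symm
  · right
    have h6 : M 3 ≠ 0 := by
      intro c0
      rw [c0, abs_zero] at h5
      have : M 0 = 0 := abs_eq_zero.mp (le_antisymm h5 (abs_nonneg _))
      rcases h4 with h | h
      · exact h this
      · exact h c0
    obtain ⟨t, ht, e0, e1, e2, e3⟩ := par_mem B (M 3) (M 2) (M 1) (M 0) h6
      (by rw [mul_comm]; exact h3) (by rw [mul_comm, h2, mul_comm]) (hB 3) h5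
    refine ⟨t, ht, ?_⟩
    funext i
    fin_cases i
    · exact e3.symm
    · exact e2.symm
    · exact e1.symm
    · exact e0.symm

/-- the fibre over a vector with a nonzero outer coordinate -/
private theorem fibDG (M : Fin 4 → ℤ) (Z : ℕ) (hZ : 1 ≤ Z) (hM : M 0 ≠ 0 ∨ M 3 ≠ 0) :
    {p : Fin 3 → ℤ | nrm p < 2 * Z ∧ Ort p M}.Finite ∧
      {p : Fin 3 → ℤ | nrm p < 2 * Z ∧ Ort p M}.ncard ≤ 16 * Z ^ 2 := by
  classical
  set W : Finset (ℤ × ℤ) := Icc (-(2 * Z : ℤ) + 1) (2 * Z - 1) ×ˢ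
    Icc (-(2 * Z : ℤ) + 1) (2 * Z - 1) with hW
  have hWc : W.card ≤ 16 * Z ^ 2 := by
    rw [hW, Finset.card_product, Int.card_Icc]
    have : ((2 * (Z : ℤ) - 1) + 1 - (-(2 * (Z : ℤ)) + 1)).toNat ≤ 4 * Z := by omega
    calc _ ≤ (4 * Z) * (4 * Z) := Nat.mul_le_mul this this
      _ = 16 * Z ^ 2 := by ring
  have main : ∀ (φ : (Fin 3 → ℤ) → ℤ × ℤ),
      (∀ p ∈ {p : Fin 3 → ℤ | nrm p < 2 * Z ∧ Ort p M}, φ p ∈ (W : Set (ℤ × ℤ))) →
      Set.InjOn φ {p : Fin 3 → ℤ | nrm p < 2 * Z ∧ Ort p M} →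
      {p : Fin 3 → ℤ | nrm p < 2 * Z ∧ Ort p M}.Finite ∧
      {p : Fin 3 → ℤ | nrm p < 2 * Z ∧ Ort p M}.ncard ≤ 16 * Z ^ 2 := by
    intro φ h1 h2
    have hfin : {p : Fin 3 → ℤ | nrm p < 2 * Z ∧ Ort p M}.Finite := by
      apply Set.Finite.of_finite_image _ h2
      exact (Finset.finite_toSet W).subset (by rintro _ ⟨p, hp, rfl⟩; exact h1 p hp)
    refine ⟨hfin, ?_⟩
    calc _ ≤ (W : Set (ℤ × ℤ)).ncard := Set.ncard_le_ncard_of_injOn φ h1 h2 (Finset.finite_toSet W)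
      _ = W.card := Set.ncard_coe_finset W
      _ ≤ _ := hWc
  have hb : ∀ p ∈ {p : Fin 3 → ℤ | nrm p < 2 * Z ∧ Ort p M}, ∀ i,
      p i ∈ Icc (-(2 * Z : ℤ) + 1) (2 * Z - 1) := by
    rintro p ⟨hp, -⟩ i
    have := abs_lt_of_nrm p (2 * Z) hp i
    rw [abs_lt] at this
    push_cast at this
    rw [Finset.mem_Icc]
    constructor <;> omega
  rcases hM with h | h
  · refine main (fun p => (p 1, p 2)) ?_ ?_
    · intro p hp
      rw [hW, Finset.mem_coe, Finset.mem_product]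
      exact ⟨hb p hp 1, hb p hp 2⟩
    · rintro p ⟨-, hp, -⟩ q ⟨-, hq, -⟩ hpq
      simp only [Prod.mk.injEq] at hpq
      obtain ⟨h1, h2⟩ := hpq
      have h3 : p 0 = q 0 := by
        apply mul_left_cancel₀ h
        rw [h1, h2] at hp
        linear_combination hp - hq
      funext i
      fin_cases i
      · exact h3
      · exact h1
      · exact h2
  · refine main (fun p => (p 0, p 1)) ?_ ?_
    · intro p hp
      rw [hW, Finset.mem_coe, Finset.mem_product]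
      exact ⟨hb p hp 0, hb p hp 1⟩
    · rintro p ⟨-, -, hp⟩ q ⟨-, -, hq⟩ hpq
      simp only [Prod.mk.injEq] at hpq
      obtain ⟨h1, h2⟩ := hpq
      have h3 : p 2 = q 2 := by
        apply mul_left_cancel₀ h
        rw [h1, h2] at hp
        linear_combination hp - hq
      funext i
      fin_cases i
      · exact h1
      · exact h2
      · exact h3

end PA_

open PA_ in
/-- PA: first bound for the number of the pairs. -/
theorem p_PA : T_PA := by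
  classical
  refine ⟨768, by norm_num, ?_⟩
  intro Z B hZ hB
  set ND : Set ((Fin 3 → ℤ) × (Fin 4 → ℤ)) := {t | t ∈ PP Z B ∧
    (t.2 0 * t.2 2 - t.2 1 ^ 2 ≠ 0 ∨ t.2 0 * t.2 3 - t.2 1 * t.2 2 ≠ 0 ∨
      t.2 1 * t.2 3 - t.2 2 ^ 2 ≠ 0)} with hND
  set DG : Set ((Fin 3 → ℤ) × (Fin 4 → ℤ)) := {t | t ∈ PP Z B ∧
    ¬ (t.2 0 * t.2 2 - t.2 1 ^ 2 ≠ 0 ∨ t.2 0 * t.2 3 - t.2 1 * t.2 2 ≠ 0 ∨
      t.2 1 * t.2 3 - t.2 2 ^ 2 ≠ 0)} with hDG
  have hU : PP Z B ⊆ ND ∪ DG := by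
    intro t ht
    by_cases h : (t.2 0 * t.2 2 - t.2 1 ^ 2 ≠ 0 ∨ t.2 0 * t.2 3 - t.2 1 * t.2 2 ≠ 0 ∨
      t.2 1 * t.2 3 - t.2 2 ^ 2 ≠ 0)
    · exact Or.inl ⟨ht, h⟩
    · exact Or.inr ⟨ht, h⟩
  -- non-degenerate part
  set BX : Finset (Fin 4 → ℤ) := Fintype.piFinset
    (fun _ => Icc (-(2 * B : ℤ) + 1) (2 * B - 1)) with hBX
  have hBXc : BX.card ≤ (4 * B) ^ 4 := by
    rw [hBX, Fintype.card_piFinset]
    simp only [Finset.prod_const, Finset.card_univ, Fintype.card_fin]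
    apply Nat.pow_le_pow_left
    rw [Int.card_Icc]
    omega
  have hb : ∀ t ∈ PP Z B, ∀ i, |t.2 i| < 2 * (B : ℤ) := by
    intro t ht i
    have := abs_lt_of_nrm t.2 (2 * B) ht.2.2.2.2.2.2 i
    push_cast at this
    exact this
  obtain ⟨n1, n2⟩ := fib ND BX 2 (by
      rintro t ⟨ht, -⟩
      rw [hBX, Fintype.mem_piFinset]
      intro i
      have := hb t ht i
      rw [abs_lt] at this
      rw [Finset.mem_Icc]
      constructor <;> omega) (by
      intro M _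
      by_cases hM : (M 0 * M 2 - M 1 ^ 2 ≠ 0 ∨ M 0 * M 3 - M 1 * M 2 ≠ 0 ∨
        M 1 * M 3 - M 2 ^ 2 ≠ 0)
      · obtain ⟨f1, f2⟩ := fibND M hM
        have hs : {p | (p, M) ∈ ND} ⊆ {p : Fin 3 → ℤ | Prim p ∧ Ort p M} := by
          rintro p ⟨hp, -⟩
          exact ⟨hp.1, hp.2.1⟩
        exact ⟨f1.subset hs, (Set.ncard_le_ncard hs f1).trans f2⟩
      · have hs : {p | (p, M) ∈ ND} = ∅ := by
          ext p
          simp only [Set.mem_ofPred_eq, Set.mem_empty_iff_false, iff_false]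
          rintro ⟨-, h⟩
          exact hM h
        rw [hs]; simp)
  obtain ⟨d1, d2⟩ := fib DG ((SS B).image G1 ∪ (SS B).image G2) (16 * Z ^ 2) (by
      rintro t ⟨ht, h⟩
      push Not at h
      obtain ⟨h1, h2, h3⟩ := h
      exact (deg_mem B t.2 (by linarith) (by linarith) (by linarith) ht.2.2.1 (hb t ht)).1) (by
      intro M _
      by_cases hM : M 0 ≠ 0 ∨ M 3 ≠ 0
      · obtain ⟨f1, f2⟩ := fibDG M Z hZ hM
        have hs : {p | (p, M) ∈ DG} ⊆ {p : Fin 3 → ℤ | nrm p < 2 * Z ∧ Ort p M} := by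
          rintro p ⟨hp, -⟩
          exact ⟨hp.2.2.2.2.1, hp.2.1⟩
        exact ⟨f1.subset hs, (Set.ncard_le_ncard hs f1).trans f2⟩
      · have hs : {p | (p, M) ∈ DG} = ∅ := by
          ext p
          simp only [Set.mem_ofPred_eq, Set.mem_empty_iff_false, iff_false]
          rintro ⟨ht, h⟩
          push Not at h
          obtain ⟨h1, h2, h3⟩ := h
          exact hM (deg_mem B M (by linarith) (by linarith) (by linarith) ht.2.2.1 (hb _ ht)).2
        rw [hs]; simp)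
  refine ⟨(n1.union d1).subset hU, ?_⟩
  have hc1 : (PP Z B).ncard ≤ ND.ncard + DG.ncard :=
    (Set.ncard_le_ncard hU (n1.union d1)).trans (Set.ncard_union_le _ _)
  have hc2 : (((SS B).image G1 ∪ (SS B).image G2).card : ℝ) ≤ 48 * B := by
    have h1 : ((SS B).image G1 ∪ (SS B).image G2).card ≤ (SS B).card + (SS B).card :=
      (Finset.card_union_le _ _).trans (Nat.add_le_add Finset.card_image_le Finset.card_image_le)
    have h2 := SS_card B
    have h3 : (((SS B).image G1 ∪ (SS B).image G2).card : ℝ) ≤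
        ((SS B).card : ℝ) + ((SS B).card : ℝ) := by exact_mod_cast h1
    linarith
  have hc3 : (ND.ncard : ℝ) ≤ 512 * (B : ℝ) ^ 4 := by
    have h1 : ND.ncard ≤ (4 * B) ^ 4 * 2 := n2.trans (Nat.mul_le_mul_right 2 hBXc)
    have h2 : (ND.ncard : ℝ) ≤ (4 * B) ^ 4 * 2 := by exact_mod_cast h1
    nlinarith
  have hc4 : (DG.ncard : ℝ) ≤ 768 * (B * (Z : ℝ) ^ 2) := by
    have h1 : (DG.ncard : ℝ) ≤ (((SS B).image G1 ∪ (SS B).image G2).card : ℝ) *
        (16 * (Z : ℝ) ^ 2) := by exact_mod_cast d2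
    have h2 : (((SS B).image G1 ∪ (SS B).image G2).card : ℝ) * (16 * (Z : ℝ) ^ 2) ≤
        (48 * B) * (16 * (Z : ℝ) ^ 2) := mul_le_mul_of_nonneg_right hc2 (by positivity)
    linarith
  have hc5 : ((PP Z B).ncard : ℝ) ≤ (ND.ncard : ℝ) + (DG.ncard : ℝ) := by exact_mod_cast hc1
  have h4 : (0 : ℝ) ≤ (B : ℝ) ^ 4 := by positivity
  linarith

end Pool.Agent.HGR
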