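import Pool.Agent.HGR.Targets

set_option autoImplicit false

/-! HGR-PB: second bound for the number of the pairs. -/

namespace Pool.Agent.HGR

open Finset
open scoped BigOperators

namespace PB_

lemma natAbs_le_nrm {n : ℕ} (p : Fin n → ℤ) (i : Fin n) : (p i).natAbs ≤ nrm p :=
  Finset.le_sup (f := fun i => (p i).natAbs) (mem_univ i)

lemma nrm_pos {n : ℕ} {p : Fin n → ℤ} (hp : p ≠ 0) : 1 ≤ nrm p := by
  by_contra h
  apply hp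
  funext i
  have := natAbs_le_nrm p i
  have h2 : (p i).natAbs = 0 := by omega
  simpa using h2

/-- the least norm of a nonzero vector orthogonal to `X p`, `Y p` -/
noncomputable def mi (p : Fin 3 → ℤ) : ℕ := sInf {n | ∃ M : Fin 4 → ℤ, Ort p M ∧ M ≠ 0 ∧ nrm M = n}

lemma mi_spec {p : Fin 3 → ℤ} (h : ∃ M : Fin 4 → ℤ, Ort p M ∧ M ≠ 0) :
    ∃ M1 : Fin 4 → ℤ, Ort p M1 ∧ M1 ≠ 0 ∧ nrm M1 = mi p ∧
      ∀ M : Fin 4 → ℤ, Ort p M → M ≠ 0 → nrm M1 ≤ nrm M := by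
  obtain ⟨M, h1, h2⟩ := h
  have hne : {n | ∃ M : Fin 4 → ℤ, Ort p M ∧ M ≠ 0 ∧ nrm M = n}.Nonempty := ⟨_, M, h1, h2, rfl⟩
  obtain ⟨M1, a1, a2, a3⟩ := Nat.sInf_mem hne
  refine ⟨M1, a1, a2, a3, fun M' b1 b2 => ?_⟩
  rw [a3]
  exact Nat.sInf_le ⟨M', b1, b2, rfl⟩

open Classical in
/-- the first components -/
noncomputable def P0 (Z : ℕ) : Finset (Fin 3 → ℤ) :=
  (Fintype.piFinset (fun _ => Icc (-(2 * Z : ℤ)) (2 * Z))).filter
    (fun p => Prim p ∧ Z ≤ nrm p ∧ nrm p < 2 * Z ∧ ∃ M : Fin 4 → ℤ, Ort p M ∧ M ≠ 0)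

lemma mem_P0 {Z : ℕ} {p : Fin 3 → ℤ} : p ∈ P0 Z ↔
    Prim p ∧ Z ≤ nrm p ∧ nrm p < 2 * Z ∧ ∃ M : Fin 4 → ℤ, Ort p M ∧ M ≠ 0 := by
  classical
  unfold P0
  rw [mem_filter]
  refine ⟨fun h => h.2, fun h => ⟨?_, h⟩⟩
  rw [Fintype.mem_piFinset]
  intro i
  rw [mem_Icc]
  have h1 := natAbs_le_nrm p i
  have h2 := h.2.2.1
  omega

lemma card_P0 (Z : ℕ) (hZ : 1 ≤ Z) : ((P0 Z).card : ℝ) ≤ 125 * (Z : ℝ) ^ 3 := by
  classical
  have h1 : (P0 Z).card ≤ (4 * Z + 1) ^ 3 := by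
    refine (card_filter_le _ _).trans ?_
    rw [Fintype.card_piFinset]
    simp only [Int.card_Icc, prod_const, card_univ, Fintype.card_fin]
    apply le_of_eq
    congr 1
    omega
  have h2 : ((P0 Z).card : ℝ) ≤ (4 * Z + 1) ^ 3 := by exact_mod_cast h1
  refine h2.trans ?_
  have h3 : (1 : ℝ) ≤ Z := by exact_mod_cast hZ
  calc (4 * (Z : ℝ) + 1) ^ 3 ≤ (5 * Z) ^ 3 := by gcongr; linarith
    _ = _ := by ring

/-- the number of the `p` with `mi p` in a dyadic range -/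
lemma card_fiber {K : ℝ} (hPA : ∀ Z B : ℕ, 1 ≤ Z → 1 ≤ B →
    (PP Z B).Finite ∧ ((PP Z B).ncard : ℝ) ≤ K * ((B : ℝ) ^ 4 + B * (Z : ℝ) ^ 2))
    (Z k : ℕ) (hZ : 1 ≤ Z) :
    (((P0 Z).filter (fun p => Nat.log 2 (mi p) = k)).card : ℝ) ≤
      K * (((2 ^ k : ℕ) : ℝ) ^ 4 + ((2 ^ k : ℕ) : ℝ) * (Z : ℝ) ^ 2) := by
  classical
  obtain ⟨hf, hb⟩ := hPA Z (2 ^ k) hZ Nat.one_le_two_pow
  refine le_trans ?_ hb
  have hch : ∀ p : Fin 3 → ℤ, ∃ M1 : Fin 4 → ℤ, p ∈ P0 Z → Ort p M1 ∧ M1 ≠ 0 ∧ nrm M1 = mi p := by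
    intro p
    by_cases hp : p ∈ P0 Z
    · obtain ⟨M1, a1, a2, a3, -⟩ := mi_spec (mem_P0.1 hp).2.2.2
      exact ⟨M1, fun _ => ⟨a1, a2, a3⟩⟩
    · exact ⟨0, fun h => absurd h hp⟩
  choose g hg using hch
  have h1 : ((P0 Z).filter (fun p => Nat.log 2 (mi p) = k)).card ≤ (PP Z (2 ^ k)).ncard := by
    rw [← Set.ncard_coe_finset]
    apply Set.ncard_le_ncard_of_injOn (fun p => (p, g p)) _ _ hf
    · intro p hp
      rw [Finset.mem_coe, mem_filter] at hp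
      obtain ⟨hp0, hk⟩ := hp
      obtain ⟨a1, a2, a3⟩ := hg p hp0
      obtain ⟨b1, b2, b3, -⟩ := mem_P0.1 hp0
      have c1 : 1 ≤ mi p := by rw [← a3]; exact nrm_pos a2
      refine ⟨b1, a1, a2, b2, b3, ?_, ?_⟩
      · show 2 ^ k ≤ nrm (g p)
        rw [a3, ← hk]
        exact Nat.pow_log_le_self 2 (by omega)
      · show nrm (g p) < 2 * 2 ^ k
        rw [a3, ← hk, ← pow_succ']
        exact Nat.lt_pow_succ_log_self (by norm_num) _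
    · intro p _ q _ h
      exact congrArg Prod.fst h
  exact_mod_cast h1

lemma PP_bound (hL : T_LAT) (Z B : ℕ) (hZ : 1 ≤ Z) (hB : 1 ≤ B) :
    ((PP Z B).ncard : ℝ) ≤ ∑ p ∈ P0 Z, (96 * (B : ℝ) ^ 2 / (Z : ℝ) ^ 2 + 6 * B / mi p) := by
  classical
  have hsub : PP Z B ⊆ ⋃ p ∈ P0 Z, (fun M => (p, M)) ''
      {M : Fin 4 → ℤ | Ort p M ∧ M ≠ 0 ∧ nrm M < 2 * B} := by
    rintro ⟨p, M⟩ ⟨h1, h2, h3, h4, h5, h6, h7⟩
    simp only [Set.mem_iUnion]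
    exact ⟨p, mem_P0.2 ⟨h1, h4, h5, M, h2, h3⟩, M, ⟨h2, h3, h7⟩, rfl⟩
  have hZ' : (0 : ℝ) < Z := by exact_mod_cast hZ
  have hB' : (0 : ℝ) < B := by exact_mod_cast hB
  have hp : ∀ p ∈ P0 Z, {M : Fin 4 → ℤ | Ort p M ∧ M ≠ 0 ∧ nrm M < 2 * B}.Finite ∧
      ({M : Fin 4 → ℤ | Ort p M ∧ M ≠ 0 ∧ nrm M < 2 * B}.ncard : ℝ) ≤
        96 * (B : ℝ) ^ 2 / (Z : ℝ) ^ 2 + 6 * B / mi p := by
    intro p hp
    obtain ⟨b1, b2, b3, b4⟩ := mem_P0.1 hp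
    obtain ⟨M1, a1, a2, a3, a4⟩ := mi_spec b4
    obtain ⟨c1, c2⟩ := hL p M1 B b1 a1 a2 a4 hB
    refine ⟨c1, c2.trans ?_⟩
    rw [a3]
    gcongr
  have hfin : (⋃ p ∈ P0 Z, (fun M => (p, M)) ''
      {M : Fin 4 → ℤ | Ort p M ∧ M ≠ 0 ∧ nrm M < 2 * B}).Finite :=
    Set.Finite.biUnion (Finset.finite_toSet _) fun p h => (hp p h).1.image _
  have h1 : (PP Z B).ncard ≤ ∑ p ∈ P0 Z,
      {M : Fin 4 → ℤ | Ort p M ∧ M ≠ 0 ∧ nrm M < 2 * B}.ncard := by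
    refine (Set.ncard_le_ncard hsub hfin).trans ((Finset.set_ncard_biUnion_le _ _).trans ?_)
    exact Finset.sum_le_sum fun p h => Set.ncard_image_le (hp p h).1
  calc ((PP Z B).ncard : ℝ) ≤ ((∑ p ∈ P0 Z,
      {M : Fin 4 → ℤ | Ort p M ∧ M ≠ 0 ∧ nrm M < 2 * B}.ncard : ℕ) : ℝ) := by exact_mod_cast h1
    _ ≤ _ := by
      push_cast
      exact Finset.sum_le_sum fun p h => (hp p h).2

lemma mi_pos {Z : ℕ} {p : Fin 3 → ℤ} (hp : p ∈ P0 Z) : 1 ≤ mi p := by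
  obtain ⟨M1, a1, a2, a3, -⟩ := mi_spec (mem_P0.1 hp).2.2.2
  rw [← a3]; exact nrm_pos a2

/-- the sum of the inverses -/
lemma sum_inv {K : ℝ} (hK : 0 < K) (hPA : ∀ Z B : ℕ, 1 ≤ Z → 1 ≤ B →
    (PP Z B).Finite ∧ ((PP Z B).ncard : ℝ) ≤ K * ((B : ℝ) ^ 4 + B * (Z : ℝ) ^ 2))
    (Z : ℕ) (hZ : 1 ≤ Z) :
    ∑ p ∈ P0 Z, (1 : ℝ) / mi p ≤ (125 + 9 * K) * (Z : ℝ) ^ ((9 : ℝ) / 4) := by
  classical
  have hZ1 : (1 : ℝ) ≤ Z := by exact_mod_cast hZ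
  have hZ0 : (0 : ℝ) ≤ Z := by linarith
  obtain ⟨W, hW⟩ : ∃ W : ℝ, W = (Z : ℝ) ^ ((1 : ℝ) / 4) := ⟨_, rfl⟩
  have hW1 : 1 ≤ W := by rw [hW]; exact Real.one_le_rpow hZ1 (by norm_num)
  have hW0 : 0 < W := by linarith
  have hW4 : W ^ 4 = Z := by
    rw [hW, ← Real.rpow_natCast, ← Real.rpow_mul hZ0]; norm_num
  have hW9 : (Z : ℝ) ^ ((9 : ℝ) / 4) = W ^ 9 := by
    rw [hW, ← Real.rpow_natCast, ← Real.rpow_mul hZ0]; norm_num
  obtain ⟨k0, hk1, hk2⟩ := exists_nat_pow_near (one_le_pow₀ hW1 : 1 ≤ W ^ 3) (one_lt_two)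
  -- number of the dyadic ranges
  have hk0 : (k0 : ℝ) + 1 ≤ 7 * W := by
    have h1 : (k0 : ℝ) * Real.log 2 ≤ 3 * Real.log W := by
      have := Real.log_le_log (by positivity) hk1
      rwa [Real.log_pow, Real.log_pow] at this
    have h2 : Real.log W ≤ W := (Real.log_le_sub_one_of_pos hW0).trans (by linarith)
    have h3 : (1 / 2 : ℝ) < Real.log 2 := by
      have := Real.log_two_gt_d9; linarith
    have h4 : (k0 : ℝ) * (1 / 2) ≤ (k0 : ℝ) * Real.log 2 := by gcongr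
    nlinarith
  rw [← Finset.sum_filter_add_sum_filter_not (P0 Z) (fun p => mi p < 2 ^ (k0 + 1))]
  have hfirst : ∑ p ∈ (P0 Z).filter (fun p => mi p < 2 ^ (k0 + 1)), (1 : ℝ) / mi p ≤
      9 * K * W ^ 9 := by
    have hmaps : ∀ p ∈ (P0 Z).filter (fun p => mi p < 2 ^ (k0 + 1)),
        Nat.log 2 (mi p) ∈ range (k0 + 1) := by
      intro p hp
      rw [mem_filter] at hp
      rw [mem_range]
      have := mi_pos hp.1
      exact Nat.log_lt_of_lt_pow (by omega) hp.2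
    rw [← Finset.sum_fiberwise_of_maps_to hmaps]
    have hfib : ∀ k ∈ range (k0 + 1),
        ∑ p ∈ ((P0 Z).filter (fun p => mi p < 2 ^ (k0 + 1))).filter
          (fun p => Nat.log 2 (mi p) = k), (1 : ℝ) / mi p ≤ K * ((8 : ℝ) ^ k + W ^ 8) := by
      intro k _
      have h1 : ∀ p ∈ ((P0 Z).filter (fun p => mi p < 2 ^ (k0 + 1))).filter
          (fun p => Nat.log 2 (mi p) = k), (1 : ℝ) / mi p ≤ 1 / 2 ^ k := by
        intro p hp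
        rw [mem_filter, mem_filter] at hp
        have h2 := mi_pos hp.1.1
        have h3 : 2 ^ k ≤ mi p := by
          rw [← hp.2]; exact Nat.pow_log_le_self 2 (by omega)
        have h4 : ((2 : ℝ)) ^ k ≤ mi p := by exact_mod_cast h3
        exact one_div_le_one_div_of_le (by positivity) h4
      refine (Finset.sum_le_card_nsmul _ _ _ h1).trans ?_
      rw [nsmul_eq_mul]
      have h5 : (((((P0 Z).filter (fun p => mi p < 2 ^ (k0 + 1))).filter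
          (fun p => Nat.log 2 (mi p) = k)).card : ℕ) : ℝ) ≤
          K * (((2 ^ k : ℕ) : ℝ) ^ 4 + ((2 ^ k : ℕ) : ℝ) * (Z : ℝ) ^ 2) := by
        refine le_trans ?_ (card_fiber hPA Z k hZ)
        exact_mod_cast Finset.card_le_card (Finset.filter_subset_filter _ (Finset.filter_subset _ _))
      calc _ ≤ (K * (((2 ^ k : ℕ) : ℝ) ^ 4 + ((2 ^ k : ℕ) : ℝ) * (Z : ℝ) ^ 2)) * (1 / 2 ^ k) := by
            gcongr
        _ = K * ((8 : ℝ) ^ k + W ^ 8) := by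
            have e1 : (8 : ℝ) ^ k = (2 ^ k) ^ 3 := by
              rw [← pow_mul, mul_comm k 3, pow_mul]; norm_num
            have e2 : W ^ 8 = (Z : ℝ) ^ 2 := by rw [← hW4]; ring
            have e3 : (2 : ℝ) ^ k ≠ 0 := by positivity
            rw [e1, e2]
            push_cast
            field_simp
    refine (Finset.sum_le_sum hfib).trans ?_
    rw [← Finset.mul_sum, Finset.sum_add_distrib, Finset.sum_const, card_range, nsmul_eq_mul]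
    have h8 : ∑ k ∈ range (k0 + 1), (8 : ℝ) ^ k ≤ 2 * W ^ 9 := by
      have h9 : ∑ k ∈ range (k0 + 1), (8 : ℝ) ^ k = (8 ^ (k0 + 1) - 1) / (8 - 1) :=
        geom_sum_eq (by norm_num) _
      rw [h9]
      have h10 : (8 : ℝ) ^ k0 ≤ W ^ 9 := by
        calc (8 : ℝ) ^ k0 = (2 ^ k0) ^ 3 := by
              rw [← pow_mul, mul_comm k0 3, pow_mul]; norm_num
          _ ≤ (W ^ 3) ^ 3 := by gcongr
          _ = W ^ 9 := by ring
      rw [div_le_iff₀ (by norm_num), pow_succ]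
      have : 0 ≤ W ^ 9 := by positivity
      linarith
    have h11 : ((k0 + 1 : ℕ) : ℝ) * W ^ 8 ≤ 7 * W ^ 9 := by
      push_cast
      calc ((k0 : ℝ) + 1) * W ^ 8 ≤ (7 * W) * W ^ 8 := by gcongr
        _ = _ := by ring
    calc K * (∑ k ∈ range (k0 + 1), (8 : ℝ) ^ k + ((k0 + 1 : ℕ) : ℝ) * W ^ 8) ≤
        K * (2 * W ^ 9 + 7 * W ^ 9) := by gcongr
      _ = _ := by ring
  have hsecond : ∑ p ∈ (P0 Z).filter (fun p => ¬ mi p < 2 ^ (k0 + 1)), (1 : ℝ) / mi p ≤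
      125 * W ^ 9 := by
    have h1 : ∀ p ∈ (P0 Z).filter (fun p => ¬ mi p < 2 ^ (k0 + 1)), (1 : ℝ) / mi p ≤ 1 / W ^ 3 := by
      intro p hp
      rw [mem_filter, not_lt] at hp
      have h2 : ((2 : ℝ)) ^ (k0 + 1) ≤ mi p := by exact_mod_cast hp.2
      exact one_div_le_one_div_of_le (by positivity) (hk2.le.trans h2)
    refine (Finset.sum_le_card_nsmul _ _ _ h1).trans ?_
    rw [nsmul_eq_mul]
    have h3 : ((((P0 Z).filter (fun p => ¬ mi p < 2 ^ (k0 + 1))).card : ℕ) : ℝ) ≤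
        125 * (Z : ℝ) ^ 3 := by
      refine le_trans ?_ (card_P0 Z hZ)
      exact_mod_cast Finset.card_le_card (Finset.filter_subset _ _)
    calc _ ≤ 125 * (Z : ℝ) ^ 3 * (1 / W ^ 3) := by gcongr
      _ = 125 * W ^ 9 := by
        rw [← hW4]; field_simp
  rw [hW9]
  linarith

end PB_

open PB_

theorem p_PB (h1 : T_PA) (h2 : T_LAT) : T_PB := by
  obtain ⟨K, hK, hPA⟩ := h1
  refine ⟨12000 + 6 * (125 + 9 * K), by positivity, fun Z B hZ hB => ?_⟩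
  have hZ' : (0 : ℝ) < Z := by exact_mod_cast hZ
  have hB' : (0 : ℝ) < B := by exact_mod_cast hB
  refine (PP_bound h2 Z B hZ hB).trans ?_
  rw [Finset.sum_add_distrib, Finset.sum_const, nsmul_eq_mul]
  have e : ∑ p ∈ P0 Z, (6 * B / mi p : ℝ) = 6 * B * ∑ p ∈ P0 Z, (1 : ℝ) / mi p := by
    rw [Finset.mul_sum]
    exact Finset.sum_congr rfl fun p _ => by ring
  rw [e]
  have h3 := sum_inv hK hPA Z hZ
  have h4 := card_P0 Z hZ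
  have h5 : ((P0 Z).card : ℝ) * (96 * (B : ℝ) ^ 2 / (Z : ℝ) ^ 2) ≤ 12000 * ((B : ℝ) ^ 2 * Z) := by
    calc ((P0 Z).card : ℝ) * (96 * (B : ℝ) ^ 2 / (Z : ℝ) ^ 2) ≤
        125 * (Z : ℝ) ^ 3 * (96 * (B : ℝ) ^ 2 / (Z : ℝ) ^ 2) := by gcongr
      _ = 12000 * ((B : ℝ) ^ 2 * Z) := by field_simp; ring
  have h6 : 6 * B * ∑ p ∈ P0 Z, (1 : ℝ) / mi p ≤
      6 * (125 + 9 * K) * (B * (Z : ℝ) ^ ((9 : ℝ) / 4)) := by
    calc 6 * B * ∑ p ∈ P0 Z, (1 : ℝ) / mi p ≤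
        6 * B * ((125 + 9 * K) * (Z : ℝ) ^ ((9 : ℝ) / 4)) := by gcongr
      _ = _ := by ring
  have h7 : (0 : ℝ) ≤ B * (Z : ℝ) ^ ((9 : ℝ) / 4) := by positivity
  have h8 : (0 : ℝ) ≤ (B : ℝ) ^ 2 * Z := by positivity
  nlinarith

end Pool.Agent.HGR
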