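import Pool.Agent.HGR.Targets

set_option autoImplicit false

/-!
# PRE: a map with a rational preperiodic point does not increase the height of some point
-/

namespace Pool.Agent.HGR

open Finset
open scoped BigOperators

namespace PRE_

lemma val_hom {R : Type} [CommRing R] {n : ℕ} (c : Fin (n + 1) → ℤ) (t x y : R) :
    val c (t * x) (t * y) = t ^ n * val c x y := by
  unfold val
  rw [Finset.mul_sum]
  apply Finset.sum_congr rfl
  intro i _
  have h : t ^ n = t ^ (i : ℕ) * t ^ (n + 1 - 1 - (i : ℕ)) := by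
    rw [← pow_add]
    congr 1
    omega
  rw [h, mul_pow, mul_pow]
  ring

lemma val_cast {R : Type} [CommRing R] {n : ℕ} (c : Fin n → ℤ) (x y : ℤ) :
    ((val c x y : ℤ) : R) = val c (x : R) (y : R) := by
  unfold val
  push_cast
  rfl

lemma ht_mul (a b : ℤ) : ht a b * Int.gcd a b = mx a b := by
  unfold ht
  apply Nat.div_mul_cancel
  unfold mx
  rcases le_total a.natAbs b.natAbs with h | h
  · rw [max_eq_right h]
    exact Int.natAbs_dvd_natAbs.2 (Int.gcd_dvd_right a b)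
  · rw [max_eq_left h]
    exact Int.natAbs_dvd_natAbs.2 (Int.gcd_dvd_left a b)

lemma ht_eq {a b a' b' : ℤ} (h : a ≠ 0 ∨ b ≠ 0) (h' : a' ≠ 0 ∨ b' ≠ 0) (hp : a * b' = a' * b) :
    ht a b = ht a' b' := by
  have g0 : Int.gcd a b ≠ 0 := by
    rw [Ne, Int.gcd_eq_zero_iff]
    tauto
  have g0' : Int.gcd a' b' ≠ 0 := by
    rw [Ne, Int.gcd_eq_zero_iff]
    tauto
  have e1 : a.natAbs * Int.gcd a' b' = a'.natAbs * Int.gcd a b := by
    rw [← Int.gcd_mul_left, ← Int.gcd_mul_left, hp, mul_comm a a']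
  have e2 : b.natAbs * Int.gcd a' b' = b'.natAbs * Int.gcd a b := by
    rw [← Int.gcd_mul_left, ← Int.gcd_mul_left, mul_comm b a', ← hp, mul_comm b b', mul_comm a b']
  have e3 : mx a b * Int.gcd a' b' = mx a' b' * Int.gcd a b := by
    have h1 : ∀ p q r : ℕ, max p q * r = max (p * r) (q * r) := by
      intro p q r
      rcases le_total p q with h | h
      · rw [max_eq_right h, max_eq_right (Nat.mul_le_mul_right r h)]
      · rw [max_eq_left h, max_eq_left (Nat.mul_le_mul_right r h)]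
    unfold mx
    rw [h1, h1, e1, e2]
  rw [← ht_mul a b, ← ht_mul a' b'] at e3
  have e4 : ht a b * (Int.gcd a b * Int.gcd a' b') = ht a' b' * (Int.gcd a b * Int.gcd a' b') := by
    rw [← mul_assoc, e3]
    ring
  exact Nat.eq_of_mul_eq_mul_right (Nat.pos_of_ne_zero (mul_ne_zero g0 g0')) e4

/-- The orbit of an integer point. -/
def orbit {d : ℕ} (f : (Fin (d + 1) → ℤ) × (Fin (d + 1) → ℤ)) (p : ℤ × ℤ) : ℕ → ℤ × ℤ
  | 0 => p
  | j + 1 => (val f.1 (orbit f p j).1 (orbit f p j).2, val f.2 (orbit f p j).1 (orbit f p j).2)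

lemma orbit_ne {d H : ℕ} {f : (Fin (d + 1) → ℤ) × (Fin (d + 1) → ℤ)} (hf : f ∈ Maps d H)
    {p : ℤ × ℤ} (hp : p.1 ≠ 0 ∨ p.2 ≠ 0) (j : ℕ) :
    (orbit f p j).1 ≠ 0 ∨ (orbit f p j).2 ≠ 0 := by
  induction j with
  | zero => exact hp
  | succ j ih =>
    by_contra hcon
    push Not at hcon
    obtain ⟨h1, h2⟩ := hcon
    have h3 := hf.2.2 ((orbit f p j).1 : ℂ) ((orbit f p j).2 : ℂ)
      (by rw [← val_cast]; exact_mod_cast h1) (by rw [← val_cast]; exact_mod_cast h2)
    have h4 : (orbit f p j).1 = 0 := by exact_mod_cast h3.1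
    have h5 : (orbit f p j).2 = 0 := by exact_mod_cast h3.2
    rcases ih with h | h
    · exact h h4
    · exact h h5

lemma iterate_eq {d : ℕ} (f : (Fin (d + 1) → ℤ) × (Fin (d + 1) → ℤ)) (p : ℤ × ℤ) (t : ℚ)
    (ht0 : t ≠ 0) (j : ℕ) : ∃ u : ℚ, u ≠ 0 ∧ (step f)^[j] (t * p.1, t * p.2) =
      (u * (orbit f p j).1, u * (orbit f p j).2) := by
  induction j with
  | zero => exact ⟨t, ht0, rfl⟩
  | succ j ih =>
    obtain ⟨u, hu, h⟩ := ih
    refine ⟨u ^ d, pow_ne_zero _ hu, ?_⟩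
    rw [Function.iterate_succ_apply', h]
    unfold step
    simp only
    rw [val_hom, val_hom, ← val_cast, ← val_cast]
    rfl

end PRE_

open PRE_ in
theorem p_PRE : T_PRE := by
  intro d H _ f hf hpre
  obtain ⟨v, hv, m, n, hmn, c, hc, heq⟩ := hpre
  by_contra hbad
  have hinc : ∀ a b : ℤ, (a ≠ 0 ∨ b ≠ 0) → ht a b < ht (val f.1 a b) (val f.2 a b) := by
    intro a b hab
    by_contra hcon
    exact hbad ⟨hf, a, b, hab, not_lt.1 hcon⟩
  set p : ℤ × ℤ := (v.1.num * v.2.den, v.2.num * v.1.den) with hp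
  have hd1 : (v.1.den : ℚ) ≠ 0 := by exact_mod_cast v.1.den_nz
  have hd2 : (v.2.den : ℚ) ≠ 0 := by exact_mod_cast v.2.den_nz
  set t : ℚ := ((v.1.den : ℚ) * v.2.den)⁻¹ with ht'
  have ht0 : t ≠ 0 := inv_ne_zero (mul_ne_zero hd1 hd2)
  have hvp : v = (t * p.1, t * p.2) := by
    have h1 : v.1 = v.1.num / v.1.den := (Rat.num_div_den v.1).symm
    have h2 : v.2 = v.2.num / v.2.den := (Rat.num_div_den v.2).symm
    apply Prod.ext
    · simp only [hp, ht']
      push_cast
      conv_lhs => rw [h1]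
      field_simp
    · simp only [hp, ht']
      push_cast
      conv_lhs => rw [h2]
      field_simp
  have hp0 : p.1 ≠ 0 ∨ p.2 ≠ 0 := by
    by_contra hcon
    push Not at hcon
    apply hv
    rw [hvp, hcon.1, hcon.2]
    simp
  have hmono : StrictMono (fun j => ht (orbit f p j).1 (orbit f p j).2) := by
    apply strictMono_nat_of_lt_succ
    intro j
    exact hinc _ _ (orbit_ne hf hp0 j)
  obtain ⟨u, hu, h1⟩ := iterate_eq f p t ht0 m
  obtain ⟨u', hu', h2⟩ := iterate_eq f p t ht0 n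
  rw [hvp, h1, h2] at heq
  have e1 := congrArg Prod.fst heq
  have e2 := congrArg Prod.snd heq
  simp only [Prod.smul_mk, smul_eq_mul] at e1 e2
  have e3 : ((orbit f p n).1 : ℚ) * (orbit f p m).2 = (orbit f p m).1 * (orbit f p n).2 := by
    have e4 : u' * ((orbit f p n).1 * (orbit f p m).2) =
        u' * ((orbit f p m).1 * (orbit f p n).2) := by
      linear_combination (orbit f p m).2 * e1 - (orbit f p m).1 * e2
    exact mul_left_cancel₀ hu' e4
  have e5 : (orbit f p n).1 * (orbit f p m).2 = (orbit f p m).1 * (orbit f p n).2 := by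
    exact_mod_cast e3
  have e6 := ht_eq (orbit_ne hf hp0 n) (orbit_ne hf hp0 m) e5
  have e7 := hmono hmn
  simp only at e7
  omega

end Pool.Agent.HGR
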