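import Pool.Agent.HGR.Targets

set_option autoImplicit false

namespace Pool.Agent.HGR

open Finset
open scoped BigOperators

namespace RES_

theorem val_bd {d : ℕ} (U : Fin d → ℤ) (K X : ℤ) (hK : ∀ i, |U i| ≤ K) (a b : ℤ) (ha : |a| ≤ X)
    (hb : |b| ≤ X) : |(val U a b : ℤ)| ≤ d * (K * X ^ (d - 1)) := by
  have hX : 0 ≤ X := (abs_nonneg a).trans ha
  have h : ∀ i ∈ (univ : Finset (Fin d)),
      |((U i : ℤ) : ℤ) * a ^ (i : ℕ) * b ^ (d - 1 - (i : ℕ))| ≤ K * X ^ (d - 1) := by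
    intro i _
    rw [abs_mul, abs_mul, abs_pow, abs_pow]
    have h1 : |a| ^ (i : ℕ) ≤ X ^ (i : ℕ) := pow_le_pow_left₀ (abs_nonneg a) ha _
    have h2 : |b| ^ (d - 1 - (i : ℕ)) ≤ X ^ (d - 1 - (i : ℕ)) :=
      pow_le_pow_left₀ (abs_nonneg b) hb _
    have h3 : X ^ (d - 1) = X ^ (i : ℕ) * X ^ (d - 1 - (i : ℕ)) := by
      rw [← pow_add]
      congr 1
      omega
    have hK0 : 0 ≤ K := (abs_nonneg _).trans (hK i)
    rw [h3, ← mul_assoc]
    have e1 : |U i| * |a| ^ (i : ℕ) ≤ K * X ^ (i : ℕ) :=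
      mul_le_mul (hK i) h1 (by positivity) hK0
    exact mul_le_mul e1 h2 (by positivity) (by positivity)
  unfold val
  calc |∑ i : Fin d, ((U i : ℤ) : ℤ) * a ^ (i : ℕ) * b ^ (d - 1 - (i : ℕ))|
      ≤ ∑ i : Fin d, |((U i : ℤ) : ℤ) * a ^ (i : ℕ) * b ^ (d - 1 - (i : ℕ))| :=
        abs_sum_le_sum_abs _ _
    _ ≤ ∑ _i : Fin d, K * X ^ (d - 1) := sum_le_sum h
    _ = d * (K * X ^ (d - 1)) := by
        rw [sum_const, card_univ, Fintype.card_fin, nsmul_eq_mul]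

theorem le_mx_left (a b : ℤ) : |a| ≤ (mx a b : ℤ) := by
  rw [Int.abs_eq_natAbs]
  exact_mod_cast le_max_left _ _

theorem le_mx_right (a b : ℤ) : |b| ≤ (mx a b : ℤ) := by
  rw [Int.abs_eq_natAbs]
  exact_mod_cast le_max_right _ _

theorem mx_pos {a b : ℤ} (h : IsCoprime a b) : 1 ≤ mx a b := by
  rcases Nat.eq_zero_or_pos (mx a b) with h0 | h0
  · exfalso
    unfold mx at h0
    have h1 : a.natAbs = 0 := by omega
    have h2 : b.natAbs = 0 := by omega
    rw [Int.natAbs_eq_zero] at h1 h2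
    subst h1 h2
    exact not_isCoprime_zero_zero h
  · exact h0

/-- one coordinate -/
theorem one {d : ℕ} (U V : Fin d → ℤ) (K X Y : ℤ) (hU : ∀ i, |U i| ≤ K) (hV : ∀ i, |V i| ≤ K)
    (a b r s D' t : ℤ) (ha : |a| ≤ X) (hb : |b| ≤ X) (hr : |r| ≤ Y) (hs : |s| ≤ Y) (hD : D' ≠ 0)
    (h : D' * t = val U a b * r + val V a b * s) :
    |t| ≤ 2 * d * K * X ^ (d - 1) * Y := by
  have h1 : 1 ≤ |D'| := Int.one_le_abs hD
  have h2 : |t| ≤ |D' * t| := by
    rw [abs_mul]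
    nlinarith [abs_nonneg t]
  have h3 := val_bd U K X hU a b ha hb
  have h4 := val_bd V K X hV a b ha hb
  have hY : 0 ≤ Y := (abs_nonneg r).trans hr
  have h5 : |(val U a b : ℤ) * r| ≤ d * (K * X ^ (d - 1)) * Y := by
    rw [abs_mul]
    exact mul_le_mul h3 hr (abs_nonneg _) ((abs_nonneg _).trans h3)
  have h6 : |(val V a b : ℤ) * s| ≤ d * (K * X ^ (d - 1)) * Y := by
    rw [abs_mul]
    exact mul_le_mul h4 hs (abs_nonneg _) ((abs_nonneg _).trans h4)
  rw [h] at h2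
  calc |t| ≤ |(val U a b : ℤ) * r + val V a b * s| := h2
    _ ≤ |(val U a b : ℤ) * r| + |(val V a b : ℤ) * s| := abs_add_le _ _
    _ ≤ d * (K * X ^ (d - 1)) * Y + d * (K * X ^ (d - 1)) * Y := add_le_add h5 h6
    _ = _ := by ring

end RES_

open RES_

theorem p_RES (h1 : T_BEZ) : T_RES := by
  intro d hd
  obtain ⟨C, hC⟩ := h1 d hd
  refine ⟨2 * d * C, ?_⟩
  intro H hH f hf a b r s k hab hrs hk hF hG
  obtain ⟨D, hD, U, V, U', V', hU, hV, hU', hV', hB⟩ := hC H hH f hf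
  obtain ⟨hB1, hB2⟩ := hB a b
  rw [hF, hG] at hB1 hB2
  have hd1 : k ∣ D * a ^ (2 * d - 1) := ⟨val U a b * r + val V a b * s, by rw [hB1]; ring⟩
  have hd2 : k ∣ D * b ^ (2 * d - 1) := ⟨val U' a b * r + val V' a b * s, by rw [hB2]; ring⟩
  have hcp : IsCoprime (a ^ (2 * d - 1)) (b ^ (2 * d - 1)) := hab.pow
  obtain ⟨x, y, hxy⟩ := hcp
  have hkD : k ∣ D := by
    have : D = x * (D * a ^ (2 * d - 1)) + y * (D * b ^ (2 * d - 1)) := by
      calc D = D * (x * a ^ (2 * d - 1) + y * b ^ (2 * d - 1)) := by rw [hxy, mul_one]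
        _ = _ := by ring
    rw [this]
    exact dvd_add (hd1.mul_left _) (hd2.mul_left _)
  obtain ⟨D', rfl⟩ := hkD
  have hD' : D' ≠ 0 := right_ne_zero_of_mul hD
  have e1 : D' * a ^ (2 * d - 1) = val U a b * r + val V a b * s := by
    apply mul_left_cancel₀ hk
    rw [← mul_assoc, hB1]
    ring
  have e2 : D' * b ^ (2 * d - 1) = val U' a b * r + val V' a b * s := by
    apply mul_left_cancel₀ hk
    rw [← mul_assoc, hB2]
    ring
  have g1 := one U V _ _ _ hU hV a b r s D' _ (le_mx_left a b) (le_mx_right a b) (le_mx_left r s)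
    (le_mx_right r s) hD' e1
  have g2 := one U' V' _ _ _ hU' hV' a b r s D' _ (le_mx_left a b) (le_mx_right a b)
    (le_mx_left r s) (le_mx_right r s) hD' e2
  have g3 : (mx a b : ℤ) ^ (2 * d - 1) ≤
      2 * d * ((C : ℤ) * H ^ (2 * d - 1)) * (mx a b : ℤ) ^ (d - 1) * (mx r s : ℤ) := by
    rcases le_total a.natAbs b.natAbs with h | h
    · have : (mx a b : ℤ) = |b| := by
        rw [Int.abs_eq_natAbs]
        unfold mx
        rw [max_eq_right h]
      rw [abs_pow, ← this] at g2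
      exact g2
    · have : (mx a b : ℤ) = |a| := by
        rw [Int.abs_eq_natAbs]
        unfold mx
        rw [max_eq_left h]
      rw [abs_pow, ← this] at g1
      exact g1
  have g4 : (mx a b) ^ (2 * d - 1) ≤
      2 * d * (C * H ^ (2 * d - 1)) * (mx a b) ^ (d - 1) * (mx r s) := by exact_mod_cast g3
  have g5 : 2 * d - 1 = (d - 1) + d := by omega
  have hX := mx_pos hab
  have g6 : (mx a b) ^ (d - 1) * (mx a b) ^ d ≤
      (mx a b) ^ (d - 1) * (2 * d * C * H ^ (2 * d - 1) * mx r s) := by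
    rw [← pow_add, ← g5]
    refine g4.trans (le_of_eq ?_)
    ring
  exact Nat.le_of_mul_le_mul_left g6 (by positivity)

end Pool.Agent.HGR
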