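import Pool.Agent.HGR.Targets

set_option autoImplicit false

namespace Pool.Agent.HGR

open Finset
open scoped BigOperators

namespace SH_

/-- the square -/
noncomputable def Sq (N : ℕ) : Finset (ℤ × ℤ) := Icc (-(N : ℤ)) N ×ˢ Icc (-(N : ℤ)) N

lemma mem_Sq (N : ℕ) (p : ℤ × ℤ) : p ∈ Sq N ↔ mx p.1 p.2 ≤ N := by
  simp only [Sq, mem_product, mem_Icc, mx]
  omega

lemma card_Sq (N : ℕ) : (Sq N).card = (2 * N + 1) ^ 2 := by
  simp only [Sq, card_product, Int.card_Icc]
  have : ((N : ℤ) + 1 - -(N : ℤ)).toNat = 2 * N + 1 := by omega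
  rw [this, sq]

end SH_

open SH_ in
theorem p_SH : T_SH := by
  intro g N
  induction N with
  | zero =>
    rw [Finset.sum_eq_zero]
    · simp
    · intro p hp
      exfalso
      rw [mem_filter, mem_product, mem_Icc, mem_Icc] at hp
      simp only [Nat.cast_zero, neg_zero] at hp
      apply hp.2
      ext
      · simp only [Prod.fst_zero]; omega
      · simp only [Prod.snd_zero]; omega
  | succ N ih =>
    have h1 : (Icc (-((N + 1 : ℕ) : ℤ)) (N + 1 : ℕ) ×ˢ Icc (-((N + 1 : ℕ) : ℤ)) (N + 1 : ℕ)).filter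
        (fun p => p ≠ 0) = (Icc (-(N : ℤ)) N ×ˢ Icc (-(N : ℤ)) N).filter (fun p => p ≠ 0) ∪
          (Sq (N + 1) \ Sq N) := by
      change (Sq (N + 1)).filter (fun p => p ≠ 0) = (Sq N).filter (fun p => p ≠ 0) ∪ _
      ext p
      simp only [mem_filter, mem_union, mem_sdiff, mem_Sq]
      constructor
      · rintro ⟨h, h0⟩
        by_cases hN : mx p.1 p.2 ≤ N
        · exact Or.inl ⟨hN, h0⟩
        · exact Or.inr ⟨h, hN⟩
      · rintro (⟨h, h0⟩ | ⟨h, h0⟩)
        · exact ⟨by omega, h0⟩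
        · refine ⟨h, ?_⟩
          rintro rfl
          apply h0
          simp [mx]
    have h2 : Disjoint ((Icc (-(N : ℤ)) N ×ˢ Icc (-(N : ℤ)) N).filter (fun p => p ≠ 0))
        (Sq (N + 1) \ Sq N) := by
      rw [Finset.disjoint_left]
      intro p hp hp'
      rw [mem_sdiff] at hp'
      exact hp'.2 (mem_filter.mp hp).1
    have h3 : ∑ p ∈ Sq (N + 1) \ Sq N, g (mx p.1 p.2) = 8 * ((N + 1 : ℕ) : ℝ) * g (N + 1) := by
      rw [Finset.sum_congr rfl (g := fun _ => g (N + 1))]
      · rw [Finset.sum_const, Finset.card_sdiff_of_subset, card_Sq, card_Sq, nsmul_eq_mul]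
        · congr 1
          have : (2 * (N + 1) + 1) ^ 2 - (2 * N + 1) ^ 2 = 8 * (N + 1) := by
            have h : (2 * (N + 1) + 1) ^ 2 = 8 * (N + 1) + (2 * N + 1) ^ 2 := by ring
            rw [h, Nat.add_sub_cancel]
          rw [this]
          push_cast
          ring
        · intro p hp
          rw [mem_Sq] at hp ⊢
          omega
      · intro p hp
        rw [mem_sdiff, mem_Sq, mem_Sq] at hp
        have : mx p.1 p.2 = N + 1 := by omega
        rw [this]
    rw [h1, sum_union h2, ih, h3, Finset.sum_Icc_succ_top (by omega)]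

end Pool.Agent.HGR
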