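import Pool.Agent.HGR.Targets

set_option autoImplicit false
set_option maxHeartbeats 4000000

namespace Pool.Agent.HGR

open Finset

namespace SUMM_

theorem term_le (e : ℕ) (K : ℝ) (hK : 0 < K) : ∃ C4 : ℝ, 0 ≤ C4 ∧ ∀ (H m i : ℕ) (s t : ℝ),
    1 ≤ H → 2 * H < m → m ≤ 2 ^ (i + 1) → ∀ z : ℕ, z = 2 * (e + 4) * H * m / 2 ^ i →
    (z = 0 → t = 0) →
    (1 ≤ z → 0 ≤ s ∧ s ≤
      K * ((z : ℝ) * H * (1 + Real.log H) * (1 + Real.log z) + (z : ℝ) ^ 2 * (1 + Real.log z) +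
        ((z : ℝ) * H) ^ 2 / m)) →
    (1 ≤ z → 0 ≤ t ∧ t ≤
      4 * (((e + 4 : ℕ) : ℝ)) ^ 2 * (3 * (z : ℝ)) ^ e * s ^ 2) →
    216 * (4 : ℝ) ^ i / m * t ≤
      C4 * (H : ℝ) ^ (e + 4) * ((2 : ℝ) ^ i * ((1 + Real.log H) ^ 4 + (H : ℝ) ^ 4 / ((2 : ℝ) ^ i) ^ 2)) := by
  set D : ℝ := ((e + 4 : ℕ) : ℝ) with hD
  have hD4 : 4 ≤ D := by rw [hD]; exact_mod_cast (by omega : 4 ≤ e + 4)
  have hlogD : 0 ≤ Real.log (4 * D) := Real.log_nonneg (by linarith)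
  set cd : ℝ := 1 + Real.log (4 * D) with hcd
  have hcd1 : 1 ≤ cd := by rw [hcd]; linarith
  set A : ℝ := cd * (1 + 4 * D) + 2 * D with hA
  have hA0 : 0 ≤ A := by positivity
  set C3 : ℝ := 8 * D ^ 2 * 3 ^ e * (K ^ 2 * A ^ 2) with hC3
  have hC30 : 0 ≤ C3 := by positivity
  refine ⟨216 * C3 * (2 * D) ^ (e + 2) * 2 ^ (e + 1), by positivity, ?_⟩
  intro H m i s t hH hm1 hm2 z hz ht0 hs ht
  have hHr : (1 : ℝ) ≤ (H : ℝ) := by exact_mod_cast hH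
  have hlogH : 0 ≤ Real.log H := Real.log_nonneg hHr
  set L : ℝ := 1 + Real.log H with hL
  have hL1 : 1 ≤ L := by rw [hL]; linarith
  set w : ℝ := (2 : ℝ) ^ i with hw
  have hw1 : 1 ≤ w := one_le_pow₀ (by norm_num)
  have h4i : (4 : ℝ) ^ i = w ^ 2 := by
    rw [hw, ← pow_mul, mul_comm, pow_mul]; norm_num
  have hm0 : (0 : ℝ) < (m : ℝ) := by exact_mod_cast (by omega : 0 < m)
  have hm2' : (m : ℝ) ≤ 2 * w := by
    have : (m : ℝ) ≤ ((2 ^ (i + 1) : ℕ) : ℝ) := by exact_mod_cast hm2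
    rw [hw]
    calc (m : ℝ) ≤ ((2 ^ (i + 1) : ℕ) : ℝ) := this
      _ = 2 * 2 ^ i := by push_cast; ring
  have hE : 0 ≤ L ^ 4 + (H : ℝ) ^ 4 / w ^ 2 := by positivity
  rcases Nat.eq_zero_or_pos z with hz0 | hzpos
  · rw [ht0 hz0, mul_zero]; positivity
  obtain ⟨hs0, hs1⟩ := hs hzpos
  obtain ⟨ht0', ht1⟩ := ht hzpos
  have hz1 : (1 : ℝ) ≤ (z : ℝ) := by exact_mod_cast hzpos
  have hzx : (z : ℝ) ≤ 2 * D * H * m / w := by
    rw [hz]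
    refine (Nat.cast_div_le).trans (le_of_eq ?_)
    rw [hw, hD]; push_cast; ring
  have hz4 : (z : ℝ) ≤ 4 * D * H := by
    refine hzx.trans ?_
    rw [div_le_iff₀ (by positivity)]
    nlinarith [mul_le_mul_of_nonneg_left hm2' (by positivity : (0 : ℝ) ≤ 2 * D * H)]
  have hlz : 1 + Real.log z ≤ cd * L := by
    have h1 : Real.log z ≤ Real.log (4 * D * H) := Real.log_le_log (by positivity) hz4
    rw [Real.log_mul (by positivity) (by positivity)] at h1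
    rw [hcd, hL]
    nlinarith [mul_nonneg hlogD hlogH]
  have hlz0 : 0 ≤ Real.log z := Real.log_nonneg hz1
  have hL2 : L ≤ L ^ 2 := by nlinarith
  have hs2 : s ≤ K * A * ((z : ℝ) * H) * (L ^ 2 + (H : ℝ) ^ 2 / w) := by
    have hzH : 0 ≤ (z : ℝ) * H := by positivity
    have e1 : (z : ℝ) * H * L * (1 + Real.log z) ≤ cd * (((z : ℝ) * H) * L ^ 2) := by
      calc (z : ℝ) * H * L * (1 + Real.log z) ≤ (z : ℝ) * H * L * (cd * L) := by gcongr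
        _ = cd * (((z : ℝ) * H) * L ^ 2) := by ring
    have e2 : (z : ℝ) ^ 2 * (1 + Real.log z) ≤ 4 * D * cd * (((z : ℝ) * H) * L ^ 2) := by
      calc (z : ℝ) ^ 2 * (1 + Real.log z) ≤ (z * (4 * D * H)) * (cd * L ^ 2) := by
            rw [pow_two (z : ℝ)]
            gcongr
            exact hlz.trans (by gcongr)
        _ = 4 * D * cd * (((z : ℝ) * H) * L ^ 2) := by ring
    have e3 : ((z : ℝ) * H) ^ 2 / m ≤ 2 * D * (((z : ℝ) * H) * ((H : ℝ) ^ 2 / w)) := by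
      calc ((z : ℝ) * H) ^ 2 / m = ((z : ℝ) * H) * (z * H) / m := by ring
        _ ≤ ((z : ℝ) * H) * ((2 * D * H * m / w) * H) / m := by gcongr
        _ = 2 * D * (((z : ℝ) * H) * ((H : ℝ) ^ 2 / w)) := by field_simp
    have hq : 0 ≤ (H : ℝ) ^ 2 / w := by positivity
    have e4 : (z : ℝ) * H * L * (1 + Real.log z) + (z : ℝ) ^ 2 * (1 + Real.log z) +
        ((z : ℝ) * H) ^ 2 / m ≤ A * ((z : ℝ) * H) * (L ^ 2 + (H : ℝ) ^ 2 / w) := by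
      have e5 : A * ((z : ℝ) * H) * (L ^ 2 + (H : ℝ) ^ 2 / w) =
        cd * (((z : ℝ) * H) * L ^ 2) + 4 * D * cd * (((z : ℝ) * H) * L ^ 2) +
        2 * D * (((z : ℝ) * H) * ((H : ℝ) ^ 2 / w)) + (2 * D * (((z : ℝ) * H) * L ^ 2) +
        cd * (1 + 4 * D) * (((z : ℝ) * H) * ((H : ℝ) ^ 2 / w))) := by rw [hA]; ring
      rw [e5]
      have : 0 ≤ 2 * D * (((z : ℝ) * H) * L ^ 2) +
        cd * (1 + 4 * D) * (((z : ℝ) * H) * ((H : ℝ) ^ 2 / w)) := by positivity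
      linarith
    calc s ≤ K * ((z : ℝ) * H * L * (1 + Real.log z) + (z : ℝ) ^ 2 * (1 + Real.log z) +
        ((z : ℝ) * H) ^ 2 / m) := hs1
      _ ≤ K * (A * ((z : ℝ) * H) * (L ^ 2 + (H : ℝ) ^ 2 / w)) := by gcongr
      _ = _ := by ring
  have hs3 : s ^ 2 ≤ 2 * (K ^ 2 * A ^ 2) * ((z : ℝ) * H) ^ 2 * (L ^ 4 + (H : ℝ) ^ 4 / w ^ 2) := by
    have e1 : (L ^ 2 + (H : ℝ) ^ 2 / w) ^ 2 ≤ 2 * (L ^ 4 + (H : ℝ) ^ 4 / w ^ 2) := by
      have : (H : ℝ) ^ 4 / w ^ 2 = ((H : ℝ) ^ 2 / w) ^ 2 := by rw [div_pow]; ring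
      rw [this]
      nlinarith [sq_nonneg (L ^ 2 - (H : ℝ) ^ 2 / w)]
    calc s ^ 2 ≤ (K * A * ((z : ℝ) * H) * (L ^ 2 + (H : ℝ) ^ 2 / w)) ^ 2 := by gcongr
      _ = (K ^ 2 * A ^ 2) * ((z : ℝ) * H) ^ 2 * (L ^ 2 + (H : ℝ) ^ 2 / w) ^ 2 := by ring
      _ ≤ (K ^ 2 * A ^ 2) * ((z : ℝ) * H) ^ 2 * (2 * (L ^ 4 + (H : ℝ) ^ 4 / w ^ 2)) := by gcongr
      _ = _ := by ring
  have ht2 : t ≤ C3 * (z : ℝ) ^ (e + 2) * (H : ℝ) ^ 2 * (L ^ 4 + (H : ℝ) ^ 4 / w ^ 2) := by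
    calc t ≤ 4 * D ^ 2 * (3 * (z : ℝ)) ^ e * s ^ 2 := ht1
      _ ≤ 4 * D ^ 2 * (3 * (z : ℝ)) ^ e *
          (2 * (K ^ 2 * A ^ 2) * ((z : ℝ) * H) ^ 2 * (L ^ 4 + (H : ℝ) ^ 4 / w ^ 2)) := by gcongr
      _ = _ := by rw [hC3, mul_pow]; ring
  have hfin : (216 : ℝ) * w ^ 2 / m * (2 * D * H * m / w) ^ (e + 2) ≤
      216 * (2 * D) ^ (e + 2) * 2 ^ (e + 1) * (H : ℝ) ^ (e + 2) * w := by
    have e1 : (216 : ℝ) * w ^ 2 / m * (2 * D * H * m / w) ^ (e + 2) =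
        216 * (2 * D) ^ (e + 2) * (H : ℝ) ^ (e + 2) * ((m : ℝ) ^ (e + 1) / w ^ e) := by
      rw [div_pow, mul_pow, mul_pow]
      field_simp
      ring
    have e2 : (m : ℝ) ^ (e + 1) / w ^ e ≤ 2 ^ (e + 1) * w := by
      rw [div_le_iff₀ (by positivity)]
      calc (m : ℝ) ^ (e + 1) ≤ (2 * w) ^ (e + 1) := by gcongr
        _ = 2 ^ (e + 1) * w * w ^ e := by rw [mul_pow]; ring
    rw [e1]
    calc 216 * (2 * D) ^ (e + 2) * (H : ℝ) ^ (e + 2) * ((m : ℝ) ^ (e + 1) / w ^ e)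
        ≤ 216 * (2 * D) ^ (e + 2) * (H : ℝ) ^ (e + 2) * (2 ^ (e + 1) * w) := by gcongr
      _ = _ := by ring
  rw [h4i]
  calc 216 * w ^ 2 / m * t ≤ 216 * w ^ 2 / m *
        (C3 * (z : ℝ) ^ (e + 2) * (H : ℝ) ^ 2 * (L ^ 4 + (H : ℝ) ^ 4 / w ^ 2)) := by gcongr
    _ ≤ 216 * w ^ 2 / m *
        (C3 * (2 * D * H * m / w) ^ (e + 2) * (H : ℝ) ^ 2 * (L ^ 4 + (H : ℝ) ^ 4 / w ^ 2)) := by
        gcongr
    _ = (216 * w ^ 2 / m * (2 * D * H * m / w) ^ (e + 2)) *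
        (C3 * (H : ℝ) ^ 2 * (L ^ 4 + (H : ℝ) ^ 4 / w ^ 2)) := by ring
    _ ≤ (216 * (2 * D) ^ (e + 2) * 2 ^ (e + 1) * (H : ℝ) ^ (e + 2) * w) *
        (C3 * (H : ℝ) ^ 2 * (L ^ 4 + (H : ℝ) ^ 4 / w ^ 2)) := by gcongr
    _ = _ := by ring

theorem geo (I : ℕ) : ∑ i ∈ range (I + 1), (4 : ℝ) ^ i ≤ 2 * 4 ^ I := by
  induction I with
  | zero => norm_num
  | succ n ih =>
    rw [sum_range_succ]
    have : (0 : ℝ) ≤ 4 ^ n := by positivity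
    calc _ ≤ 2 * (4 : ℝ) ^ n + 4 ^ (n + 1) := by gcongr
      _ ≤ 2 * (4 : ℝ) ^ (n + 1) := by rw [pow_succ]; linarith

end SUMM_

open SUMM_

theorem p_SUMM : T_SUMM := by
  intro d C K hd hK
  obtain ⟨e, rfl⟩ : ∃ e, d = e + 4 := ⟨d - 4, by omega⟩
  obtain ⟨C4, hC4, hterm⟩ := term_le e K hK
  set C' : ℝ := max (C : ℝ) 1 with hC'
  have hC'1 : 1 ≤ C' := le_max_right _ _
  have hlogC : 0 ≤ Real.log C' := Real.log_nonneg hC'1
  set c7 : ℝ := 1 + 2 * Real.log C' + 2 * (2 * e + 7) with hc7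
  have hc70 : 0 ≤ c7 := by positivity
  refine ⟨2 * C4 * (2 * (C' ^ 2 * 13 ^ 4) + c7 * 13), ?_⟩
  intro H hH
  have hHr : (1 : ℝ) ≤ (H : ℝ) := by exact_mod_cast hH
  have hlogH : 0 ≤ Real.log H := Real.log_nonneg hHr
  refine ⟨Nat.log 2 (C * H ^ (2 * (e + 4) - 1)) / (e + 3), ?_, ?_⟩
  · intro X hX hXC
    rw [Nat.le_div_iff_mul_le (by omega)]
    apply Nat.le_log_of_pow_le (by norm_num)
    calc 2 ^ (Nat.log 2 X * (e + 3)) = (2 ^ Nat.log 2 X) ^ (e + 3) := by rw [pow_mul]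
      _ ≤ X ^ (e + 3) := Nat.pow_le_pow_left (Nat.pow_log_le_self 2 (by omega)) _
      _ = X ^ (e + 4 - 1) := by congr 1
      _ ≤ _ := hXC
  · intro S T hT0 hS hT
    set I : ℕ := Nat.log 2 (C * H ^ (2 * (e + 4) - 1)) / (e + 3) with hI
    have hI1 : ((2 : ℝ) ^ I) ^ (e + 3) ≤ C' * (H : ℝ) ^ (2 * e + 7) := by
      rw [← pow_mul]
      have h1 : I * (e + 3) ≤ Nat.log 2 (C * H ^ (2 * (e + 4) - 1)) := Nat.div_mul_le_self _ _
      have h2 : (2 : ℝ) ^ (I * (e + 3)) ≤ (2 : ℝ) ^ (Nat.log 2 (C * H ^ (2 * (e + 4) - 1))) :=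
        pow_le_pow_right₀ (by norm_num) h1
      refine h2.trans ?_
      rcases Nat.eq_zero_or_pos C with hC0 | hCpos
      · rw [hC0, zero_mul, Nat.log_zero_right, pow_zero]
        exact one_le_mul_of_one_le_of_one_le hC'1 (one_le_pow₀ hHr)
      · have h3 : 2 ^ (Nat.log 2 (C * H ^ (2 * (e + 4) - 1))) ≤ C * H ^ (2 * (e + 4) - 1) :=
          Nat.pow_log_le_self 2 (by positivity)
        have h4 : ((2 ^ (Nat.log 2 (C * H ^ (2 * (e + 4) - 1))) : ℕ) : ℝ) ≤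
          ((C * H ^ (2 * (e + 4) - 1) : ℕ) : ℝ) := by exact_mod_cast h3
        push_cast at h4
        refine h4.trans ?_
        have h5 : 2 * (e + 4) - 1 = 2 * e + 7 := by omega
        rw [h5]
        gcongr
        exact le_max_left _ _
    have hw1 : (1 : ℝ) ≤ 2 ^ I := one_le_pow₀ (by norm_num)
    -- bound for I
    have hI2 : (I : ℝ) + 1 ≤ c7 * (1 + Real.log H) := by
      have h1 : (2 : ℝ) ^ I ≤ C' * (H : ℝ) ^ (2 * e + 7) :=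
        (le_self_pow₀ hw1 (by omega)).trans hI1
      have h2 : (I : ℝ) * Real.log 2 ≤ Real.log C' + (2 * e + 7) * Real.log H := by
        have h3 := Real.log_le_log (by positivity) h1
        rw [Real.log_pow, Real.log_mul (by positivity) (by positivity), Real.log_pow] at h3
        push_cast at h3
        linarith
      have h4 : (1 : ℝ) / 2 ≤ Real.log 2 := by
        have := Real.log_two_gt_d9; linarith
      have h5 : (I : ℝ) * (1 / 2) ≤ Real.log C' + (2 * e + 7) * Real.log H := by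
        refine le_trans ?_ h2
        gcongr
      have h6 : c7 * (1 + Real.log H) = (1 + 2 * Real.log C' + 2 * (2 * e + 7)) +
        (1 + 2 * Real.log C') * Real.log H + 2 * ((2 * e + 7) * Real.log H) := by rw [hc7]; ring
      rw [h6]
      have h7 : 0 ≤ (1 + 2 * Real.log C') * Real.log H := by positivity
      have h8 : (0 : ℝ) ≤ e := by positivity
      linarith
    -- bound for 4 ^ I
    have hI3 : (4 : ℝ) ^ I ≤ C' ^ 2 * (H : ℝ) ^ ((14 : ℝ) / 3) := by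
      have h0 : (0 : ℝ) ≤ C' ^ 2 * (H : ℝ) ^ ((14 : ℝ) / 3) := by positivity
      refine le_of_pow_le_pow_left₀ (n := e + 3) (by omega) h0 ?_
      have h1 : ((4 : ℝ) ^ I) ^ (e + 3) = (((2 : ℝ) ^ I) ^ (e + 3)) ^ 2 := by
        have h4i : (4 : ℝ) ^ I = ((2 : ℝ) ^ I) ^ 2 := by
          rw [← pow_mul, mul_comm, pow_mul]; norm_num
        rw [h4i]; ring
      rw [h1]
      calc (((2 : ℝ) ^ I) ^ (e + 3)) ^ 2 ≤ (C' * (H : ℝ) ^ (2 * e + 7)) ^ 2 := by gcongr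
        _ = C' ^ 2 * (H : ℝ) ^ (4 * e + 14) := by rw [mul_pow, ← pow_mul]; congr 2; ring
        _ ≤ (C' ^ 2) ^ (e + 3) * (H : ℝ) ^ ((14 : ℝ) / 3 * ((e + 3 : ℕ) : ℝ)) := by
            gcongr
            · exact le_self_pow₀ (one_le_pow₀ hC'1) (by omega)
            · rw [← Real.rpow_natCast]
              apply Real.rpow_le_rpow_of_exponent_le hHr
              push_cast
              have : (0 : ℝ) ≤ e := by positivity
              linarith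
        _ = (C' ^ 2 * (H : ℝ) ^ ((14 : ℝ) / 3)) ^ (e + 3) := by
            rw [mul_pow, Real.rpow_mul (by positivity), Real.rpow_natCast]
    have hL : 1 + Real.log H ≤ 13 * (H : ℝ) ^ ((1 : ℝ) / 12) := by
      have h1 : Real.log H ≤ (H : ℝ) ^ ((1 : ℝ) / 12) / (1 / 12) :=
        Real.log_le_rpow_div (by positivity) (by norm_num)
      have h2 : (1 : ℝ) ≤ (H : ℝ) ^ ((1 : ℝ) / 12) := Real.one_le_rpow hHr (by norm_num)
      linarith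
    have hL4 : (1 + Real.log H) ^ 4 ≤ 13 ^ 4 * (H : ℝ) ^ ((1 : ℝ) / 3) := by
      calc (1 + Real.log H) ^ 4 ≤ (13 * (H : ℝ) ^ ((1 : ℝ) / 12)) ^ 4 := by gcongr
        _ = 13 ^ 4 * (H : ℝ) ^ ((1 : ℝ) / 3) := by
          rw [mul_pow, ← Real.rpow_natCast ((H : ℝ) ^ ((1 : ℝ) / 12)), ← Real.rpow_mul (by positivity)]
          norm_num
    -- the inner sums
    have hin : ∀ i ∈ range (I + 1), ∑ m ∈ Ioc (2 * H) (2 ^ (i + 1)),
        216 * (4 : ℝ) ^ i / m * T m (2 * (e + 4) * H * m / 2 ^ i) ≤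
        2 * C4 * (H : ℝ) ^ (e + 4) * (4 ^ i * (1 + Real.log H) ^ 4 + (H : ℝ) ^ 4) := by
      intro i _
      have h1 : ∀ m ∈ Ioc (2 * H) (2 ^ (i + 1)),
          216 * (4 : ℝ) ^ i / m * T m (2 * (e + 4) * H * m / 2 ^ i) ≤
          C4 * (H : ℝ) ^ (e + 4) * ((2 : ℝ) ^ i *
            ((1 + Real.log H) ^ 4 + (H : ℝ) ^ 4 / ((2 : ℝ) ^ i) ^ 2)) := by
        intro m hm
        rw [mem_Ioc] at hm
        refine hterm H m i (S m (2 * (e + 4) * H * m / 2 ^ i)) _ hH hm.1 hm.2 _ rfl ?_ ?_ ?_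
        · intro h; rw [h]; exact hT0 m
        · intro h; exact hS m _ h hm.1
        · intro h; exact hT m _ h
      refine (sum_le_card_nsmul _ _ _ h1).trans ?_
      rw [nsmul_eq_mul]
      have hcard : ((Ioc (2 * H) (2 ^ (i + 1))).card : ℝ) ≤ 2 * 2 ^ i := by
        have : (Ioc (2 * H) (2 ^ (i + 1))).card ≤ 2 ^ (i + 1) := by
          rw [Nat.card_Ioc]; exact Nat.sub_le _ _
        calc ((Ioc (2 * H) (2 ^ (i + 1))).card : ℝ) ≤ ((2 ^ (i + 1) : ℕ) : ℝ) := by exact_mod_cast this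
          _ = 2 * 2 ^ i := by push_cast; ring
      have h4i : (4 : ℝ) ^ i = ((2 : ℝ) ^ i) ^ 2 := by
        rw [← pow_mul, mul_comm, pow_mul]; norm_num
      calc _ ≤ (2 * 2 ^ i) * (C4 * (H : ℝ) ^ (e + 4) * ((2 : ℝ) ^ i *
            ((1 + Real.log H) ^ 4 + (H : ℝ) ^ 4 / ((2 : ℝ) ^ i) ^ 2))) := by gcongr
        _ = _ := by
          rw [h4i]
          have : (2 : ℝ) ^ i ≠ 0 := by positivity
          field_simp
    calc _ ≤ ∑ i ∈ range (I + 1),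
          2 * C4 * (H : ℝ) ^ (e + 4) * (4 ^ i * (1 + Real.log H) ^ 4 + (H : ℝ) ^ 4) := sum_le_sum hin
      _ = 2 * C4 * (H : ℝ) ^ (e + 4) * ((∑ i ∈ range (I + 1), (4 : ℝ) ^ i) * (1 + Real.log H) ^ 4 +
          (I + 1) * (H : ℝ) ^ 4) := by
          rw [← mul_sum, sum_add_distrib, ← sum_mul, sum_const, card_range, nsmul_eq_mul]
          push_cast
          ring
      _ ≤ 2 * C4 * (H : ℝ) ^ (e + 4) * ((2 * (C' ^ 2 * (H : ℝ) ^ ((14 : ℝ) / 3))) *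
          (13 ^ 4 * (H : ℝ) ^ ((1 : ℝ) / 3)) + (c7 * (13 * (H : ℝ))) * (H : ℝ) ^ 4) := by
          have g1 : ∑ i ∈ range (I + 1), (4 : ℝ) ^ i ≤ 2 * (C' ^ 2 * (H : ℝ) ^ ((14 : ℝ) / 3)) :=
            (geo I).trans (by gcongr)
          have g2 : (I : ℝ) + 1 ≤ c7 * (13 * (H : ℝ)) := by
            refine hI2.trans ?_
            gcongr
            refine hL.trans ?_
            gcongr
            calc (H : ℝ) ^ ((1 : ℝ) / 12) ≤ (H : ℝ) ^ (1 : ℝ) :=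
                  Real.rpow_le_rpow_of_exponent_le hHr (by norm_num)
              _ = H := Real.rpow_one _
          gcongr
      _ = 2 * C4 * (2 * (C' ^ 2 * 13 ^ 4) + c7 * 13) * (H : ℝ) ^ (e + 9) := by
          have g3 : (H : ℝ) ^ ((14 : ℝ) / 3) * (H : ℝ) ^ ((1 : ℝ) / 3) = (H : ℝ) ^ 5 := by
            rw [← Real.rpow_add (by positivity), ← Real.rpow_natCast]
            norm_num
          have g4 : 2 * C4 * (H : ℝ) ^ (e + 4) * ((2 * (C' ^ 2 * (H : ℝ) ^ ((14 : ℝ) / 3))) *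
          (13 ^ 4 * (H : ℝ) ^ ((1 : ℝ) / 3)) + (c7 * (13 * (H : ℝ))) * (H : ℝ) ^ 4) =
            2 * C4 * (H : ℝ) ^ (e + 4) * (2 * (C' ^ 2 * 13 ^ 4) *
            ((H : ℝ) ^ ((14 : ℝ) / 3) * (H : ℝ) ^ ((1 : ℝ) / 3)) + c7 * 13 * (H : ℝ) ^ 5) := by ring
          rw [g4, g3]; ring
      _ ≤ 2 * C4 * (2 * (C' ^ 2 * 13 ^ 4) + c7 * 13) * (H : ℝ) ^ (2 * (e + 4) + 1) := by
          exact mul_le_mul_of_nonneg_left (pow_le_pow_right₀ hHr (by omega)) (by positivity)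

end Pool.Agent.HGR
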