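import Mathlib

set_option autoImplicit false

/-!
# Height growth at every rational point for 100% of rational maps (MP_c076ed_nt)

Definitions and exact targets. The complete proofs are in `Blueprint.lean.txt`.
-/

namespace Pool.Agent.HGR

open Finset
open scoped BigOperators

/-! ## Definitions used in the final statement -/

/-- The value at `(x, y)` of the binary form of degree `n - 1` with coefficients `c`: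
the sum of `c i * x ^ i * y ^ (n - 1 - i)`. -/
def val {R : Type} [CommRing R] {n : ℕ} (c : Fin n → ℤ) (x y : R) : R :=
  ∑ i : Fin n, (c i : R) * x ^ (i : ℕ) * y ^ (n - 1 - (i : ℕ))

/-- maximum of the absolute values -/
def mx (a b : ℤ) : ℕ := max a.natAbs b.natAbs

/-- The height of the point `(a : b)` of the projective line over the rationals, for integers
`a, b` which are not both zero. -/
def ht (a b : ℤ) : ℕ := mx a b / Int.gcd a b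

/-- The pairs of integral binary forms of degree `d` with coefficients at most `H` in absolute
value and without common zero: the maps of degree `d` of height at most `H`. -/
def Maps (d H : ℕ) : Set ((Fin (d + 1) → ℤ) × (Fin (d + 1) → ℤ)) :=
  {f | (∀ i, |f.1 i| ≤ (H : ℤ)) ∧ (∀ i, |f.2 i| ≤ (H : ℤ)) ∧
    ∀ x y : ℂ, val f.1 x y = 0 → val f.2 x y = 0 → x = 0 ∧ y = 0}

/-- The maps which do not increase the height of some rational point. -/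
def Bad (d H : ℕ) : Set ((Fin (d + 1) → ℤ) × (Fin (d + 1) → ℤ)) :=
  {f | f ∈ Maps d H ∧ ∃ a b : ℤ, (a ≠ 0 ∨ b ≠ 0) ∧ ht (val f.1 a b) (val f.2 a b) ≤ ht a b}

/-- The map on homogeneous coordinates. -/
def step {d : ℕ} (f : (Fin (d + 1) → ℤ) × (Fin (d + 1) → ℤ)) (v : ℚ × ℚ) : ℚ × ℚ :=
  (val f.1 v.1 v.2, val f.2 v.1 v.2)

/-- The map has a rational preperiodic point. -/
def HasPre {d : ℕ} (f : (Fin (d + 1) → ℤ) × (Fin (d + 1) → ℤ)) : Prop :=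
  ∃ v : ℚ × ℚ, v ≠ 0 ∧ ∃ m n : ℕ, m < n ∧ ∃ c : ℚ, c ≠ 0 ∧ (step f)^[n] v = c • (step f)^[m] v

/-! ## Internal definitions -/

/-- coefficient with value zero outside the range -/
def co {n : ℕ} (c : Fin n → ℤ) (j : ℕ) : ℤ := if h : j < n then c ⟨j, h⟩ else 0

/-- coefficient of index `j` of the product of the linear form `b X - a Y` with `Ψ` -/
def mulL {n : ℕ} (a b : ℤ) (Ψ : Fin n → ℤ) (j : ℕ) : ℤ :=
  b * (if j = 0 then 0 else co Ψ (j - 1)) - a * co Ψ j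

/-- the witness of a bad map: the map sends `(a : b)` to `(r : s)` -/
structure Wit (d H C : ℕ) (F G : Fin (d + 1) → ℤ) (a b r s : ℤ) (Ψ : Fin d → ℤ) : Prop where
  hF : ∀ i, |F i| ≤ (H : ℤ)
  hG : ∀ i, |G i| ≤ (H : ℤ)
  ab : IsCoprime a b
  rs : IsCoprime r s
  le : mx r s ≤ mx a b
  nz : Ψ ≠ 0
  rel : ∀ j : Fin (d + 1), s * F j - r * G j = mulL a b Ψ j
  size : ∀ j, (mx a b : ℤ) * |Ψ j| ≤ 2 * d * H * mx r s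
  res : mx a b ^ d ≤ C * H ^ (2 * d - 1) * mx r s

/-- maps with a witness of small image height -/
def Bad1 (d H C : ℕ) : Set ((Fin (d + 1) → ℤ) × (Fin (d + 1) → ℤ)) :=
  {f | ∃ (a b r s : ℤ) (Ψ : Fin d → ℤ), Wit d H C f.1 f.2 a b r s Ψ ∧ mx r s ≤ 2 * H}

/-- maps with a witness of large image height -/
def Bad2 (d H C : ℕ) : Set ((Fin (d + 1) → ℤ) × (Fin (d + 1) → ℤ)) :=
  {f | ∃ (a b r s : ℤ) (Ψ : Fin d → ℤ), Wit d H C f.1 f.2 a b r s Ψ ∧ 2 * H < r.natAbs ∧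
    s.natAbs ≤ r.natAbs}

/-! ## Targets: algebra -/

/-- FACT: a form that vanishes at a primitive integer point is divisible by the linear form. -/
def T_FACT : Prop := ∀ (d : ℕ) (A : Fin (d + 1) → ℤ) (a b : ℤ), IsCoprime a b →
  (val A a b : ℤ) = 0 → ∃ Ψ : Fin d → ℤ, (∀ j : Fin (d + 1), A j = mulL a b Ψ j) ∧
    ∀ M : ℕ, (∀ j, |A j| ≤ (M : ℤ)) → ∀ j, (mx a b : ℤ) * |Ψ j| ≤ d * M

/-- BEZ: Bezout identities with bounded coefficients (adjugate of the Sylvester matrix). -/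
def T_BEZ : Prop := ∀ d : ℕ, 1 ≤ d → ∃ C : ℕ, ∀ H : ℕ, 1 ≤ H →
  ∀ f ∈ Maps d H, ∃ D : ℤ, D ≠ 0 ∧ ∃ U V U' V' : Fin d → ℤ,
    (∀ i, |U i| ≤ (C : ℤ) * H ^ (2 * d - 1)) ∧ (∀ i, |V i| ≤ (C : ℤ) * H ^ (2 * d - 1)) ∧
    (∀ i, |U' i| ≤ (C : ℤ) * H ^ (2 * d - 1)) ∧ (∀ i, |V' i| ≤ (C : ℤ) * H ^ (2 * d - 1)) ∧
    ∀ x y : ℤ, D * x ^ (2 * d - 1) = val U x y * val f.1 x y + val V x y * val f.2 x y ∧
      D * y ^ (2 * d - 1) = val U' x y * val f.1 x y + val V' x y * val f.2 x y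

/-- RES (from T_BEZ): bound for the height of a point in terms of the height of its image. -/
def T_RES : Prop := ∀ d : ℕ, 1 ≤ d → ∃ C : ℕ, ∀ H : ℕ, 1 ≤ H → ∀ f ∈ Maps d H,
  ∀ a b r s k : ℤ, IsCoprime a b → IsCoprime r s → k ≠ 0 → val f.1 a b = k * r →
    val f.2 a b = k * s → mx a b ^ d ≤ C * H ^ (2 * d - 1) * mx r s

/-- WIT (from T_FACT, T_RES): every bad map has a witness. -/
def T_WIT : Prop := ∀ d : ℕ, 1 ≤ d → ∃ C : ℕ, ∀ H : ℕ, 1 ≤ H → ∀ f ∈ Bad d H,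
  ∃ (a b r s : ℤ) (Ψ : Fin d → ℤ), Wit d H C f.1 f.2 a b r s Ψ

/-- PRE: a map with a rational preperiodic point does not increase the height of some rational
point. -/
def T_PRE : Prop := ∀ (d H : ℕ), 1 ≤ d → ∀ f ∈ Maps d H, HasPre f → f ∈ Bad d H

/-- LOW: there are many maps, and many maps with a rational fixed point. -/
def T_LOW : Prop := ∀ d : ℕ, 1 ≤ d → ∃ c : ℝ, 0 < c ∧ ∀ H : ℕ, 1 ≤ H →
  c * (H : ℝ) ^ (2 * d + 1) ≤ ({f | f ∈ Maps d H ∧ HasPre f}.ncard : ℝ) ∧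
  c * (H : ℝ) ^ (2 * d + 2) ≤ ((Maps d H).ncard : ℝ)

/-! ## Targets: small image height -/

/-- LIN: number of solutions of a linear equation. -/
def T_LIN : Prop := ∀ (H : ℕ) (r s A : ℤ), IsCoprime r s →
  {p : ℤ × ℤ | |p.1| ≤ (H : ℤ) ∧ |p.2| ≤ (H : ℤ) ∧ s * p.1 - r * p.2 = A}.ncard ≤
    2 * H / mx r s + 1

/-- N1 (from T_LIN): number of the maps with a given witness. -/
def T_N1 : Prop := ∀ (d H C : ℕ), 1 ≤ H → ∀ a b r s : ℤ, 1 ≤ mx r s → mx r s ≤ 2 * H →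
  {f : (Fin (d + 1) → ℤ) × (Fin (d + 1) → ℤ) | ∃ Ψ, Wit d H C f.1 f.2 a b r s Ψ}.Finite ∧
  ({f : (Fin (d + 1) → ℤ) × (Fin (d + 1) → ℤ) | ∃ Ψ, Wit d H C f.1 f.2 a b r s Ψ}.ncard : ℝ) ≤
    (6 * d * H * mx r s / mx a b : ℝ) ^ d * (4 * H / mx r s : ℝ) ^ (d + 1)

/-- SH: sums over the nonzero points of a square. -/
def T_SH : Prop := ∀ (g : ℕ → ℝ) (N : ℕ),
  ∑ p ∈ (Icc (-(N : ℤ)) N ×ˢ Icc (-(N : ℤ)) N).filter (fun p => p ≠ 0), g (mx p.1 p.2) =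
    ∑ x ∈ Icc 1 N, 8 * (x : ℝ) * g x

/-- CASE1 (from T_N1, T_SH): the maps with a witness of small image height. -/
def T_CASE1 : Prop := ∀ d C : ℕ, 3 ≤ d → ∃ K : ℝ, ∀ H : ℕ, 1 ≤ H →
  (Bad1 d H C).Finite ∧ ((Bad1 d H C).ncard : ℝ) ≤
    K * (H : ℝ) ^ (2 * d + 1) * (if d = 3 then 1 + Real.log H else 1)

/-! ## Targets: large image height, degree at least four -/

/-- the small integers `y` with `A y` small modulo `m` -/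
noncomputable def nuS (m H z : ℕ) (A : ℤ) : Finset ℤ :=
  open Classical in
  (Icc (-(2 * z : ℤ)) (2 * z)).filter
    (fun y => y ≠ 0 ∧ ∃ e : ℤ, |e| ≤ 2 * H ∧ (m : ℤ) ∣ A * y - e)

/-- the pairs `(y, u)` with `u = A y` modulo `m` -/
noncomputable def latS (m H z : ℕ) (A : ℤ) : Finset (ℤ × ℤ) :=
  open Classical in
  (Icc (-(2 * z : ℤ)) (2 * z) ×ˢ Icc (-(2 * H : ℤ)) (2 * H)).filter
    (fun p => p.1 ≠ 0 ∧ (m : ℤ) ∣ A * p.1 - p.2)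

/-- the norm of a pair `(y, u)` -/
noncomputable def nn (H z : ℕ) (p : ℤ × ℤ) : ℝ := max (|(p.1 : ℝ)| * H) (|(p.2 : ℝ)| * z)

/-- NUA: the shortest vector controls the number of points. -/
def T_NUA : Prop := ∀ (m H z : ℕ), 1 ≤ H → 1 ≤ z → 2 * H < m → ∀ A : ℤ,
  (nuS m H z A).Nonempty → ∃ p ∈ latS m H z A,
    ((nuS m H z A).card : ℝ) ≤ 48 * (z * H) / m + 6 * (z * H) / nn H z p

/-- NUS: sum of the inverse squares of the norms over all the lattices. -/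
def T_NUS : Prop := ∃ K : ℝ, 0 < K ∧ ∀ (m H z : ℕ), 1 ≤ H → 1 ≤ z → 2 * H < m →
  ∑ A ∈ range m, ∑ p ∈ latS m H z (A : ℤ), ((z : ℝ) * H / nn H z p) ^ 2 ≤
    K * ((z : ℝ) * H * (1 + Real.log H) * (1 + Real.log z) + (z : ℝ) ^ 2 * (1 + Real.log z))

/-- NU (from T_NUA, T_NUS): second moment. -/
def T_NU : Prop := ∃ K : ℝ, 0 < K ∧ ∀ (m H z : ℕ), 1 ≤ H → 1 ≤ z → 2 * H < m →
  ∑ A ∈ range m, ((nuS m H z (A : ℤ)).card : ℝ) ^ 2 ≤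
    K * ((z : ℝ) * H * (1 + Real.log H) * (1 + Real.log z) + (z : ℝ) ^ 2 * (1 + Real.log z) +
      ((z : ℝ) * H) ^ 2 / m)

/-- the triples `(A, B, Ψ)` with `(B X - A Y) Ψ` small modulo `m` -/
def CC (d m H z : ℕ) : Set (ℕ × ℕ × (Fin d → ℤ)) :=
  {t | t.1 < m ∧ t.2.1 < m ∧ (∀ j, |t.2.2 j| ≤ (z : ℤ)) ∧ t.2.2 ≠ 0 ∧
    ∀ j : Fin (d + 1), ∃ e : ℤ, |e| ≤ (H : ℤ) ∧
      (m : ℤ) ∣ mulL (t.1 : ℤ) (t.2.1 : ℤ) t.2.2 j - e}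

/-- CC: number of the triples. -/
def T_CC : Prop := ∀ (d m H z : ℕ), 4 ≤ d → 1 ≤ z →
  (CC d m H z).Finite ∧ ((CC d m H z).ncard : ℝ) ≤
    4 * (d : ℝ) ^ 2 * (3 * (z : ℝ)) ^ (d - 4) *
      (∑ A ∈ range m, ((nuS m H z (A : ℤ)).card : ℝ) ^ 2) ^ 2

/-- FIB: number of the points of a box in a residue class. -/
def T_FIB : Prop := ∀ (m X : ℕ) (c : ℤ), 1 ≤ m → m ≤ X →
  ((((Icc (-(X : ℤ)) X).filter (fun a => (m : ℤ) ∣ a - c)).card : ℕ) : ℝ) ≤ 3 * X / m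

/-- INJ (from T_LIN, T_FIB): the maps of `Bad2` in terms of the triples. -/
def T_INJ : Prop := ∀ (d H C I : ℕ), 1 ≤ d → 1 ≤ H →
  (∀ X : ℕ, 1 ≤ X → X ^ (d - 1) ≤ C * H ^ (2 * d - 1) → Nat.log 2 X ≤ I) →
  (∀ m z : ℕ, (CC d m H z).Finite) →
  (Bad2 d H C).Finite ∧ ((Bad2 d H C).ncard : ℝ) ≤
    ∑ i ∈ range (I + 1), ∑ m ∈ Ioc (2 * H) (2 ^ (i + 1)),
      216 * (4 : ℝ) ^ i / m * ((CC d m H (2 * d * H * m / 2 ^ i)).ncard : ℝ)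

/-- SUMM: the final sum, for any `S` bounded as in T_NU and `T` bounded as in T_CC. -/
def T_SUMM : Prop := ∀ (d C : ℕ) (K : ℝ), 4 ≤ d → 0 < K → ∃ K' : ℝ, ∀ H : ℕ, 1 ≤ H →
  ∃ I : ℕ, (∀ X : ℕ, 1 ≤ X → X ^ (d - 1) ≤ C * H ^ (2 * d - 1) → Nat.log 2 X ≤ I) ∧
  ∀ (S T : ℕ → ℕ → ℝ), (∀ m, T m 0 = 0) →
    (∀ m z, 1 ≤ z → 2 * H < m → 0 ≤ S m z ∧ S m z ≤
      K * ((z : ℝ) * H * (1 + Real.log H) * (1 + Real.log z) + (z : ℝ) ^ 2 * (1 + Real.log z) +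
        ((z : ℝ) * H) ^ 2 / m)) →
    (∀ m z, 1 ≤ z → 0 ≤ T m z ∧ T m z ≤
      4 * (d : ℝ) ^ 2 * (3 * (z : ℝ)) ^ (d - 4) * (S m z) ^ 2) →
    ∑ i ∈ range (I + 1), ∑ m ∈ Ioc (2 * H) (2 ^ (i + 1)),
      216 * (4 : ℝ) ^ i / m * T m (2 * d * H * m / 2 ^ i) ≤ K' * (H : ℝ) ^ (2 * d + 1)

/-- CASE2 (from T_NU, T_CC, T_INJ, T_SUMM) -/
def T_CASE2 : Prop := ∀ d C : ℕ, 4 ≤ d → ∃ K : ℝ, ∀ H : ℕ, 1 ≤ H →
  (Bad2 d H C).Finite ∧ ((Bad2 d H C).ncard : ℝ) ≤ K * (H : ℝ) ^ (2 * d + 1)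

/-! ## Targets: large image height, degree three -/

/-- The minors of the matrix with rows `F`, `X p`, `Y p`. -/
def WW (p : Fin 3 → ℤ) (F : Fin 4 → ℤ) : Fin 4 → ℤ :=
  ![-(F 1 * p 2 ^ 2) + F 2 * (p 1 * p 2) + F 3 * (p 0 * p 2 - p 1 ^ 2),
    F 0 * p 2 ^ 2 - F 2 * (p 0 * p 2) + F 3 * (p 0 * p 1),
    -(F 0 * (p 1 * p 2)) + F 1 * (p 0 * p 2) - F 3 * p 0 ^ 2,
    -(F 0 * (p 0 * p 2 - p 1 ^ 2)) - F 1 * (p 0 * p 1) + F 2 * p 0 ^ 2]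

/-- `M` is orthogonal to `X p` and `Y p` -/
def Ort (p : Fin 3 → ℤ) (M : Fin 4 → ℤ) : Prop :=
  M 0 * p 0 + M 1 * p 1 + M 2 * p 2 = 0 ∧ M 1 * p 0 + M 2 * p 1 + M 3 * p 2 = 0

/-- primitive vectors -/
def Prim {n : ℕ} (p : Fin n → ℤ) : Prop := ∀ q : ℤ, (∀ i, q ∣ p i) → IsUnit q

/-- the sup norm -/
def nrm {n : ℕ} (p : Fin n → ℤ) : ℕ := Finset.univ.sup (fun i => (p i).natAbs)

/-- maps of degree three with a witness of large image height -/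
def Bad3 (H C : ℕ) : Set ((Fin 4 → ℤ) × (Fin 4 → ℤ)) :=
  {f | f ∈ Maps 3 H ∧ ∃ (a b r s : ℤ) (Ψ : Fin 3 → ℤ), Wit 3 H C f.1 f.2 a b r s Ψ ∧
    2 * H < mx r s}

/-- MIN: the minors of a bad map. -/
def T_MIN : Prop := ∀ (H C : ℕ), 1 ≤ H → ∀ f ∈ Bad3 H C, ∃ (p : Fin 3 → ℤ) (M : Fin 4 → ℤ)
  (r s : ℤ), Prim p ∧ Ort p M ∧ M ≠ 0 ∧ WW p f.1 = r • M ∧ WW p f.2 = s • M ∧
    1 ≤ nrm p ∧ nrm p ≤ 6 * H ∧ 2 * H < mx r s ∧ mx r s ^ 2 ≤ C * H ^ 5 ∧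
    nrm M * mx r s ≤ 6 * H * nrm p ^ 2

/-- FC: number of the forms with given minors. -/
def T_FC : Prop := ∀ (H : ℕ) (p : Fin 3 → ℤ) (w : Fin 4 → ℤ), 1 ≤ H → Prim p → 1 ≤ nrm p →
  nrm p ≤ 6 * H → {F : Fin 4 → ℤ | (∀ i, |F i| ≤ (H : ℤ)) ∧ WW p F = w}.Finite ∧
  ({F : Fin 4 → ℤ | (∀ i, |F i| ≤ (H : ℤ)) ∧ WW p F = w}.ncard : ℝ) ≤ (18 * H / nrm p) ^ 2

/-- the pairs `(p, M)` in a dyadic range -/
def PP (Z B : ℕ) : Set ((Fin 3 → ℤ) × (Fin 4 → ℤ)) :=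
  {t | Prim t.1 ∧ Ort t.1 t.2 ∧ t.2 ≠ 0 ∧ Z ≤ nrm t.1 ∧ nrm t.1 < 2 * Z ∧
    B ≤ nrm t.2 ∧ nrm t.2 < 2 * B}

/-- PA: first bound for the number of the pairs. -/
def T_PA : Prop := ∃ K : ℝ, 0 < K ∧ ∀ Z B : ℕ, 1 ≤ Z → 1 ≤ B →
  (PP Z B).Finite ∧ ((PP Z B).ncard : ℝ) ≤ K * ((B : ℝ) ^ 4 + B * (Z : ℝ) ^ 2)

/-- LAT: the vectors orthogonal to `X p` and `Y p` -/
def T_LAT : Prop := ∀ (p : Fin 3 → ℤ) (M1 : Fin 4 → ℤ) (B : ℕ), Prim p → Ort p M1 → M1 ≠ 0 →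
  (∀ M : Fin 4 → ℤ, Ort p M → M ≠ 0 → nrm M1 ≤ nrm M) → 1 ≤ B →
  {M : Fin 4 → ℤ | Ort p M ∧ M ≠ 0 ∧ nrm M < 2 * B}.Finite ∧
  ({M : Fin 4 → ℤ | Ort p M ∧ M ≠ 0 ∧ nrm M < 2 * B}.ncard : ℝ) ≤
    96 * (B : ℝ) ^ 2 / (nrm p : ℝ) ^ 2 + 6 * B / nrm M1

/-- PB (from T_PA, T_LAT): second bound for the number of the pairs. -/
def T_PB : Prop := ∃ K : ℝ, 0 < K ∧ ∀ Z B : ℕ, 1 ≤ Z → 1 ≤ B →
  ((PP Z B).ncard : ℝ) ≤ K * (B * (Z : ℝ) ^ ((9 : ℝ) / 4) + (B : ℝ) ^ 2 * Z)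

/-- CASE3 (from T_MIN, T_FC, T_PA, T_PB) -/
def T_CASE3 : Prop := ∀ C : ℕ, ∃ K : ℝ, ∀ H : ℕ, 1 ≤ H →
  (Bad3 H C).Finite ∧ ((Bad3 H C).ncard : ℝ) ≤ K * (H : ℝ) ^ ((31 : ℝ) / 4)

/-! ## The final theorem -/

/-- FINAL -/
def T_FINAL : Prop := ∀ d : ℕ, 3 ≤ d → ∃ c K : ℝ, 0 < c ∧ ∀ H : ℕ, 1 ≤ H →
  (Maps d H).Finite ∧ c * (H : ℝ) ^ (2 * d + 2) ≤ ((Maps d H).ncard : ℝ) ∧
  {f | f ∈ Maps d H ∧ HasPre f} ⊆ Bad d H ∧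
  c * (H : ℝ) ^ (2 * d + 1) ≤ ({f | f ∈ Maps d H ∧ HasPre f}.ncard : ℝ) ∧
  (4 ≤ d → ((Bad d H).ncard : ℝ) ≤ K * (H : ℝ) ^ (2 * d + 1)) ∧
  (d = 3 → ((Bad d H).ncard : ℝ) ≤ K * (H : ℝ) ^ ((31 : ℝ) / 4))

end Pool.Agent.HGR
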