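import Pool.Agent.HGR.Targets

set_option autoImplicit false

/-!
# WIT: every bad map has a witness
-/

namespace Pool.Agent.HGR

open Finset
open scoped BigOperators

namespace WIT_

theorem val_scale {R : Type} [CommRing R] {d : ℕ} (c : Fin (d + 1) → ℤ) (g x y : R) :
    val c (g * x) (g * y) = g ^ d * val c x y := by
  unfold val
  rw [Finset.mul_sum]
  refine Finset.sum_congr rfl fun i _ => ?_
  have hi : (i : ℕ) + (d + 1 - 1 - (i : ℕ)) = d := by
    have := i.2
    omega
  have h : g ^ d = g ^ (i : ℕ) * g ^ (d + 1 - 1 - (i : ℕ)) := by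
    rw [← pow_add, hi]
  rw [h, mul_pow, mul_pow]
  ring

theorem val_cast {n : ℕ} (c : Fin n → ℤ) (x y : ℤ) :
    val c (x : ℂ) (y : ℂ) = ((val c x y : ℤ) : ℂ) := by
  unfold val
  push_cast
  rfl

theorem val_comb {R : Type} [CommRing R] {n : ℕ} (c e : Fin n → ℤ) (s r : ℤ) (x y : R) :
    val (fun i => s * c i - r * e i) x y = s * val c x y - r * val e x y := by
  unfold val
  rw [Finset.mul_sum, Finset.mul_sum, ← Finset.sum_sub_distrib]
  refine Finset.sum_congr rfl fun i _ => ?_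
  push_cast
  ring

theorem val_mul {R : Type} [CommRing R] {n : ℕ} (c : Fin n → ℤ) (s : ℤ) (x y : R) :
    val (fun i => s * c i) x y = s * val c x y := by
  unfold val
  rw [Finset.mul_sum]
  refine Finset.sum_congr rfl fun i _ => ?_
  push_cast
  ring

theorem mx_mul (g a b : ℤ) : mx (g * a) (g * b) = g.natAbs * mx a b := by
  unfold mx
  rw [Int.natAbs_mul, Int.natAbs_mul, Nat.mul_max_mul_left]

theorem ht_mul {g : ℤ} (hg : g ≠ 0) (a b : ℤ) : ht (g * a) (g * b) = ht a b := by
  unfold ht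
  rw [mx_mul, Int.gcd_mul_left, Nat.mul_div_mul_left _ _ (Int.natAbs_pos.2 hg)]

theorem ht_coprime {a b : ℤ} (h : IsCoprime a b) : ht a b = mx a b := by
  unfold ht
  rw [Int.isCoprime_iff_gcd_eq_one.1 h, Nat.div_one]

theorem prim (a b : ℤ) (h : a ≠ 0 ∨ b ≠ 0) : ∃ g a' b' : ℤ, g ≠ 0 ∧ IsCoprime a' b' ∧
    a = g * a' ∧ b = g * b' := by
  have hg : 0 < Int.gcd a b := by
    rw [Int.gcd_pos_iff]
    exact h
  obtain ⟨a', ha'⟩ := Int.gcd_dvd_left a b
  obtain ⟨b', hb'⟩ := Int.gcd_dvd_right a b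
  refine ⟨(Int.gcd a b : ℤ), a', b', by exact_mod_cast hg.ne', ?_, ha', hb'⟩
  rw [Int.isCoprime_iff_gcd_eq_one]
  have h1 : Int.gcd ((Int.gcd a b : ℤ) * a') ((Int.gcd a b : ℤ) * b') = Int.gcd a b := by
    rw [← ha', ← hb']
  rw [Int.gcd_mul_left, Int.natAbs_natCast] at h1
  exact Nat.eq_of_mul_eq_mul_left hg (by rw [h1, mul_one])

theorem zero_exists {d : ℕ} (hd : 1 ≤ d) (W : Fin (d + 1) → ℤ) :
    ∃ x y : ℂ, val W x y = 0 ∧ (x ≠ 0 ∨ y ≠ 0) := by
  by_cases h : W (Fin.last d) = 0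
  · refine ⟨1, 0, ?_, Or.inl one_ne_zero⟩
    unfold val
    refine Finset.sum_eq_zero fun i _ => ?_
    by_cases hi : i = Fin.last d
    · rw [hi, h]
      simp
    · have h1 : (i : ℕ) < d := by
        have h2 := i.2
        have h3 : (i : ℕ) ≠ d := fun h4 => hi (Fin.ext h4)
        omega
      have h2 : d + 1 - 1 - (i : ℕ) ≠ 0 := by omega
      rw [zero_pow h2, mul_zero]
  · set P : Polynomial ℂ := ∑ i : Fin (d + 1), Polynomial.C ((W i : ℤ) : ℂ) *
      Polynomial.X ^ (i : ℕ) with hP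
    have hco : P.coeff d = ((W (Fin.last d) : ℤ) : ℂ) := by
      rw [hP, Polynomial.finsetSum_coeff, Finset.sum_eq_single (Fin.last d)]
      · simp
      · intro b _ hb
        simp only [Polynomial.coeff_C_mul, Polynomial.coeff_X_pow]
        rw [if_neg, mul_zero]
        intro h1
        exact hb (Fin.ext h1.symm)
      · simp
    have hne : P.coeff d ≠ 0 := by
      rw [hco]
      exact_mod_cast h
    have hdeg : P.degree ≠ 0 := by
      have h1 := Polynomial.le_degree_of_ne_zero hne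
      intro h2
      rw [h2] at h1
      have h3 : d ≤ 0 := by exact_mod_cast h1
      omega
    obtain ⟨t, ht⟩ := IsAlgClosed.exists_root P hdeg
    refine ⟨t, 1, ?_, Or.inr one_ne_zero⟩
    rw [Polynomial.IsRoot, hP, Polynomial.eval_finsetSum] at ht
    unfold val
    rw [← ht]
    refine Finset.sum_congr rfl fun i _ => ?_
    simp

end WIT_

open WIT_

theorem p_WIT (h1 : T_FACT) (h2 : T_RES) : T_WIT := by
  intro d hd
  obtain ⟨C, hC⟩ := h2 d hd
  refine ⟨C, fun H hH f hf => ?_⟩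
  obtain ⟨hM, a0, b0, h0, hht⟩ := hf
  obtain ⟨g, a, b, hg, hab, rfl, rfl⟩ := prim a0 b0 h0
  rw [val_scale, val_scale, ht_mul (pow_ne_zero d hg), ht_mul hg, ht_coprime hab] at hht
  have hnz : (val f.1 a b : ℤ) ≠ 0 ∨ (val f.2 a b : ℤ) ≠ 0 := by
    by_contra hcon
    push Not at hcon
    have h3 := hM.2.2 (a : ℂ) (b : ℂ) (by rw [val_cast, hcon.1]; simp)
      (by rw [val_cast, hcon.2]; simp)
    have ha : a = 0 := by exact_mod_cast h3.1
    have hb : b = 0 := by exact_mod_cast h3.2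
    rcases h0 with h | h
    · exact h (by rw [ha, mul_zero])
    · exact h (by rw [hb, mul_zero])
  obtain ⟨k, r, s, hk, hrs, hr, hs⟩ := prim _ _ hnz
  rw [hr, hs, ht_mul hk, ht_coprime hrs] at hht
  have hA : (val (fun i => s * f.1 i - r * f.2 i) a b : ℤ) = 0 := by
    rw [val_comb, hr, hs]
    simp only [Int.cast_id]
    ring
  obtain ⟨Ψ, hΨ1, hΨ2⟩ := h1 d (fun i => s * f.1 i - r * f.2 i) a b hab hA
  refine ⟨a, b, r, s, Ψ, hM.1, hM.2.1, hab, hrs, hht, ?_, hΨ1, ?_, ?_⟩
  · rintro rfl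
    have hz : ∀ j, s * f.1 j = r * f.2 j := by
      intro j
      have h3 := hΨ1 j
      have h4 : mulL a b (0 : Fin d → ℤ) j = 0 := by
        unfold mulL co
        simp
      rw [h4] at h3
      linarith
    obtain ⟨α, β, hαβ⟩ := hrs
    set W : Fin (d + 1) → ℤ := fun j => α * f.1 j + β * f.2 j with hW
    have hF : f.1 = fun j => r * W j := by
      funext j
      rw [hW]
      simp only
      linear_combination (-f.1 j) * hαβ + β * hz j
    have hG : f.2 = fun j => s * W j := by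
      funext j
      rw [hW]
      simp only
      linear_combination (-f.2 j) * hαβ - α * hz j
    obtain ⟨x, y, hxy, hxy0⟩ := zero_exists hd W
    have h3 := hM.2.2 x y (by rw [hF, val_mul, hxy, mul_zero])
      (by rw [hG, val_mul, hxy, mul_zero])
    rcases hxy0 with h | h
    · exact h h3.1
    · exact h h3.2
  · have h3 := hΨ2 (2 * H * mx r s) ?_
    · intro j
      refine (h3 j).trans (le_of_eq ?_)
      push_cast
      ring
    · intro j
      have hr1 : |r| ≤ (mx r s : ℤ) := by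
        rw [Int.abs_eq_natAbs]
        exact_mod_cast le_max_left _ _
      have hs1 : |s| ≤ (mx r s : ℤ) := by
        rw [Int.abs_eq_natAbs]
        exact_mod_cast le_max_right _ _
      have hF1 := hM.1 j
      have hG1 := hM.2.1 j
      have hmx : (0 : ℤ) ≤ (mx r s : ℤ) := Int.natCast_nonneg _
      calc |s * f.1 j - r * f.2 j| ≤ |s * f.1 j| + |r * f.2 j| := abs_sub _ _
        _ = |s| * |f.1 j| + |r| * |f.2 j| := by rw [abs_mul, abs_mul]
        _ ≤ (mx r s : ℤ) * H + (mx r s : ℤ) * H := by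
            gcongr
        _ = _ := by
            push_cast
            ring
  · exact hC H hH f hM a b r s k hab hrs hk hr hs

end Pool.Agent.HGR
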